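import Pool.Agent.EscapeTorus.Curve

/-! From averaging data to path data. -/

set_option linter.unusedSectionVars false

namespace EscapeTorus

open Filter Topology
open scoped ContDiff

variable {E : Type} [NormedAddCommGroup E] [NormedSpace ℝ E]

theorem pathData_of_avg {α b : ℝ} (hα : 0 ≤ α) (hα2 : α ≤ 1 / 2) (hb : 0 ≤ b) (e u : E)
    (Mop : E ≃L[ℝ] (E →L[ℝ] ℝ)) {g : E × ℝ → E →L[ℝ] ℝ} (bg : Bdd g) (D : AvgData e g) :
    Nonempty (PathData α b (2 * α) e u Mop g) := by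
  obtain ⟨X0, X1, X2, s0, s1, s2, d0, d1, hres⟩ := avg_exists hα hα2 hb e u D
  have hsymm : ∀ {X : ℝ → ℝ → (E →L[ℝ] ℝ)}, Sy (-(2 * α)) X →
      Sy (-(2 * α)) (fun L s => Mop.symm (X L s)) := fun hX =>
    hX.clm (Mop.symm : (E →L[ℝ] ℝ) →L[ℝ] E)
  have hsd : ∀ {X X' : ℝ → ℝ → (E →L[ℝ] ℝ)}, (∀ᶠ L in atTop, ∀ s, HasDerivAt (X L) (X' L s) s) →
      ∀ᶠ L in atTop, ∀ s, HasDerivAt (fun s => Mop.symm (X L s)) (Mop.symm (X' L s)) s := by
    intro X X' hX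
    filter_upwards [hX] with L h1 s
    exact (Mop.symm : (E →L[ℝ] ℝ) →L[ℝ] E).hasFDerivAt.comp_hasDerivAt s (h1 s)
  refine ⟨⟨fun L s => Mop.symm (X0 L s), fun L s => Mop.symm (X1 L s),
    fun L s => Mop.symm (X2 L s), hsymm s0, hsymm s1, hsymm s2, hsd d0, hsd d1, ?_⟩⟩
  have hc : ∀ᶠ L in atTop, ∀ s, HasDerivAt (c0 α b e u L) (c0' α b e u L s) s := by
    filter_upwards [eventually_gt_atTop (0 : ℝ)] with L hL s
    exact hasDerivAt_c0 α b e u hL s
  have h1 : Sy (-(2 * α)) (fun L s => g (c0 α b e u L s + (Mop.symm (X0 L s), (0 : ℝ)))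
      - g (c0 α b e u L s)) := by
    refine Sy.comp_sub (by linarith) hc (sy_c0' hα hb e u) ?_ bg
    exact (hsymm s0).prodMk (Sy.zero _)
  have h2 := hres.sub h1
  refine h2.congr' fun L s => ?_
  have h3 : c0 α b e u L s + (Mop.symm (X0 L s), (0 : ℝ))
      = Yc α b e u (fun L s => Mop.symm (X0 L s)) L s := by
    simp [c0, Yc]
  rw [h3, map_smul, ContinuousLinearEquiv.apply_symm_apply]
  simp only [br]
  abel

end EscapeTorus
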