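import Pool.Agent.EscapeTorus.Sym2

/-! Inverse functions on the line, and the two explicit primitives used for the path. -/

set_option linter.unusedSectionVars false

namespace EscapeTorus

open Filter Topology MeasureTheory intervalIntegral

/-- inverse of an increasing differentiable bijection of the line -/
lemma exists_inverse {φ φ' : ℝ → ℝ} (hφ : ∀ s, HasDerivAt φ (φ' s) s) (hpos : ∀ s, 0 < φ' s)
    (htop : Tendsto φ atTop atTop) (hbot : Tendsto φ atBot atBot) :
    ∃ ψ : ℝ → ℝ, (∀ t, φ (ψ t) = t) ∧ (∀ s, ψ (φ s) = s) ∧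
      ∀ t, HasDerivAt ψ (φ' (ψ t))⁻¹ t := by
  have hcont : Continuous φ := continuous_iff_continuousAt.mpr fun s => (hφ s).continuousAt
  have hmono : StrictMono φ := by
    refine strictMono_of_deriv_pos fun s => ?_
    rw [(hφ s).deriv]; exact hpos s
  have hsurj : Function.Surjective φ := hcont.surjective htop hbot
  let o : ℝ ≃o ℝ := StrictMono.orderIsoOfSurjective φ hmono hsurj
  have ho : ∀ s, o s = φ s := fun s => rfl
  refine ⟨o.symm, fun t => by rw [← ho]; simp, fun s => by rw [← ho]; simp, fun t => ?_⟩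
  have h1 : HasDerivAt φ (φ' (o.symm t)) (o.symm t) := hφ _
  refine HasDerivAt.of_local_left_inverse (f := φ) (o.symm.continuous.continuousAt) h1
    (hpos _).ne' (Eventually.of_forall fun y => ?_)
  rw [← ho]; simp

/-- primitive of `J^a`. -/
noncomputable def prim (a L s : ℝ) : ℝ := ∫ x in (0:ℝ)..s, J L x ^ a

lemma continuous_J_rpow {L : ℝ} (hL : 0 < L) (a : ℝ) : Continuous fun s => J L s ^ a :=
  continuous_iff_continuousAt.mpr fun s => (hasDerivAt_J_rpow hL a s).continuousAt

lemma hasDerivAt_prim {L : ℝ} (hL : 0 < L) (a s : ℝ) : HasDerivAt (prim a L) (J L s ^ a) s :=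
  integral_hasDerivAt_right ((continuous_J_rpow hL a).intervalIntegrable _ _)
    ((continuous_J_rpow hL a).stronglyMeasurableAtFilter _ _) (continuous_J_rpow hL a).continuousAt

lemma prim_zero (a L : ℝ) : prim a L 0 = 0 := by simp [prim]

lemma J_neg (L s : ℝ) : J L (-s) = J L s := by simp [J]

lemma prim_neg {L : ℝ} (a s : ℝ) : prim a L (-s) = - prim a L s := by
  unfold prim
  have h1 := intervalIntegral.integral_comp_neg (a := 0) (b := s) (fun x => J L x ^ a)
  simp only [J_neg, neg_zero] at h1
  rw [h1, intervalIntegral.integral_symm]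

/-- lower bound of increments through a minorant of the derivative. -/
lemma prim_sub_ge {L : ℝ} (hL : 0 < L) (a : ℝ) {s s' c : ℝ} (hs : s ≤ s')
    (hc : ∀ x ∈ Set.Icc s s', c ≤ J L x ^ a) : c * (s' - s) ≤ prim a L s' - prim a L s := by
  have h := Convex.mul_sub_le_image_sub_of_le_deriv (D := Set.Icc s s') (f := prim a L) (C := c)
    (convex_Icc s s')
    (fun x _ => (hasDerivAt_prim hL a x).continuousAt.continuousWithinAt)
    (fun x _ => (hasDerivAt_prim hL a x).differentiableAt.differentiableWithinAt)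
    (fun x hx => by
      rw [(hasDerivAt_prim hL a x).deriv]
      exact hc x (interior_subset hx))
    s (Set.left_mem_Icc.mpr hs) s' (Set.right_mem_Icc.mpr hs) hs
  exact h

lemma prim_mono {L : ℝ} (hL : 0 < L) (a : ℝ) : StrictMono (prim a L) := by
  refine strictMono_of_deriv_pos fun s => ?_
  rw [(hasDerivAt_prim hL a s).deriv]
  exact Real.rpow_pos_of_pos (J_pos hL s) _

/-- For `-1 < a ≤ 0` the primitive is unbounded. -/
lemma prim_ge {L : ℝ} (hL : 0 < L) {a : ℝ} (ha : a ≤ 0) {s : ℝ} (hs : 0 ≤ s) :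
    s * J L s ^ a ≤ prim a L s := by
  have h := prim_sub_ge hL a hs (c := J L s ^ a) (fun x hx => ?_)
  · rw [prim_zero] at h; linarith [mul_comm (J L s ^ a) (s - 0)]
  · apply Real.rpow_le_rpow_of_nonpos (J_pos hL x) _ ha
    unfold J
    apply Real.sqrt_le_sqrt
    have h1 := hx.1
    have h2 := hx.2
    nlinarith

lemma tendsto_prim_atTop {L : ℝ} (hL : 0 < L) {a : ℝ} (ha : a ≤ 0) (ha' : -1 < a) :
    Tendsto (prim a L) atTop atTop := by
  have h1 : Tendsto (fun s : ℝ => (2 : ℝ) ^ a * s ^ (1 + a)) atTop atTop := by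
    apply Tendsto.const_mul_atTop (by positivity)
    exact tendsto_rpow_atTop (by linarith)
  refine tendsto_atTop_mono' _ ?_ h1
  filter_upwards [eventually_ge_atTop L, eventually_gt_atTop (0 : ℝ)] with s hs hs0
  refine le_trans ?_ (prim_ge hL ha hs0.le)
  have h2 : J L s ≤ 2 * s := by
    unfold J
    rw [show 2 * s = Real.sqrt ((2 * s) ^ 2) from (Real.sqrt_sq (by linarith)).symm]
    apply Real.sqrt_le_sqrt
    nlinarith
  calc (2 : ℝ) ^ a * s ^ (1 + a) = s * (2 * s) ^ a := by
        rw [Real.mul_rpow (by norm_num) hs0.le, Real.rpow_add hs0, Real.rpow_one]; ring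
    _ ≤ s * J L s ^ a := by
        gcongr ?_ * ?_
        exact Real.rpow_le_rpow_of_nonpos (J_pos hL s) h2 ha

lemma tendsto_prim_atBot {L : ℝ} (hL : 0 < L) {a : ℝ} (ha : a ≤ 0) (ha' : -1 < a) :
    Tendsto (prim a L) atBot atBot := by
  have h1 := (tendsto_prim_atTop hL ha ha').comp tendsto_neg_atBot_atTop
  have h2 := tendsto_neg_atTop_atBot.comp h1
  refine h2.congr fun s => ?_
  simp [prim_neg]

/-- For `a = -(1+b)`, `b>0`: the primitive is bounded by `C L^{-b}`. -/
lemma prim_bounded {b : ℝ} (hb : 0 < b) {L : ℝ} (hL : 0 < L) (s : ℝ) :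
    |prim (-(1 + b)) L s| ≤ 2 ^ (1 + b) / b * L ^ (-b) := by
  have key : ∀ s, 0 ≤ s → |prim (-(1 + b)) L s| ≤ 2 ^ (1 + b) / b * L ^ (-b) := by
    intro s hs
    have h0 : 0 ≤ prim (-(1 + b)) L s := by
      have := (prim_mono hL (-(1 + b))).monotone hs
      rwa [prim_zero] at this
    rw [abs_of_nonneg h0]
    let D : ℝ → ℝ := fun x => 2 ^ (1 + b) / b * (L ^ (-b) - (L + x) ^ (-b)) - prim (-(1 + b)) L x
    have hD : ∀ x, 0 ≤ x → HasDerivAt D
        (2 ^ (1 + b) * (L + x) ^ (-(1 + b)) - J L x ^ (-(1 + b))) x := by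
      intro x hx
      have hLx : 0 < L + x := by linarith
      have h1 : HasDerivAt (fun x => (L + x) ^ (-b)) (1 * (-b) * (L + x) ^ (-b - 1)) x :=
        ((hasDerivAt_id x).const_add L).rpow_const (Or.inl hLx.ne')
      have h2 := ((h1.const_sub (L ^ (-b))).const_mul (2 ^ (1 + b) / b)).sub
        (hasDerivAt_prim hL (-(1 + b)) x)
      refine HasDerivAt.congr_deriv (f := D) h2 ?_
      have h3 : -b - 1 = -(1 + b) := by ring
      rw [h3]
      field_simp
    have hmono : MonotoneOn D (Set.Ici 0) := by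
      apply monotoneOn_of_deriv_nonneg (convex_Ici 0)
      · exact fun x hx => (hD x hx).continuousAt.continuousWithinAt
      · exact fun x hx => (hD x (interior_subset hx)).differentiableAt.differentiableWithinAt
      · intro x hx
        have hx0 : (0 : ℝ) ≤ x := interior_subset hx
        rw [(hD x hx0).deriv]
        have hLx : 0 < L + x := by linarith
        have h1 : (L + x) / 2 ≤ J L x := by
          have := le_J L x
          have := abs_le_J L x
          rw [abs_of_nonneg hx0] at this
          linarith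
        have h2 : J L x ^ (-(1 + b)) ≤ ((L + x) / 2) ^ (-(1 + b)) :=
          Real.rpow_le_rpow_of_nonpos (by positivity) h1 (by linarith)
        have h3 : ((L + x) / 2) ^ (-(1 + b)) = 2 ^ (1 + b) * (L + x) ^ (-(1 + b)) := by
          rw [Real.div_rpow hLx.le (by norm_num), Real.rpow_neg (by norm_num : (0:ℝ) ≤ 2)]
          field_simp
        linarith
    have h4 := hmono (Set.mem_Ici.mpr le_rfl) (Set.mem_Ici.mpr hs) hs
    simp only [D, add_zero, sub_self, mul_zero, prim_zero] at h4
    have h5 : 0 ≤ 2 ^ (1 + b) / b * (L + s) ^ (-b) := by positivity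
    linarith [mul_sub (2 ^ (1 + b) / b) (L ^ (-b)) ((L + s) ^ (-b))]
  rcases le_total 0 s with hs | hs
  · exact key s hs
  · have := key (-s) (by linarith)
    rwa [prim_neg, abs_neg] at this

/-- the drift separates -/
lemma prim_separates {b : ℝ} (hb : 0 < b) {L : ℝ} (hL : 0 < L) (s s' : ℝ) :
    2 ^ (-(1 + b)) * min |s' - s| (J L s) * J L s ^ (-(1 + b))
      ≤ |prim (-(1 + b)) L s' - prim (-(1 + b)) L s| := by
  have hJ := J_pos hL s
  -- a general one-sided version
  have key : ∀ y y' : ℝ, y ≤ y' → (∀ x ∈ Set.Icc y y', |x - s| ≤ J L s) →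
      2 ^ (-(1 + b)) * (y' - y) * J L s ^ (-(1 + b))
        ≤ prim (-(1 + b)) L y' - prim (-(1 + b)) L y := by
    intro y y' hy hx
    have h1 := prim_sub_ge hL (-(1 + b)) hy (c := 2 ^ (-(1 + b)) * J L s ^ (-(1 + b)))
      (fun x hx' => ?_)
    · linarith
    · rw [← Real.mul_rpow (by norm_num) hJ.le]
      apply Real.rpow_le_rpow_of_nonpos (J_pos hL x) _ (by linarith)
      have := J_le_add L s x
      have := hx x hx'
      linarith
  have hm := (prim_mono hL (-(1 + b))).monotone
  set d := min |s' - s| (J L s) with hd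
  have hd0 : 0 ≤ d := le_min (abs_nonneg _) hJ.le
  have hd1 : d ≤ |s' - s| := min_le_left _ _
  have hd2 : d ≤ J L s := min_le_right _ _
  rcases le_total s s' with h | h
  · have h1 := key s (s + d) (by linarith) (fun x hx => by
      rw [abs_of_nonneg (by linarith [hx.1])]; linarith [hx.2])
    rw [abs_of_nonneg (by linarith)] at hd1
    have h2 := hm (show s + d ≤ s' by linarith)
    rw [abs_of_nonneg (by linarith [hm h])]
    rw [add_sub_cancel_left] at h1
    linarith
  · have h1 := key (s - d) s (by linarith) (fun x hx => by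
      rw [abs_of_nonpos (by linarith [hx.2])]; linarith [hx.1])
    rw [abs_of_nonpos (by linarith)] at hd1
    have h2 := hm (show s' ≤ s - d by linarith)
    rw [abs_of_nonpos (by linarith [hm h])]
    rw [sub_sub_cancel] at h1
    linarith

end EscapeTorus
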