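import Pool.Agent.EscapeTorus.Base

/-! The explicit path and the averaging computation. -/

set_option linter.unusedSectionVars false

namespace EscapeTorus

open Filter Topology
open scoped ContDiff

section

variable {E G : Type} [NormedAddCommGroup E] [NormedSpace ℝ E]
  [NormedAddCommGroup G] [NormedSpace ℝ G]

/-- base curve `(s e + z(s) u, T₀(s))` -/
noncomputable def c0 (α b : ℝ) (e u : E) (L s : ℝ) : E × ℝ :=
  (s • e + prim (-(1 + b)) L s • u, prim (-α) L s)

/-- its derivative -/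
noncomputable def c0' (α b : ℝ) (e u : E) (L s : ℝ) : E × ℝ :=
  (e + J L s ^ (-(1 + b)) • u, J L s ^ (-α))

/-- directional derivatives along `e` (space) -/
noncomputable def De (e : E) (K : E × ℝ → G) (p : E × ℝ) : G := fderiv ℝ K p (e, 0)

/-- time derivative -/
noncomputable def Dt (K : E × ℝ → G) (p : E × ℝ) : G := fderiv ℝ K p (0, 1)

lemma Bdd.De {K : E × ℝ → G} (hK : Bdd K) (e : E) : Bdd (De e K) := hK.fderiv_apply _

lemma Bdd.Dt {K : E × ℝ → G} (hK : Bdd K) : Bdd (Dt K) := hK.fderiv_apply _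

lemma hasDerivAt_c0 (α b : ℝ) (e u : E) {L : ℝ} (hL : 0 < L) (s : ℝ) :
    HasDerivAt (c0 α b e u L) (c0' α b e u L s) s := by
  have h1 : HasDerivAt (fun s : ℝ => s • e) ((1 : ℝ) • e) s :=
    (hasDerivAt_id s).smul_const e
  have h2 : HasDerivAt (fun s : ℝ => prim (-(1 + b)) L s • u) (J L s ^ (-(1 + b)) • u) s :=
    (hasDerivAt_prim hL _ s).smul_const u
  have h3 := (h1.add h2).prodMk (hasDerivAt_prim hL (-α) s)
  rw [one_smul] at h3
  exact h3

lemma sy_c0' {α b : ℝ} (hα : 0 ≤ α) (hb : 0 ≤ b) (e u : E) : Sy 0 (c0' α b e u) := by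
  have h1 : Sy 0 (fun L s => e + J L s ^ (-(1 + b)) • u) := by
    refine (Sy.const e).add ?_
    exact ((Sy.rpow (-(1 + b))).smul (Sy.const u)).mono (by linarith)
  have h2 : Sy 0 (fun L s => J L s ^ (-α)) := (Sy.rpow (-α)).mono (by linarith)
  exact h1.prodMk h2

/-- bracket: restriction of a function to the base curve -/
noncomputable def br (α b : ℝ) (e u : E) (K : E × ℝ → G) (L s : ℝ) : G := K (c0 α b e u L s)

lemma sy_br {α b : ℝ} (hα : 0 ≤ α) (hb : 0 ≤ b) (e u : E) {K : E × ℝ → G} (hK : Bdd K) :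
    Sy 0 (br α b e u K) := by
  refine Sy.comp_bdd (c := c0 α b e u) (c' := c0' α b e u) ?_ (sy_c0' hα hb e u) hK
  filter_upwards [eventually_gt_atTop (0 : ℝ)] with L hL s
  exact hasDerivAt_c0 α b e u hL s

/-- derivative of a weighted bracket, modulo symbols of order `c - 1`. -/
lemma br_deriv {α b : ℝ} (hα : 0 ≤ α) (hb : 0 ≤ b) (e u : E) {K : E × ℝ → G} (hK : Bdd K)
    (c : ℝ) :
    ∃ R : ℝ → ℝ → G, Sy (c - 1) R ∧ ∀ᶠ L in atTop, ∀ s,
      HasDerivAt (fun s => J L s ^ c • br α b e u K L s)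
        (J L s ^ c • br α b e u (De e K) L s + J L s ^ (c - α) • br α b e u (Dt K) L s + R L s) s := by
  refine ⟨fun L s => (c * (s / J L s) * J L s ^ (c - 1)) • br α b e u K L s
    + (J L s ^ c * J L s ^ (-(1 + b))) • br α b e u (De u K) L s, ?_, ?_⟩
  · refine Sy.add ?_ ?_
    · exact (((Sy.sdiv.const_mul c).mul (Sy.rpow (c - 1))).smul (sy_br hα hb e u hK)).mono
        (by linarith)
    · exact (((Sy.rpow c).mul (Sy.rpow (-(1 + b)))).smul
        (sy_br hα hb e u (hK.De u))).mono (by linarith)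
  · filter_upwards [eventually_gt_atTop (0 : ℝ)] with L hL s
    have hJ := J_pos hL s
    have h1 : HasDerivAt (br α b e u K L) (fderiv ℝ K (c0 α b e u L s) (c0' α b e u L s)) s :=
      (hK.hasFDerivAt _).comp_hasDerivAt s (hasDerivAt_c0 α b e u hL s)
    have h2 : fderiv ℝ K (c0 α b e u L s) (c0' α b e u L s)
        = br α b e u (De e K) L s + J L s ^ (-(1 + b)) • br α b e u (De u K) L s
          + J L s ^ (-α) • br α b e u (Dt K) L s := by
      have h3 : c0' α b e u L s = (e, (0:ℝ)) + J L s ^ (-(1 + b)) • (u, (0:ℝ))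
          + J L s ^ (-α) • ((0 : E), (1:ℝ)) := by
        simp [c0']
      rw [h3, map_add, map_add, map_smul, map_smul]
      rfl
    rw [h2] at h1
    refine ((hasDerivAt_J_rpow hL c s).smul h1).congr_deriv ?_
    have h4 : J L s ^ (c - α) = J L s ^ c * J L s ^ (-α) := by
      rw [← Real.rpow_add hJ]; ring_nf
    rw [h4]
    simp only [smul_add, smul_smul]
    abel

/-- Averaging data: `H1`, `K` with `∂e² H1 = g` and the cross term cancelling. -/
structure AvgData (e : E) (g : E × ℝ → G) where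
  H1 : E × ℝ → G
  K : E × ℝ → G
  bH1 : Bdd H1
  bK : Bdd K
  h2 : ∀ p, De e (De e H1) p = g p
  hcross : ∀ p, Dt (De e H1) p + De e (Dt H1) p = (2 : ℝ) • De e (De e K) p

/-- the averaged correction and its two derivatives -/
theorem avg_exists {α b : ℝ} (hα : 0 ≤ α) (hα2 : α ≤ 1 / 2) (hb : 0 ≤ b) (e u : E)
    {g : E × ℝ → G} (D : AvgData e g) :
    ∃ X0 X1 X2 : ℝ → ℝ → G, Sy (-(2 * α)) X0 ∧ Sy (-(2 * α)) X1 ∧ Sy (-(2 * α)) X2 ∧
      (∀ᶠ L in atTop, ∀ s, HasDerivAt (X0 L) (X1 L s) s) ∧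
      (∀ᶠ L in atTop, ∀ s, HasDerivAt (X1 L) (X2 L s) s) ∧
      Sy (-(2 * α)) (fun L s => J L s ^ (2 * α) • X2 L s - br α b e u g L s) := by
  have bH2 : Bdd (De e D.H1) := D.bH1.De e
  have bT1 : Bdd (Dt D.H1) := D.bH1.Dt
  have bKe : Bdd (De e D.K) := D.bK.De e
  have bKt : Bdd (Dt D.K) := D.bK.Dt
  obtain ⟨R1, sR1, dR1⟩ := br_deriv hα hb e u D.bH1 (-(2 * α))
  obtain ⟨R2, sR2, dR2⟩ := br_deriv hα hb e u bH2 (-(2 * α))
  obtain ⟨R3, sR3, dR3⟩ := br_deriv hα hb e u bT1 (-(2 * α) - α)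
  obtain ⟨S1, sS1, dS1⟩ := br_deriv hα hb e u D.bK (-(3 * α))
  obtain ⟨S2, sS2, dS2⟩ := br_deriv hα hb e u bKe (-(3 * α))
  obtain ⟨S3, sS3, dS3⟩ := br_deriv hα hb e u bKt (-(3 * α) - α)
  obtain ⟨R1', dR1', sR1'⟩ := sR1.exists_deriv
  obtain ⟨S1', dS1', sS1'⟩ := sS1.exists_deriv
  have br0 : ∀ {K : E × ℝ → G}, Bdd K → ∀ c : ℝ, Sy c (fun L s => J L s ^ c • br α b e u K L s) :=
    fun hK c => ((Sy.rpow c).smul (sy_br hα hb e u hK)).mono (by linarith)
  refine ⟨fun L s => J L s ^ (-(2 * α)) • br α b e u D.H1 L s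
      - (2 : ℝ) • J L s ^ (-(3 * α)) • br α b e u D.K L s,
    fun L s => (J L s ^ (-(2 * α)) • br α b e u (De e D.H1) L s
        + J L s ^ (-(2 * α) - α) • br α b e u (Dt D.H1) L s + R1 L s)
      - (2 : ℝ) • (J L s ^ (-(3 * α)) • br α b e u (De e D.K) L s
        + J L s ^ (-(3 * α) - α) • br α b e u (Dt D.K) L s + S1 L s),
    fun L s => ((J L s ^ (-(2 * α)) • br α b e u (De e (De e D.H1)) L s
          + J L s ^ (-(2 * α) - α) • br α b e u (Dt (De e D.H1)) L s + R2 L s)
        + (J L s ^ (-(2 * α) - α) • br α b e u (De e (Dt D.H1)) L s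
          + J L s ^ (-(2 * α) - α - α) • br α b e u (Dt (Dt D.H1)) L s + R3 L s) + R1' L s)
      - (2 : ℝ) • ((J L s ^ (-(3 * α)) • br α b e u (De e (De e D.K)) L s
          + J L s ^ (-(3 * α) - α) • br α b e u (Dt (De e D.K)) L s + S2 L s)
        + (J L s ^ (-(3 * α) - α) • br α b e u (De e (Dt D.K)) L s
          + J L s ^ (-(3 * α) - α - α) • br α b e u (Dt (Dt D.K)) L s + S3 L s) + S1' L s),
    ?_, ?_, ?_, ?_, ?_, ?_⟩
  · refine ((br0 D.bH1 _).mono (by linarith)).sub (((br0 D.bK _).mono (by linarith)).const_smul 2)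
  · refine Sy.sub ?_ (Sy.const_smul 2 ?_)
    · exact (((br0 bH2 _).mono (by linarith)).add ((br0 bT1 _).mono (by linarith))).add
        (sR1.mono (by linarith))
    · exact (((br0 bKe _).mono (by linarith)).add ((br0 bKt _).mono (by linarith))).add
        (sS1.mono (by linarith))
  · refine Sy.sub ?_ (Sy.const_smul 2 ?_)
    · exact (((((br0 (bH2.De e) _).mono (by linarith)).add ((br0 bH2.Dt _).mono (by linarith))).add
        (sR2.mono (by linarith))).add ((((br0 (bT1.De e) _).mono (by linarith)).add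
        ((br0 bT1.Dt _).mono (by linarith))).add (sR3.mono (by linarith)))).add
        (sR1'.mono (by linarith))
    · exact (((((br0 (bKe.De e) _).mono (by linarith)).add ((br0 bKe.Dt _).mono (by linarith))).add
        (sS2.mono (by linarith))).add ((((br0 (bKt.De e) _).mono (by linarith)).add
        ((br0 bKt.Dt _).mono (by linarith))).add (sS3.mono (by linarith)))).add
        (sS1'.mono (by linarith))
  · filter_upwards [dR1, dS1] with L h1 h2 s
    exact (h1 s).sub ((h2 s).const_smul (2 : ℝ))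
  · filter_upwards [dR1, dR2, dR3, dR1', dS1, dS2, dS3, dS1'] with L h1 h2 h3 h4 k1 k2 k3 k4 s
    exact (((h2 s).add (h3 s)).add (h4 s)).sub ((((k2 s).add (k3 s)).add (k4 s)).const_smul (2 : ℝ))
  · -- main cancellation
    have key : ∀ᶠ L in atTop, ∀ s,
        (J L s ^ (2 * α) • (R2 L s + J L s ^ (-(2 * α) - α - α) • br α b e u (Dt (Dt D.H1)) L s
          + R3 L s + R1' L s)
        - J L s ^ (2 * α) • ((2 : ℝ) • (J L s ^ (-(3 * α) - α) • br α b e u (Dt (De e D.K)) L s
          + S2 L s + J L s ^ (-(3 * α) - α) • br α b e u (De e (Dt D.K)) L s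
          + J L s ^ (-(3 * α) - α - α) • br α b e u (Dt (Dt D.K)) L s + S3 L s + S1' L s)))
        = J L s ^ (2 * α) • (((J L s ^ (-(2 * α)) • br α b e u (De e (De e D.H1)) L s
          + J L s ^ (-(2 * α) - α) • br α b e u (Dt (De e D.H1)) L s + R2 L s)
        + (J L s ^ (-(2 * α) - α) • br α b e u (De e (Dt D.H1)) L s
          + J L s ^ (-(2 * α) - α - α) • br α b e u (Dt (Dt D.H1)) L s + R3 L s) + R1' L s)
      - (2 : ℝ) • ((J L s ^ (-(3 * α)) • br α b e u (De e (De e D.K)) L s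
          + J L s ^ (-(3 * α) - α) • br α b e u (Dt (De e D.K)) L s + S2 L s)
        + (J L s ^ (-(3 * α) - α) • br α b e u (De e (Dt D.K)) L s
          + J L s ^ (-(3 * α) - α - α) • br α b e u (Dt (Dt D.K)) L s + S3 L s) + S1' L s))
        - br α b e u g L s := by
      filter_upwards [eventually_gt_atTop (0 : ℝ)] with L hL s
      have hJ := J_pos hL s
      have e1 : br α b e u (De e (De e D.H1)) L s = br α b e u g L s := D.h2 _
      have e2 : br α b e u (De e (Dt D.H1)) L s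
          = (2 : ℝ) • br α b e u (De e (De e D.K)) L s - br α b e u (Dt (De e D.H1)) L s :=
        eq_sub_of_add_eq' (D.hcross _)
      have e3 : J L s ^ (-(2 * α)) = (J L s ^ (2 * α))⁻¹ := Real.rpow_neg hJ.le _
      have e4 : J L s ^ (-(2 * α) - α) = J L s ^ (-(3 * α)) := by ring_nf
      have e5 : J L s ^ (2 * α) ≠ 0 := (Real.rpow_pos_of_pos hJ _).ne'
      rw [e1, e2, e4, e3]
      generalize J L s ^ (2 * α) = w at *
      generalize J L s ^ (-(3 * α)) = w3
      have e6 : w • w⁻¹ • br α b e u g L s = br α b e u g L s := by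
        rw [smul_smul, mul_inv_cancel₀ e5, one_smul]
      simp only [smul_add, smul_sub, e6, smul_comm (2 : ℝ) w3]
      abel
    refine Sy.congr ?_ key
    refine Sy.sub ?_ ?_
    · refine ((Sy.rpow (2 * α)).smul (b := -(4 * α)) ?_).mono (by linarith)
      refine (((sR2.mono (by linarith)).add ((br0 bT1.Dt _).mono (by linarith))).add
        (sR3.mono (by linarith))).add (sR1'.mono (by linarith))
    · refine ((Sy.rpow (2 * α)).smul (b := -(4 * α)) (Sy.const_smul 2 ?_)).mono (by linarith)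
      refine ((((((br0 bKe.Dt _).mono (by linarith)).add (sS2.mono (by linarith))).add
        ((br0 (bKt.De e) _).mono (by linarith))).add ((br0 bKt.Dt _).mono (by linarith))).add
        (sS3.mono (by linarith))).add (sS1'.mono (by linarith))

end

end EscapeTorus
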