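import Pool.Agent.EscapeTorus.Disj
import Pool.Agent.EscapeTorus.Path

/-! The orbit and the potential: abstract dynamical statement. -/

set_option linter.unusedSectionVars false

namespace EscapeTorus

open Filter Topology
open scoped ContDiff

variable {E : Type} [NormedAddCommGroup E] [NormedSpace ℝ E] [ProperSpace E]
variable {ι : Type} [AddCommGroup ι]

/-- spatial differential as a covector -/
noncomputable def Dx (F : E × ℝ → ℝ) (p : E × ℝ) : E →L[ℝ] ℝ :=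
  (fderiv ℝ F p).comp (ContinuousLinearMap.inl ℝ E ℝ)

/-- Data produced by the averaging procedure -/
structure PathData (α b β : ℝ) (e u : E) (Mop : E ≃L[ℝ] (E →L[ℝ] ℝ)) (g : E × ℝ → E →L[ℝ] ℝ) where
  X0 : ℝ → ℝ → E
  X1 : ℝ → ℝ → E
  X2 : ℝ → ℝ → E
  s0 : Sy (-(2 * α)) X0
  s1 : Sy (-(2 * α)) X1
  s2 : Sy (-(2 * α)) X2
  d0 : ∀ᶠ L in atTop, ∀ s, HasDerivAt (X0 L) (X1 L s) s
  d1 : ∀ᶠ L in atTop, ∀ s, HasDerivAt (X1 L) (X2 L s) s
  hres : Sy (-β) (fun L s => Mop (J L s ^ (2 * α) • X2 L s) - g (Yc α b e u X0 L s))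

/-- exact residual covector -/
noncomputable def Wres (α b : ℝ) (e u : E) (Mop : E ≃L[ℝ] (E →L[ℝ] ℝ)) (g : E × ℝ → E →L[ℝ] ℝ)
    (X0 X1 X2 : ℝ → ℝ → E) (L s : ℝ) : E →L[ℝ] ℝ :=
  Mop (J L s ^ (2 * α) • ((-(1 + b) * (s / J L s) * J L s ^ (-(1 + b) - 1)) • u + X2 L s)
    + (α * (s / J L s) * J L s ^ (2 * α - 1)) • (e + J L s ^ (-(1 + b)) • u + X1 L s))
    - g (Yc α b e u X0 L s)

variable {α b β : ℝ} {e u : E} {Mop : E ≃L[ℝ] (E →L[ℝ] ℝ)} {g : E × ℝ → E →L[ℝ] ℝ}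

lemma sy_X' (hb : 0 ≤ b) {X1 : ℝ → ℝ → E} (hα : 0 ≤ α) (h : Sy (-(2 * α)) X1) :
    Sy 0 (fun L s => e + J L s ^ (-(1 + b)) • u + X1 L s) := by
  refine ((Sy.const e).add ?_).add (h.mono (by linarith))
  exact ((Sy.rpow (-(1 + b))).smul (Sy.const u)).mono (by linarith)

lemma sy_Wres (hα : 0 ≤ α) (hb : 0 ≤ b) (hβ : β ≤ 1 - 2 * α) (D : PathData α b β e u Mop g) :
    Sy (-β) (Wres α b e u Mop g D.X0 D.X1 D.X2) := by
  have h1 : Sy (-β) (fun L s => (J L s ^ (2 * α) * (-(1 + b) * (s / J L s) *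
      J L s ^ (-(1 + b) - 1))) • u) := by
    have := ((Sy.rpow (2 * α)).mul ((Sy.sdiv.const_mul (-(1 + b))).mul
      (Sy.rpow (-(1 + b) - 1)))).smul (Sy.const u)
    exact this.mono (by linarith)
  have h2 : Sy (-β) (fun L s => (α * (s / J L s) * J L s ^ (2 * α - 1)) •
      (e + J L s ^ (-(1 + b)) • u + D.X1 L s)) := by
    have := ((Sy.sdiv.const_mul α).mul (Sy.rpow (2 * α - 1))).smul (sy_X' (e := e) (u := u) hb hα D.s1)
    exact this.mono (by linarith)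
  have h3 := ((h1.add h2).clm (Mop : E →L[ℝ] (E →L[ℝ] ℝ))).add D.hres
  refine h3.congr' fun L s => ?_
  simp only [Wres, ContinuousLinearEquiv.coe_coe, smul_add, smul_smul, map_add, map_smul]
  abel

/-- full covector on space-time -/
noncomputable def Acov (α b : ℝ) (e u : E) (W : ℝ → ℝ → (E →L[ℝ] ℝ)) (X1 : ℝ → ℝ → E) (L s : ℝ) :
    E × ℝ →L[ℝ] ℝ :=
  (W L s).comp (ContinuousLinearMap.fst ℝ E ℝ)
    + (-(J L s ^ α * W L s (e + J L s ^ (-(1 + b)) • u + X1 L s))) • ContinuousLinearMap.snd ℝ E ℝ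

lemma sy_Acov (hα : 0 ≤ α) (hb : 0 ≤ b) {W : ℝ → ℝ → (E →L[ℝ] ℝ)} (hW : Sy (-β) W)
    {X1 : ℝ → ℝ → E} (h : Sy (-(2 * α)) X1) : Sy (-(β - α)) (Acov α b e u W X1) := by
  have h1 : Sy (-(β - α)) (fun L s => (W L s).comp (ContinuousLinearMap.fst ℝ E ℝ)) := by
    have := hW.clm (ContinuousLinearMap.compL ℝ (E × ℝ) E ℝ |>.flip (ContinuousLinearMap.fst ℝ E ℝ))
    exact this.mono (by linarith)
  have h2 : Sy (-(β - α)) (fun L s =>
      (-(J L s ^ α * W L s (e + J L s ^ (-(1 + b)) • u + X1 L s))) •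
        ContinuousLinearMap.snd ℝ E ℝ) := by
    have := (((Sy.rpow α).mul (hW.apply (sy_X' (e := e) (u := u) hb hα h))).neg).smul
      (Sy.const (ContinuousLinearMap.snd ℝ E ℝ))
    exact this.mono (by linarith)
  exact h1.add h2

/-- Abstract dynamical statement. -/
theorem dyn (τ : ι →+ E × ℝ) (hfin : ∀ R : ℝ, {M : ι | ‖τ M‖ ≤ R}.Finite) (k : ℕ)
    {h : E × ℝ → E × ℝ} (hh : Bdd h) (hh0 : ∀ ψ : E × ℝ, 1 < ‖ψ‖ → h ψ = 0) (h0 : h 0 = 0)
    (hd : HasFDerivAt h (ContinuousLinearMap.id ℝ (E × ℝ)) 0)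
    {ρ ν c : ℝ} (hα : 0 < α) (hα1 : α < 1) (hβ : β ≤ 1 - 2 * α) (hb : 0 < b) (hbρ : b < ρ)
    (hρα : ρ ≤ 2 * α) (hν : 0 ≤ ν) (hρ1 : ρ ≤ 1) (hνρ : ν * (1 + b - ρ) < ρ) (hc : 0 < c)
    (hk : ((k : ℝ) - 1) * ρ < β - α)
    (he0 : e ≠ 0) {ell : E →L[ℝ] ℝ} (hell : ‖ell‖ ≤ 1) (helle : ell e = 1)
    {q : E →L[ℝ] ℝ} (hqe : q e = 0) (hqu : q u = 1)
    (hqint : ∀ M, ∃ z : ℤ, q (τ M).1 = z)
    (hdio : ∀ M, (τ M).1 ≠ 0 → q (τ M).1 = 0 → ∀ t : ℝ,
      c * ‖(τ M).1‖ ^ (-ν) ≤ ‖(τ M).1 - t • e‖)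
    (htime : ∀ M, (τ M).1 = 0 → M ≠ 0 → 1 ≤ |(τ M).2|)
    (D : PathData α b β e u Mop g) {ε : ℝ} (hε : 0 < ε) :
    ∃ G : E × ℝ → ℝ, ContDiff ℝ k G ∧ (∀ p M, G (p + τ M) = G p) ∧
      (∀ n ≤ k, ∀ p, ‖iteratedFDeriv ℝ n G p‖ ≤ ε) ∧
      ∃ x x' x'' : ℝ → E, (∀ t, HasDerivAt x (x' t) t) ∧ (∀ t, HasDerivAt x' (x'' t) t) ∧
        (∀ t, Mop (x'' t) = g (x t, t) + Dx G (x t, t)) ∧
        Tendsto (fun t => ‖x' t‖) atTop atTop ∧ Tendsto (fun t => ‖x' t‖) atBot atTop := by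
  -- the projected coordinate
  set Pi : ℝ → ℝ → ℝ := fun L s => ell (Yc α b e u D.X0 L s).1 with hPi
  set Pi' : ℝ → ℝ → ℝ := fun L s => ell (e + J L s ^ (-(1 + b)) • u + D.X1 L s) with hPi'
  have hsyPi' : Sy 0 Pi' := (sy_X' hb.le hα.le D.s1).clm ell
  have hYd : ∀ᶠ L in atTop, ∀ s, HasDerivAt (Yc α b e u D.X0 L)
      (e + J L s ^ (-(1 + b)) • u + D.X1 L s, J L s ^ (-α)) s := by
    filter_upwards [D.d0, eventually_gt_atTop (0 : ℝ)] with L h1 hL s
    have h2 := (hasDerivAt_c0 α b e u hL s)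
    have h3 : HasDerivAt (fun s => (D.X0 L s, (0 : ℝ))) (D.X1 L s, 0) s :=
      (h1 s).prodMk (hasDerivAt_const s (0:ℝ))
    have h4 := h2.add h3
    have h5 : (c0' α b e u L s + (D.X1 L s, (0:ℝ)))
        = (e + J L s ^ (-(1 + b)) • u + D.X1 L s, J L s ^ (-α)) := by simp [c0']
    rw [h5] at h4
    refine h4.congr_of_eventuallyEq (Eventually.of_forall fun y => ?_)
    simp [Yc, c0]
  have hPid : ∀ᶠ L in atTop, ∀ s, HasDerivAt (Pi L) (Pi' L s) s := by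
    filter_upwards [hYd] with L h1 s
    exact (lhat ell).hasFDerivAt.comp_hasDerivAt s (h1 s)
  -- Pi' is close to one
  have hsmall : ∀ᶠ L in atTop, ∀ s, |Pi' L s - 1| < 1 / 2 := by
    have h1 : Bd (-(2 * α)) (fun L s => ell (D.X1 L s)) := (D.s1.clm ell).bd
    have h2 : Bd (-(1 + b)) (fun L s => J L s ^ (-(1 + b)) • ell u) :=
      (((Sy.rpow (-(1 + b))).smul (Sy.const (ell u))).mono (b := -(1 + b)) (by linarith)).bd
    filter_upwards [h1.small (by linarith) (show (0:ℝ) < 1 / 4 by norm_num),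
      h2.small (by linarith) (show (0:ℝ) < 1 / 4 by norm_num)] with L h3 h4 s
    have h5 : Pi' L s - 1 = J L s ^ (-(1 + b)) • ell u + ell (D.X1 L s) := by
      simp only [hPi', map_add, map_smul, helle]; ring
    rw [h5]
    have h6 := h3 s
    have h7 := h4 s
    rw [Real.norm_eq_abs] at h6 h7
    calc _ ≤ |J L s ^ (-(1 + b)) • ell u| + |ell (D.X1 L s)| := abs_add_le _ _
      _ < 1 / 2 := by linarith
  -- Pi - id is bounded
  obtain ⟨CΦ, hCΦ⟩ : ∃ C : ℝ, ∀ᶠ L in atTop, ∀ s, |Pi L s - s| ≤ C := by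
    have h1 : Bd (-(2 * α)) (fun L s => ell (D.X0 L s)) := (D.s0.clm ell).bd
    refine ⟨2 ^ (1 + b) / b * |ell u| + 1, ?_⟩
    filter_upwards [h1.small (by linarith) (show (0:ℝ) < 1 by norm_num),
      eventually_ge_atTop (1 : ℝ)] with L h2 hL s
    have h3 : Pi L s - s = prim (-(1 + b)) L s * ell u + ell (D.X0 L s) := by
      simp only [hPi, Yc, map_add, map_smul, helle, smul_eq_mul]; ring
    have h4 := prim_bounded hb (show 0 < L by linarith) s
    have h5 : L ^ (-b) ≤ 1 := Real.rpow_le_one_of_one_le_of_nonpos hL (by linarith)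
    have h6 := h2 s
    rw [Real.norm_eq_abs] at h6
    have h8 : 2 ^ (1 + b) / b * L ^ (-b) ≤ 2 ^ (1 + b) / b * 1 := by gcongr
    rw [h3]
    calc _ ≤ |prim (-(1 + b)) L s * ell u| + |ell (D.X0 L s)| := abs_add_le _ _
      _ ≤ 2 ^ (1 + b) / b * |ell u| + 1 := by
          rw [abs_mul]
          have h7 : |prim (-(1 + b)) L s| * |ell u| ≤ 2 ^ (1 + b) / b * |ell u| := by
            gcongr; linarith
          linarith
  -- the inverse
  have hinv : ∀ᶠ L in atTop, ∃ ψ : ℝ → ℝ, (∀ t, Pi L (ψ t) = t) ∧ (∀ s, ψ (Pi L s) = s) ∧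
      ∀ t, HasDerivAt ψ (Pi' L (ψ t))⁻¹ t := by
    filter_upwards [hPid, hsmall, hCΦ] with L h1 h2 h3
    apply exists_inverse h1
    · intro s
      have := abs_lt.mp (h2 s)
      linarith
    · refine tendsto_atTop_mono (f := fun s => s - CΦ) (fun s => ?_) ?_
      · have := abs_le.mp (h3 s); linarith
      · exact tendsto_atTop_add_const_right _ _ tendsto_id
    · refine tendsto_atBot_mono (f := fun s => s + CΦ) (fun s => ?_) ?_
      · have := abs_le.mp (h3 s); linarith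
      · exact tendsto_atBot_add_const_right _ _ tendsto_id
  obtain ⟨Φ, hΦ⟩ := hinv.choice
  have hΦb : ∀ᶠ L in atTop, ∀ s, |Φ L s - s| ≤ CΦ := by
    filter_upwards [hΦ, hCΦ] with L h1 h2 s
    have := h2 (Φ L s)
    rw [h1.1 s, abs_sub_comm] at this
    exact this
  set w : ℝ → ℝ → ℝ := fun L s => (Pi' L s)⁻¹ with hw
  have hwsy : Sy 0 w := hsyPi'.inv (c := 1 / 2) (by norm_num) (by
    filter_upwards [hsmall] with L h1 s
    have := abs_lt.mp (h1 s); linarith)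
  have hΦd : ∀ᶠ L in atTop, ∀ s, HasDerivAt (Φ L) (w L (Φ L s)) s := by
    filter_upwards [hΦ] with L h1 s
    exact h1.2.2 s
  -- curve data
  have hY'sy : Sy 0 (fun L s => (e + J L s ^ (-(1 + b)) • u + D.X1 L s, J L s ^ (-α))) :=
    (sy_X' hb.le hα.le D.s1).prodMk ((Sy.rpow (-α)).mono (by linarith))
  set Γ : ℝ → ℝ → E × ℝ := fun L s => Yc α b e u D.X0 L (Φ L s) with hΓdef
  set Γ' : ℝ → ℝ → E × ℝ := fun L s => w L (Φ L s) •
    ((e + J L (Φ L s) ^ (-(1 + b)) • u + D.X1 L (Φ L s), J L (Φ L s) ^ (-α)) : E × ℝ) with hΓ'def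
  have hΓ' : Sy 0 Γ' := by
    have h1 := (hwsy.smul hY'sy).mono (b := 0) (by norm_num)
    exact Sy.comp_inv hΦb hwsy hΦd h1
  have hΓ : ∀ᶠ L in atTop, ∀ s, HasDerivAt (Γ L) (Γ' L s) s := by
    filter_upwards [hYd, hΦd] with L h1 h2 s
    exact (h1 (Φ L s)).scomp s (h2 s)
  set W := Wres α b e u Mop g D.X0 D.X1 D.X2 with hWdef
  have hW : Sy (-β) W := sy_Wres hα.le hb.le hβ D
  have hA0 : Sy (-(β - α)) (Acov α b e u W D.X1) := sy_Acov hα.le hb.le hW D.s1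
  set A : ℝ → ℝ → (E × ℝ →L[ℝ] ℝ) := fun L s => Acov α b e u W D.X1 L (Φ L s) with hAdef
  have hA : Sy (-(β - α)) A := Sy.comp_inv hΦb hwsy hΦd hA0
  have hcurve : ∀ᶠ L in atTop, ∀ s, lhat ell (Γ L s) = s := by
    filter_upwards [hΦ] with L h1 s
    exact h1.1 s
  have horth : ∀ᶠ L in atTop, ∀ s, A L s (Γ' L s) = 0 := by
    filter_upwards [eventually_gt_atTop (0 : ℝ)] with L hL s
    have hJ : 0 < J L (Φ L s) := J_pos hL _
    have h1 : J L (Φ L s) ^ α * J L (Φ L s) ^ (-α) = 1 := by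
      rw [← Real.rpow_add hJ]; simp
    simp only [hAdef, hΓ'def, Acov]
    rw [map_smul]
    have h2 : ((W L (Φ L s)).comp (ContinuousLinearMap.fst ℝ E ℝ)
        + (-(J L (Φ L s) ^ α * W L (Φ L s) (e + J L (Φ L s) ^ (-(1 + b)) • u + D.X1 L (Φ L s))))
          • ContinuousLinearMap.snd ℝ E ℝ)
        ((e + J L (Φ L s) ^ (-(1 + b)) • u + D.X1 L (Φ L s), J L (Φ L s) ^ (-α)) : E × ℝ)
        = W L (Φ L s) (e + J L (Φ L s) ^ (-(1 + b)) • u + D.X1 L (Φ L s))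
          - (J L (Φ L s) ^ α * J L (Φ L s) ^ (-α)) *
            W L (Φ L s) (e + J L (Φ L s) ^ (-(1 + b)) • u + D.X1 L (Φ L s)) := by
      change W L (Φ L s) (e + J L (Φ L s) ^ (-(1 + b)) • u + D.X1 L (Φ L s))
        + (-(J L (Φ L s) ^ α * W L (Φ L s) (e + J L (Φ L s) ^ (-(1 + b)) • u + D.X1 L (Φ L s))))
          * J L (Φ L s) ^ (-α) = _
      ring
    rw [h2, h1]
    simp
  have hdisj := tubes_disjoint τ hb hbρ hρα hν hρ1 hνρ hc hqe hqu hqint hdio htime D.s0.bd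
    (ell := ell) hΦb (Γ := Γ) (fun L s => rfl)
  have hmain := tube_sum τ hfin k hh hh0 h0 hd (show 0 ≤ ρ by linarith) hk (lhat_norm hell) hΓ hΓ'
    hA hcurve horth hdisj hε
  -- speed bound
  have hspeed : ∀ᶠ L in atTop, ∀ s, ‖e‖ / 2 ≤ ‖e + J L s ^ (-(1 + b)) • u + D.X1 L s‖ := by
    have he : 0 < ‖e‖ := norm_pos_iff.mpr he0
    have h2 : Bd (-(1 + b)) (fun L s => J L s ^ (-(1 + b)) • u) :=
      (((Sy.rpow (-(1 + b))).smul (Sy.const u)).mono (b := -(1 + b)) (by linarith)).bd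
    filter_upwards [D.s1.bd.small (by linarith) (show (0:ℝ) < ‖e‖ / 4 by linarith),
      h2.small (by linarith) (show (0:ℝ) < ‖e‖ / 4 by linarith)] with L h3 h4 s
    have h5 : ‖e‖ ≤ ‖e + J L s ^ (-(1 + b)) • u + D.X1 L s‖ + ‖J L s ^ (-(1 + b)) • u‖
        + ‖D.X1 L s‖ := by
      calc ‖e‖ = ‖(e + J L s ^ (-(1 + b)) • u + D.X1 L s) - J L s ^ (-(1 + b)) • u - D.X1 L s‖ := by
            congr 1; abel
        _ ≤ ‖(e + J L s ^ (-(1 + b)) • u + D.X1 L s) - J L s ^ (-(1 + b)) • u‖ + ‖D.X1 L s‖ :=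
            norm_sub_le _ _
        _ ≤ _ := by gcongr; exact norm_sub_le _ _
    linarith [h3 s, h4 s]
  obtain ⟨L, ⟨G, hG1, hG2, hG3, hG4⟩, hL1, hYdL, hΦL, hd1L, hspL⟩ :=
    (hmain.and ((eventually_ge_atTop (1 : ℝ)).and (hYd.and (hΦ.and (D.d1.and hspeed))))).exists
  have hL0 : 0 < L := by linarith
  obtain ⟨S, hS1, hS2, hS3⟩ := exists_inverse (φ := prim (-α) L) (φ' := fun s => J L s ^ (-α))
    (hasDerivAt_prim hL0 (-α)) (fun s => Real.rpow_pos_of_pos (J_pos hL0 s) _)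
    (tendsto_prim_atTop hL0 (by linarith) (by linarith))
    (tendsto_prim_atBot hL0 (by linarith) (by linarith))
  have hSd : ∀ t, HasDerivAt S (J L (S t) ^ α) t := by
    intro t
    have h1 := hS3 t
    have h2 : (J L (S t) ^ (-α))⁻¹ = J L (S t) ^ α := by
      rw [Real.rpow_neg (J_nonneg _ _), inv_inv]
    rw [h2] at h1
    exact h1
  have hSmono : StrictMono S := strictMono_of_deriv_pos fun t => by
    rw [(hSd t).deriv]; exact Real.rpow_pos_of_pos (J_pos hL0 _) _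
  have hStop : Tendsto S atTop atTop := by
    apply hSmono.monotone.tendsto_atTop_atTop
    intro y
    exact ⟨prim (-α) L y, by rw [hS2]⟩
  have hSbot : Tendsto S atBot atBot := by
    apply hSmono.monotone.tendsto_atBot_atBot
    intro y
    exact ⟨prim (-α) L y, by rw [hS2]⟩
  set XX : ℝ → E := fun s => (Yc α b e u D.X0 L s).1 with hXX
  set XX' : ℝ → E := fun s => e + J L s ^ (-(1 + b)) • u + D.X1 L s with hXX'
  set XX'' : ℝ → E := fun s => (-(1 + b) * (s / J L s) * J L s ^ (-(1 + b) - 1)) • u + D.X2 L s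
    with hXX''
  have hdX : ∀ s, HasDerivAt XX (XX' s) s := fun s =>
    (ContinuousLinearMap.fst ℝ E ℝ).hasFDerivAt.comp_hasDerivAt s (hYdL s)
  have hdX' : ∀ s, HasDerivAt XX' (XX'' s) s := fun s => by
    have h1 := ((hasDerivAt_J_rpow hL0 (-(1 + b)) s).smul_const u)
    have h2 := (h1.const_add e).add (hd1L s)
    exact h2
  refine ⟨G, hG1, hG2, hG3, fun t => XX (S t), fun t => J L (S t) ^ α • XX' (S t),
    fun t => J L (S t) ^ (2 * α) • XX'' (S t)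
      + (α * (S t / J L (S t)) * J L (S t) ^ (2 * α - 1)) • XX' (S t), ?_, ?_, ?_, ?_, ?_⟩
  · intro t
    exact (hdX (S t)).scomp t (hSd t)
  · intro t
    have hJ := J_pos hL0 (S t)
    have h1 : HasDerivAt (fun s => J L s ^ α • XX' s)
        (J L (S t) ^ α • XX'' (S t) + (α * (S t / J L (S t)) * J L (S t) ^ (α - 1)) • XX' (S t))
        (S t) := (hasDerivAt_J_rpow hL0 α (S t)).smul (hdX' (S t))
    have h2 := h1.scomp t (hSd t)
    refine h2.congr_deriv ?_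
    beta_reduce
    have h3 : J L (S t) ^ (2 * α) = J L (S t) ^ α * J L (S t) ^ α := by
      rw [← Real.rpow_add hJ]; ring_nf
    have h4 : J L (S t) ^ (2 * α - 1) = J L (S t) ^ α * J L (S t) ^ (α - 1) := by
      rw [← Real.rpow_add hJ]; ring_nf
    rw [h3, h4, smul_add, smul_smul, smul_smul]
    congr 2
    ring
  · intro t
    have h1 : Γ L (Pi L (S t)) = Yc α b e u D.X0 L (S t) := by
      simp only [hΓdef]; rw [hΦL.2.1]
    have h2 : Yc α b e u D.X0 L (S t) = (XX (S t), t) := by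
      have : (Yc α b e u D.X0 L (S t)).2 = t := hS1 t
      exact Prod.ext rfl this
    have h3 := hG4 (Pi L (S t))
    rw [h1, h2] at h3
    have h4 : A L (Pi L (S t)) = Acov α b e u W D.X1 L (S t) := by
      simp only [hAdef]; rw [hΦL.2.1]
    rw [h4] at h3
    have h5 : Dx G (XX (S t), t) = W L (S t) := by
      unfold Dx
      rw [h3.fderiv]
      ext v
      simp [Acov]
    rw [h5]
    simp only [hWdef, Wres]
    rw [h2]
    simp only [hXX', hXX'']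
    abel
  · have h1 : Tendsto (fun t => J L (S t) ^ α * (‖e‖ / 2)) atTop atTop := by
      have he : 0 < ‖e‖ / 2 := by have := norm_pos_iff.mpr he0; linarith
      refine Tendsto.atTop_mul_const he ?_
      refine (tendsto_rpow_atTop hα).comp ?_
      refine tendsto_atTop_mono (fun t => ?_) hStop
      exact (le_abs_self _).trans (abs_le_J L _)
    refine tendsto_atTop_mono (fun t => ?_) h1
    rw [norm_smul, Real.norm_of_nonneg (Real.rpow_nonneg (J_nonneg _ _) _)]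
    have := hspL (S t)
    have h0' : 0 ≤ J L (S t) ^ α := Real.rpow_nonneg (J_nonneg _ _) _
    gcongr
  · have h1 : Tendsto (fun t => J L (S t) ^ α * (‖e‖ / 2)) atBot atTop := by
      have he : 0 < ‖e‖ / 2 := by have := norm_pos_iff.mpr he0; linarith
      refine Tendsto.atTop_mul_const he ?_
      refine (tendsto_rpow_atTop hα).comp ?_
      have h2 : Tendsto (fun t => -S t) atBot atTop := tendsto_neg_atBot_atTop.comp hSbot
      refine tendsto_atTop_mono (fun t => ?_) h2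
      exact (neg_le_abs _).trans (abs_le_J L _)
    refine tendsto_atTop_mono (fun t => ?_) h1
    rw [norm_smul, Real.norm_of_nonneg (Real.rpow_nonneg (J_nonneg _ _) _)]
    have := hspL (S t)
    have h0' : 0 ≤ J L (S t) ^ α := Real.rpow_nonneg (J_nonneg _ _) _
    gcongr

end EscapeTorus
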