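import Pool.Agent.EscapeTorus.Smooth

/-! `C^k`-density of trigonometric polynomials on the torus. -/

set_option linter.unusedSectionVars false

namespace EscapeTorus

open Filter Topology MeasureTheory
open scoped ContDiff Convolution

/-- space-time `ℝⁿ × ℝ` -/
abbrev PP (n : ℕ) : Type := EuclideanSpace ℝ (Fin n) × ℝ

/-- the integer lattice -/
noncomputable def tau (n : ℕ) : ((Fin n → ℤ) × ℤ) →+ PP n where
  toFun M := (WithLp.toLp 2 (fun i => (M.1 i : ℝ)), (M.2 : ℝ))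
  map_zero' := by
    ext
    · simp
    · simp
  map_add' M N := by
    ext
    · simp
    · simp

lemma tau_fst (n : ℕ) (M : (Fin n → ℤ) × ℤ) (i : Fin n) : (tau n M).1 i = M.1 i := rfl

lemma tau_snd (n : ℕ) (M : (Fin n → ℤ) × ℤ) : (tau n M).2 = M.2 := rfl

lemma tau_finite (n : ℕ) (R : ℝ) : {M : (Fin n → ℤ) × ℤ | ‖tau n M‖ ≤ R}.Finite := by
  have h1 : {M : (Fin n → ℤ) × ℤ | ‖tau n M‖ ≤ R} ⊆
      (Set.pi Set.univ (fun _ : Fin n => Set.Icc (-⌈R⌉) ⌈R⌉)) ×ˢ (Set.Icc (-⌈R⌉) ⌈R⌉) := by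
    intro M hM
    have hM' : ‖tau n M‖ ≤ R := hM
    have key : ∀ z : ℤ, |(z : ℝ)| ≤ R → z ∈ Set.Icc (-⌈R⌉) ⌈R⌉ := by
      intro z hz
      have h2 := abs_le.mp hz
      have h3 : (z : ℝ) ≤ (⌈R⌉ : ℝ) := h2.2.trans (Int.le_ceil R)
      have h4 : (-⌈R⌉ : ℝ) ≤ (z : ℝ) := by linarith [Int.le_ceil R]
      exact ⟨by exact_mod_cast h4, by exact_mod_cast h3⟩
    constructor
    · intro i _
      apply key
      rw [← tau_fst]
      exact (PiLp.norm_apply_le (tau n M).1 i).trans ((norm_fst_le _).trans hM')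
    · apply key
      rw [← tau_snd n M]
      exact (norm_snd_le (tau n M)).trans hM'
  refine Set.Finite.subset ?_ h1
  exact (Set.Finite.pi' fun _ => Set.finite_Icc _ _).prod (Set.finite_Icc _ _) |>.subset (by
    intro x hx
    exact ⟨fun i => hx.1 i (Set.mem_univ _), hx.2⟩)

lemma tau_cocompact (n : ℕ) (p : PP n) : ∃ M, ‖p + tau n M‖ ≤ n + 1 := by
  refine ⟨(fun i => -⌊p.1 i⌋, -⌊p.2⌋), ?_⟩
  rw [Prod.norm_def]
  apply max_le
  · have h1 : ‖(p + tau n (fun i => -⌊p.1 i⌋, -⌊p.2⌋)).1‖ ≤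
        Real.sqrt n := by
      rw [EuclideanSpace.norm_eq]
      apply Real.sqrt_le_sqrt
      calc ∑ i, ‖(p + tau n (fun i => -⌊p.1 i⌋, -⌊p.2⌋)).1 i‖ ^ 2 ≤ ∑ i : Fin n, (1 : ℝ) := by
            apply Finset.sum_le_sum
            intro i _
            have h2 : (p + tau n (fun i => -⌊p.1 i⌋, -⌊p.2⌋)).1 i = Int.fract (p.1 i) := by
              change p.1 i + (tau n (fun i => -⌊p.1 i⌋, -⌊p.2⌋)).1 i = _
              rw [tau_fst, Int.fract]; push_cast; ring
            rw [h2, Real.norm_eq_abs, sq_abs]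
            have := Int.fract_nonneg (p.1 i)
            have := (Int.fract_lt_one (p.1 i)).le
            nlinarith
        _ = n := by simp
    have h3 : Real.sqrt n ≤ n + 1 := by
      rw [Real.sqrt_le_left (by positivity)]
      have : (0:ℝ) ≤ n := by positivity
      nlinarith
    exact h1.trans h3
  · have h2 : (p + tau n (fun i => -⌊p.1 i⌋, -⌊p.2⌋)).2 = Int.fract p.2 := by
      change p.2 + (tau n (fun i => -⌊p.1 i⌋, -⌊p.2⌋)).2 = _
      rw [tau_snd, Int.fract]; push_cast; ring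
    rw [h2, Real.norm_eq_abs, abs_of_nonneg (Int.fract_nonneg _)]
    have := (Int.fract_lt_one p.2).le
    have : (0:ℝ) ≤ n := by positivity
    linarith

section per

variable {n : ℕ} {Y : Type} [NormedAddCommGroup Y]

lemma per_bdd {F : PP n → Y} (hF : Continuous F) (hper : ∀ p M, F (p + tau n M) = F p) :
    ∃ B : ℝ, ∀ x, ‖F x‖ ≤ B := by
  obtain ⟨B, hB⟩ := (isCompact_closedBall (0 : PP n) (n + 1)).exists_bound_of_continuousOn
    hF.continuousOn
  refine ⟨B, fun x => ?_⟩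
  obtain ⟨M, hM⟩ := tau_cocompact n x
  rw [← hper x M]
  exact hB _ (by simpa using hM)

lemma per_unif {F : PP n → Y} (hF : Continuous F) (hper : ∀ p M, F (p + tau n M) = F p)
    {ε : ℝ} (hε : 0 < ε) : ∃ δ > 0, ∀ x y, ‖y‖ ≤ δ → ‖F (x - y) - F x‖ ≤ ε := by
  have h1 := (isCompact_closedBall (0 : PP n) (n + 2)).uniformContinuousOn_of_continuous
    hF.continuousOn
  rw [Metric.uniformContinuousOn_iff] at h1
  obtain ⟨δ, hδ, h2⟩ := h1 ε hε
  refine ⟨min (δ / 2) 1, by positivity, fun x y hy => ?_⟩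
  obtain ⟨M, hM⟩ := tau_cocompact n x
  have hy1 : ‖y‖ ≤ δ / 2 := hy.trans (min_le_left _ _)
  have hy2 : ‖y‖ ≤ 1 := hy.trans (min_le_right _ _)
  have h3 : F (x - y) = F (x + tau n M - y) := by
    rw [← hper (x - y) M]; congr 1; abel
  rw [h3, ← hper x M, ← dist_eq_norm]
  apply (h2 _ _ _ _ _).le
  · simp only [Metric.mem_closedBall, dist_zero_right]
    calc ‖x + tau n M - y‖ ≤ ‖x + tau n M‖ + ‖y‖ := norm_sub_le _ _
      _ ≤ n + 2 := by linarith
  · simp only [Metric.mem_closedBall, dist_zero_right]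
    linarith
  · rw [dist_eq_norm]
    have : x + tau n M - y - (x + tau n M) = -y := by abel
    rw [this, norm_neg]
    linarith

lemma per_iter [NormedSpace ℝ Y] {F : PP n → Y} (hper : ∀ p M, F (p + tau n M) = F p) (j : ℕ) :
    ∀ p M, iteratedFDeriv ℝ j F (p + tau n M) = iteratedFDeriv ℝ j F p := by
  intro p M
  have h1 : (fun z => F (z + tau n M)) = F := funext fun z => hper z M
  rw [← iteratedFDeriv_comp_add_right, h1]

end per

/-- the frequency functional `2π(m·x + l t)` -/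
noncomputable def Om (n : ℕ) (M : (Fin n → ℤ) × ℤ) : PP n →L[ℝ] ℝ :=
  (2 * Real.pi) • ((∑ i, (M.1 i : ℝ) • (EuclideanSpace.proj i : EuclideanSpace ℝ (Fin n) →L[ℝ] ℝ)).comp
    (ContinuousLinearMap.fst ℝ _ ℝ) + (M.2 : ℝ) • ContinuousLinearMap.snd ℝ _ ℝ)

lemma Om_apply (n : ℕ) (M : (Fin n → ℤ) × ℤ) (p : PP n) :
    Om n M p = 2 * Real.pi * (∑ i, M.1 i * p.1 i + M.2 * p.2) := by
  simp [Om]
  ring

/-- Uniform density. -/
lemma trig_dense {n : ℕ} {f : PP n → ℝ} (hf : Continuous f)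
    (hper : ∀ p M, f (p + tau n M) = f p) {ε : ℝ} (hε : 0 < ε) :
    ∃ (S : Finset ((Fin n → ℤ) × ℤ)) (c : ((Fin n → ℤ) × ℤ) → ℂ),
      ∀ p, |f p - ∑ M ∈ S, tt (c M) (Om n M) p| ≤ ε := by
  classical
  let toP : (Option (Fin n) → ℝ) → PP n := fun y => (WithLp.toLp 2 (fun i => y (some i)), y none)
  have htoP : Continuous toP := by
    refine Continuous.prodMk ?_ (continuous_apply _)
    exact (PiLp.continuous_toLp 2 _).comp (continuous_pi fun i => continuous_apply _)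
  obtain ⟨S, c, hS⟩ := trig_dense_pi (d := Option (Fin n)) (fun y => f (toP y)) (hf.comp htoP)
    (fun y m => by
      rw [← hper (toP y) (fun i => m (some i), m none)]
      congr 1) hε
  let e : (Option (Fin n) → ℤ) ≃ ((Fin n → ℤ) × ℤ) :=
    { toFun := fun m => (fun i => m (some i), m none)
      invFun := fun M o => match o with
        | none => M.2
        | some i => M.1 i
      left_inv := fun m => by ext o; cases o <;> rfl
      right_inv := fun M => rfl }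
  refine ⟨S.map e.toEmbedding, fun M => c (e.symm M), fun p => ?_⟩
  let y : Option (Fin n) → ℝ := fun o => match o with
    | none => p.2
    | some i => p.1 i
  have h1 := hS y
  have h2 : toP y = p := by
    simp only [toP, y]
  rw [h2] at h1
  have h3 : ∑ M ∈ S.map e.toEmbedding, tt (c (e.symm M)) (Om n M) p
      = (∑ m ∈ S, c m * Complex.exp (Complex.I * ((2 * Real.pi * ∑ o, m o * y o : ℝ)))).re := by
    rw [Finset.sum_map, Complex.re_sum]
    apply Finset.sum_congr rfl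
    intro m _
    simp only [tt, Equiv.coe_toEmbedding, Equiv.symm_apply_apply, Om_apply]
    rw [Fintype.sum_option]
    simp only [e, Equiv.coe_fn_mk, y]
    rw [add_comm]
  have h4 : f p - ∑ M ∈ S.map e.toEmbedding, tt (c (e.symm M)) (Om n M) p
      = ((f p : ℂ) - ∑ m ∈ S, c m * Complex.exp (Complex.I * ((2 * Real.pi *
        ∑ o, m o * y o : ℝ)))).re := by
    rw [h3, Complex.sub_re, Complex.ofReal_re]
  rw [h4]
  exact (Complex.abs_re_le_norm _).trans h1

section smoothtrig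

variable {P : Type} [NormedAddCommGroup P] [NormedSpace ℝ P]

lemma tt_continuous (c : ℂ) (Ω : P →L[ℝ] ℝ) : Continuous (tt c Ω) := by
  unfold tt
  apply Complex.continuous_re.comp
  fun_prop

lemma tt_bound (c : ℂ) (Ω : P →L[ℝ] ℝ) (p : P) : |tt c Ω p| ≤ ‖c‖ := by
  unfold tt
  refine (Complex.abs_re_le_norm _).trans ?_
  rw [norm_mul, mul_comm Complex.I, Complex.norm_exp_ofReal_mul_I, mul_one]

lemma tt_hasFDerivAt (c : ℂ) (Ω : P →L[ℝ] ℝ) (p : P) :
    HasFDerivAt (tt c Ω) (tt (Complex.I * c) Ω p • Ω) p := by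
  have h1 : HasDerivAt (fun s : ℝ => (c * Complex.exp (Complex.I * (s : ℝ))))
      (c * (Complex.exp (Complex.I * (Ω p : ℝ)) * (Complex.I * 1))) (Ω p) := by
    have h2 : HasDerivAt (fun s : ℝ => (s : ℂ)) 1 (Ω p) := Complex.ofRealCLM.hasDerivAt
    exact ((h2.const_mul Complex.I).cexp).const_mul c
  have h3 := Complex.reCLM.hasFDerivAt.comp_hasDerivAt (Ω p) h1
  have h4 := h3.comp_hasFDerivAt p Ω.hasFDerivAt
  refine HasFDerivAt.congr_fderiv (f := tt c Ω) h4 ?_
  ext v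
  simp only [tt, smul_apply, smul_eq_mul, Complex.reCLM_apply]
  congr 2
  ring

variable [FiniteDimensional ℝ P] [MeasurableSpace P] [BorelSpace P] (μ : Measure P)
  [μ.IsAddHaarMeasure] (φ : ContDiffBump (0 : P))

lemma Sm_tt (c : ℂ) (Ω : P →L[ℝ] ℝ) :
    ∃ d : ℂ, Sm μ φ (tt c Ω) = tt d Ω := by
  refine ⟨c * ∫ y, (φ.normed μ y : ℂ) * Complex.exp (-(Complex.I * (Ω y : ℝ))) ∂μ, ?_⟩
  ext1 x
  have hint : Integrable (fun y => (φ.normed μ y : ℂ) * Complex.exp (-(Complex.I * (Ω y : ℝ)))) μ := by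
    apply Continuous.integrable_of_hasCompactSupport
    · have h1 : Continuous (φ.normed μ) := (φ.contDiff_normed (n := 0)).continuous
      fun_prop
    · have h1 : HasCompactSupport (fun y => (φ.normed μ y : ℂ)) :=
        (φ.hasCompactSupport_normed).comp_left (g := fun r : ℝ => (r : ℂ)) (by simp)
      exact h1.mul_right
  have h2 : c * (∫ y, (φ.normed μ y : ℂ) * Complex.exp (-(Complex.I * (Ω y : ℝ))) ∂μ)
      * Complex.exp (Complex.I * (Ω x : ℝ))
      = ∫ y, (c * Complex.exp (Complex.I * (Ω x : ℝ))) * ((φ.normed μ y : ℂ) *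
        Complex.exp (-(Complex.I * (Ω y : ℝ)))) ∂μ := by
    rw [integral_const_mul]; ring
  change Sm μ φ (tt c Ω) x = (c * (∫ y, (φ.normed μ y : ℂ) *
    Complex.exp (-(Complex.I * (Ω y : ℝ))) ∂μ) * Complex.exp (Complex.I * (Ω x : ℝ))).re
  rw [h2]
  have h3 := integral_re (hint.const_mul (c * Complex.exp (Complex.I * (Ω x : ℝ))))
  simp only [RCLike.re_eq_complex_re] at h3
  rw [← h3]
  unfold Sm
  apply integral_congr_ae
  filter_upwards with y
  simp only [tt, smul_eq_mul]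
  rw [← Complex.re_ofReal_mul]
  congr 1
  rw [map_sub]
  push_cast
  rw [mul_sub, sub_eq_add_neg, Complex.exp_add]
  ring

lemma Sm_sum {ι : Type} (S : Finset ι) (F : ι → P → ℝ) (hF : ∀ i, Continuous (F i)) (x : P) :
    Sm μ φ (fun x => ∑ i ∈ S, F i x) x = ∑ i ∈ S, Sm μ φ (F i) x := by
  unfold Sm
  simp only [Finset.smul_sum]
  exact integral_finsetSum S (fun i _ => Sm_integrable μ φ (hF i) x)

lemma Sm_sub {f g : P → ℝ} (hf : Continuous f) (hg : Continuous g) (x : P) :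
    Sm μ φ (fun x => f x - g x) x = Sm μ φ f x - Sm μ φ g x := by
  unfold Sm
  simp only [smul_sub]
  exact integral_sub (Sm_integrable μ φ hf x) (Sm_integrable μ φ hg x)

end smoothtrig

/-- `C^k`-density of trigonometric polynomials. -/
theorem trig_dense_Ck {n k : ℕ} {f : PP n → ℝ} (hf : ContDiff ℝ k f)
    (hper : ∀ p M, f (p + tau n M) = f p) {ε : ℝ} (hε : 0 < ε) :
    ∃ (S : Finset ((Fin n → ℤ) × ℤ)) (c : ((Fin n → ℤ) × ℤ) → ℂ),
      ∀ j ≤ k, ∀ p, ‖iteratedFDeriv ℝ j (fun p => ∑ M ∈ S, tt (c M) (Om n M) p - f p) p‖ ≤ ε := by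
  classical
  -- scale
  have h1 : ∀ j ≤ k, ∃ δ > 0, ∀ x y, ‖y‖ ≤ δ →
      ‖iteratedFDeriv ℝ j f (x - y) - iteratedFDeriv ℝ j f x‖ ≤ ε / 2 := fun j hj =>
    per_unif (hf.continuous_iteratedFDeriv (by exact_mod_cast hj)) (per_iter hper j) (by linarith)
  have h2 : ∃ δ > 0, ∀ j ≤ k, ∀ x y, ‖y‖ ≤ δ →
      ‖iteratedFDeriv ℝ j f (x - y) - iteratedFDeriv ℝ j f x‖ ≤ ε / 2 := by
    clear hf
    induction k with
    | zero =>
      obtain ⟨δ, hδ, h⟩ := h1 0 le_rfl
      exact ⟨δ, hδ, fun j hj => by obtain rfl : j = 0 := by omega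
                                   exact h⟩
    | succ k ih =>
      obtain ⟨δ, hδ, h⟩ := ih (fun j hj => h1 j (by omega))
      obtain ⟨δ', hδ', h'⟩ := h1 (k + 1) le_rfl
      refine ⟨min δ δ', lt_min hδ hδ', fun j hj x y hy => ?_⟩
      rcases Nat.lt_or_ge j (k + 1) with hjk | hjk
      · exact h j (by omega) x y (hy.trans (min_le_left _ _))
      · obtain rfl : j = k + 1 := by omega
        exact h' x y (hy.trans (min_le_right _ _))
  obtain ⟨δ, hδ, h3⟩ := h2
  let φ : ContDiffBump (0 : PP n) := ⟨δ / 2, δ, by linarith, by linarith⟩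
  let μ : Measure (PP n) := Measure.addHaar
  -- constants
  have hφc : HasCompactSupport (φ.normed μ) := φ.hasCompactSupport_normed
  have hφs : ContDiff ℝ ∞ (φ.normed μ) := φ.contDiff_normed
  have h4 : ∃ C : ℝ, 0 ≤ C ∧ ∀ j ≤ k, ∀ h : PP n → ℝ, Continuous h → ∀ B, (∀ x, |h x| ≤ B) → ∀ x,
      ‖iteratedFDeriv ℝ j (Sm μ φ h) x‖ ≤ C * B := by
    choose C hC0 hC using fun j => conv_deriv_bound μ j
      ((ContinuousLinearMap.lsmul ℝ ℝ : ℝ →L[ℝ] ℝ →L[ℝ] ℝ).flip) (φ.normed μ) hφc hφs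
    refine ⟨∑ j ∈ Finset.range (k + 1), C j, Finset.sum_nonneg fun j _ => hC0 j,
      fun j hj h hh B hB x => ?_⟩
    have hB0 : 0 ≤ B := (abs_nonneg _).trans (hB 0)
    have h5 := hC j h hh B hB x
    rw [convolution_flip, ← Sm_eq_conv] at h5
    refine h5.trans ?_
    gcongr
    exact Finset.single_le_sum (f := C) (fun j _ => hC0 j) (Finset.mem_range.mpr (by omega))
  obtain ⟨C, hC0, hC⟩ := h4
  obtain ⟨S, c, hS⟩ := trig_dense hf.continuous hper (show 0 < ε / (2 * (C + 1)) by positivity)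
  choose d hd using fun M => Sm_tt μ φ (c M) (Om n M)
  refine ⟨S, d, fun j hj p => ?_⟩
  set T : PP n → ℝ := fun p => ∑ M ∈ S, tt (c M) (Om n M) p with hT
  have hTc : Continuous T := by
    apply continuous_finsetSum
    intro M _
    exact tt_continuous _ _
  have hSmT : (fun p => ∑ M ∈ S, tt (d M) (Om n M) p) = Sm μ φ T := by
    ext1 p
    rw [hT, Sm_sum μ φ S _ (fun M => tt_continuous _ _)]
    apply Finset.sum_congr rfl
    intro M _
    rw [hd]
  have hb : ∀ j ≤ k, ∃ B : ℝ, ∀ x, ‖iteratedFDeriv ℝ j f x‖ ≤ B := fun j hj =>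
    per_bdd (hf.continuous_iteratedFDeriv (by exact_mod_cast hj)) (per_iter hper j)
  obtain ⟨hSf1, hSf2⟩ := iter_Sm μ φ hf hb
  have hTf : ContDiff ℝ ∞ (Sm μ φ (fun p => T p - f p)) := by
    rw [Sm_eq_conv]
    exact hφc.contDiff_convolution_left _ hφs (hTc.sub hf.continuous).locallyIntegrable
  have hsplit : (fun p => ∑ M ∈ S, tt (d M) (Om n M) p - f p)
      = fun p => Sm μ φ (fun p => T p - f p) p + (Sm μ φ f p - f p) := by
    ext1 p
    have h0 : ∑ M ∈ S, tt (d M) (Om n M) p = Sm μ φ T p := congrFun hSmT p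
    rw [h0, Sm_sub μ φ hTc hf.continuous]
    ring
  rw [hsplit]
  have hjk : (j : WithTop ℕ∞) ≤ (k : WithTop ℕ∞) := by exact_mod_cast hj
  have hadd : iteratedFDeriv ℝ j (fun p => Sm μ φ (fun p => T p - f p) p + (Sm μ φ f p - f p)) p
      = iteratedFDeriv ℝ j (Sm μ φ (fun p => T p - f p)) p
        + (iteratedFDeriv ℝ j (Sm μ φ f) p - iteratedFDeriv ℝ j f p) := by
    have h6 := iteratedFDeriv_add_apply (𝕜 := ℝ) (i := j) (x := p)
      (f := Sm μ φ (fun p => T p - f p)) (g := fun p => Sm μ φ f p - f p)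
      (hTf.of_le (by exact_mod_cast le_top)).contDiffAt
      ((hSf1.sub hf).of_le hjk).contDiffAt
    have h7 := iteratedFDeriv_sub_apply (𝕜 := ℝ) (i := j) (x := p)
      (f := Sm μ φ f) (g := f) (hSf1.of_le hjk).contDiffAt (hf.of_le hjk).contDiffAt
    have h8 : iteratedFDeriv ℝ j (fun p => Sm μ φ f p - f p) p
        = iteratedFDeriv ℝ j (Sm μ φ f) p - iteratedFDeriv ℝ j f p := h7
    rw [← h8]
    exact h6
  rw [hadd]
  have h9 : ‖iteratedFDeriv ℝ j (Sm μ φ (fun p => T p - f p)) p‖ ≤ ε / 2 := by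
    have h10 := hC j hj (fun p => T p - f p) (hTc.sub hf.continuous) (ε / (2 * (C + 1)))
      (fun x => by rw [abs_sub_comm]; exact hS x) p
    refine h10.trans ?_
    rw [mul_div_assoc', div_le_div_iff₀ (by positivity) (by norm_num)]
    nlinarith
  have h11 : ‖iteratedFDeriv ℝ j (Sm μ φ f) p - iteratedFDeriv ℝ j f p‖ ≤ ε / 2 := by
    rw [hSf2 j hj]
    apply Sm_close μ φ (hf.continuous_iteratedFDeriv (by exact_mod_cast hj))
    intro y hy
    exact h3 j hj p y hy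
  calc _ ≤ ‖iteratedFDeriv ℝ j (Sm μ φ (fun p => T p - f p)) p‖
        + ‖iteratedFDeriv ℝ j (Sm μ φ f) p - iteratedFDeriv ℝ j f p‖ := norm_add_le _ _
    _ ≤ ε := by linarith

end EscapeTorus
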