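import Mathlib

/-! A badly approximable direction. -/

set_option linter.unusedSectionVars false

namespace EscapeTorus

open Finset

section irred

open Polynomial

lemma irreducible_X_pow_sub_two {d : ℕ} (hd : 1 ≤ d) :
    Irreducible (X ^ d - C (2 : ℚ) : ℚ[X]) := by
  have hmonic : (X ^ d - C (2 : ℤ) : ℤ[X]).Monic := monic_X_pow_sub_C _ (by omega)
  have hdeg : (X ^ d - C (2 : ℤ) : ℤ[X]).degree = d := degree_X_pow_sub_C (by omega) _
  have h1 : Irreducible (X ^ d - C (2 : ℤ) : ℤ[X]) := by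
    have hP : (Ideal.span {(2 : ℤ)}).IsPrime := by
      rw [Ideal.span_singleton_prime (by norm_num)]
      exact Int.prime_two
    apply irreducible_of_eisenstein_criterion hP
    · rw [hmonic.leadingCoeff]
      intro h
      exact hP.ne_top ((Ideal.eq_top_iff_one _).mpr h)
    · intro n hn
      rw [hdeg] at hn
      have hn' : n < d := by exact_mod_cast hn
      rw [coeff_sub, coeff_X_pow, if_neg (by omega), coeff_C, zero_sub]
      split_ifs
      · exact (Ideal.neg_mem_iff _).mpr (Ideal.mem_span_singleton_self 2)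
      · simp
    · rw [hdeg]; exact_mod_cast hd
    · rw [coeff_sub, coeff_X_pow, if_neg (by omega), coeff_C_zero, zero_sub]
      intro h
      rw [Ideal.neg_mem_iff, Ideal.span_singleton_pow, Ideal.mem_span_singleton] at h
      norm_num at h
    · exact hmonic.isPrimitive
  have h2 := (Monic.irreducible_iff_irreducible_map_fraction_map (K := ℚ) hmonic).mp h1
  have h3 : Polynomial.map (algebraMap ℤ ℚ) (X ^ d - C (2 : ℤ)) = X ^ d - C (2 : ℚ) := by
    rw [Polynomial.map_sub, Polynomial.map_pow, Polynomial.map_X, Polynomial.map_C]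
    simp
  rwa [h3] at h2

/-- powers of the root are linearly independent -/
lemma pow_indep {d : ℕ} (hd : 1 ≤ d) {θ : ℝ} (hθ : θ ^ d = 2) (y : Fin d → ℤ) (hy : y ≠ 0) :
    ∑ j, (y j : ℝ) * θ ^ (j : ℕ) ≠ 0 := by
  intro h
  have hmonic : (X ^ d - C (2 : ℚ) : ℚ[X]).Monic := monic_X_pow_sub_C _ (by omega)
  have hroot : aeval θ (X ^ d - C (2 : ℚ) : ℚ[X]) = 0 := by
    simp [hθ]
  have hmin : X ^ d - C (2 : ℚ) = minpoly ℚ θ :=
    minpoly.eq_of_irreducible_of_monic (irreducible_X_pow_sub_two hd) hroot hmonic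
  let p : ℚ[X] := ∑ j : Fin d, C (y j : ℚ) * X ^ (j : ℕ)
  have hcoef : ∀ j : Fin d, p.coeff j = y j := by
    intro j
    simp only [p, finsetSum_coeff, coeff_C_mul, coeff_X_pow]
    rw [Finset.sum_eq_single j]
    · simp
    · intro i _ hij
      rw [if_neg, mul_zero]
      intro h'
      exact hij (Fin.ext h'.symm)
    · simp
  have hp0 : p ≠ 0 := by
    intro hp
    apply hy
    ext j
    have := hcoef j
    rw [hp, coeff_zero] at this
    exact_mod_cast this.symm
  have hpa : aeval θ p = 0 := by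
    simp only [p, map_sum, map_mul, map_pow, aeval_X, aeval_C]
    rw [← h]
    apply Finset.sum_congr rfl
    intro j _
    simp
  have hdeg := minpoly.degree_le_of_ne_zero ℚ θ hp0 hpa
  rw [← hmin, degree_X_pow_sub_C (by omega)] at hdeg
  have hlt : p.degree < d := by
    apply lt_of_le_of_lt (degree_sum_le _ _)
    rw [Finset.sup_lt_iff]
    · intro j _
      exact lt_of_le_of_lt (degree_C_mul_X_pow_le _ _) (by exact_mod_cast j.2)
    · exact_mod_cast WithBot.bot_lt_coe d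
  exact absurd hlt (not_lt.mpr hdeg)

end irred

section matrix

variable {R : Type} [CommRing R]

/-- multiplication matrix in `R[x]/(x^d - 2)` -/
def Mmat {d : ℕ} [NeZero d] (x : Fin d → R) : Matrix (Fin d) (Fin d) R :=
  fun i j => (if j ≤ i then 1 else 2) * x (i - j)

lemma eigen {d : ℕ} [NeZero d] {θ : ℝ} (hθ : θ ^ d = 2) (x : Fin d → ℝ) (j : Fin d) :
    ∑ i : Fin d, θ ^ (i : ℕ) * Mmat x i j = θ ^ (j : ℕ) * ∑ l, x l * θ ^ (l : ℕ) := by
  rw [Finset.mul_sum]
  rw [← Equiv.sum_comp (Equiv.addRight j)]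
  apply Finset.sum_congr rfl
  intro l _
  simp only [Equiv.coe_addRight, Mmat, add_sub_cancel_right]
  have hl := l.2
  have hj := j.2
  have hval : ((l + j : Fin d) : ℕ) = (l + j) % d := Fin.val_add l j
  by_cases h : (l : ℕ) + j < d
  · rw [Nat.mod_eq_of_lt h] at hval
    rw [if_pos (by rw [Fin.le_def, hval]; omega), hval, pow_add]
    ring
  · have h2 : ((l : ℕ) + j) % d = l + j - d := by
      rw [Nat.mod_eq_sub_mod (by omega), Nat.mod_eq_of_lt (by omega)]
    rw [h2] at hval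
    rw [if_neg (by rw [Fin.le_def, hval]; omega), hval]
    have h3 : θ ^ ((l : ℕ) + j - d) * 2 = θ ^ (l : ℕ) * θ ^ (j : ℕ) := by
      rw [← hθ, ← pow_add, ← pow_add]
      congr 1
      omega
    calc θ ^ ((l : ℕ) + j - d) * (2 * x l) = (θ ^ ((l : ℕ) + j - d) * 2) * x l := by ring
      _ = _ := by rw [h3]; ring

lemma det_ne_zero {d : ℕ} [NeZero d] {θ : ℝ} (hθ : θ ^ d = 2) (m : Fin d → ℤ) (hm : m ≠ 0) :
    (Mmat m).det ≠ 0 := by
  intro h
  obtain ⟨y, hy0, hy⟩ := Matrix.exists_mulVec_eq_zero_iff.mpr h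
  have hd : 1 ≤ d := Nat.one_le_iff_ne_zero.mpr (NeZero.ne d)
  have h1 := pow_indep hd hθ m hm
  have h2 := pow_indep hd hθ y hy0
  apply mul_ne_zero h2 h1
  have h3 : ∑ i : Fin d, θ ^ (i : ℕ) * ((Matrix.mulVec (Mmat m) y) i : ℝ) = 0 := by
    rw [hy]; simp
  have h6 : ∑ i : Fin d, θ ^ (i : ℕ) * ((Matrix.mulVec (Mmat m) y) i : ℝ)
      = ∑ j : Fin d, ∑ i : Fin d, θ ^ (i : ℕ) * (((Mmat m i j : ℤ) : ℝ) * (y j : ℝ)) := by
    rw [Finset.sum_comm]
    apply Finset.sum_congr rfl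
    intro i _
    simp only [Matrix.mulVec, dotProduct]
    push_cast
    rw [Finset.mul_sum]
  rw [← h3, h6, Finset.sum_mul]
  apply Finset.sum_congr rfl
  intro j _
  have h4 := eigen hθ (fun i => (m i : ℝ)) j
  have h5 : ∑ i : Fin d, θ ^ (i : ℕ) * (((Mmat m i j : ℤ) : ℝ) * (y j : ℝ))
      = (∑ i : Fin d, θ ^ (i : ℕ) * Mmat (fun i => (m i : ℝ)) i j) * y j := by
    rw [Finset.sum_mul]
    apply Finset.sum_congr rfl
    intro i _
    simp only [Mmat]
    push_cast
    ring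
  rw [h5, h4]
  ring

/-- the direction -/
noncomputable def wdir (d : ℕ) (θ : ℝ) : Fin d → ℝ := fun i => (θ ^ (i : ℕ))⁻¹

lemma Mmat_wdir {d : ℕ} [NeZero d] {θ : ℝ} (hθ0 : 0 < θ) (hθ : θ ^ d = 2) (i j : Fin d) :
    Mmat (wdir d θ) i j = (θ ^ (i : ℕ))⁻¹ * θ ^ (j : ℕ) := by
  simp only [Mmat, wdir]
  have hi := i.2
  have hj := j.2
  by_cases h : j ≤ i
  · rw [if_pos h, one_mul, Fin.sub_val_of_le h]
    have h' : (j : ℕ) ≤ i := h
    rw [inv_eq_iff_eq_inv, mul_inv, inv_inv, eq_mul_inv_iff_mul_eq₀ (by positivity), ← pow_add]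
    congr 1
    omega
  · rw [if_neg h]
    push Not at h
    have h' : (i : ℕ) < j := h
    have hval : ((i - j : Fin d) : ℕ) = i + d - j := by
      rw [Fin.sub_def]
      simp only
      rw [Nat.mod_eq_of_lt (by omega)]
      omega
    rw [hval, ← hθ]
    have h6 : θ ^ ((i : ℕ) + d - j) * θ ^ (j : ℕ) = θ ^ (i : ℕ) * θ ^ d := by
      rw [← pow_add, ← pow_add]; congr 1; omega
    field_simp
    linarith

lemma det_bound {d : ℕ} [NeZero d] {θ : ℝ} (hθ1 : 1 ≤ θ) (hθ : θ ^ d = 2) (x : Fin d → ℝ) (t : ℝ) :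
    |(Mmat x).det| ≤ (d.factorial * 2 * 4 ^ (d - 1)) * (‖x‖ * ‖x - t • wdir d θ‖ ^ (d - 1)) := by
  have hθ0 : 0 < θ := by linarith
  set δ := x - t • wdir d θ with hδ
  let B : Matrix (Fin d) (Fin d) ℝ := fun i j =>
    if i = 0 then Mmat x 0 j else Mmat δ i j - (θ ^ (i : ℕ))⁻¹ * Mmat δ 0 j
  have hM : ∀ i j, Mmat x i j = Mmat δ i j + t * ((θ ^ (i : ℕ))⁻¹ * θ ^ (j : ℕ)) := by
    intro i j
    rw [← Mmat_wdir hθ0 hθ i j, hδ]
    simp only [Mmat, Pi.sub_apply, Pi.smul_apply, smul_eq_mul]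
    ring
  have hdet : (Mmat x).det = B.det := by
    apply Matrix.det_eq_of_forall_row_eq_smul_add_const
      (fun i : Fin d => if i = 0 then 0 else (θ ^ (i : ℕ))⁻¹) 0 (by simp)
    intro i j
    by_cases hi : i = 0
    · subst hi; simp [B]
    · simp only [B, if_neg hi, if_true]
      rw [hM i j, hM 0 j]
      simp only [Fin.val_zero, pow_zero, inv_one]
      ring
  have hent : ∀ (y : Fin d → ℝ) i j, |Mmat y i j| ≤ 2 * ‖y‖ := by
    intro y i j
    simp only [Mmat]
    rw [abs_mul]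
    have h1 : |y (i - j)| ≤ ‖y‖ := norm_le_pi_norm y (i - j)
    have h2 : |(if j ≤ i then (1:ℝ) else 2)| ≤ 2 := by split_ifs <;> norm_num
    gcongr
  let b : Fin d → ℝ := fun i => if i = 0 then 2 * ‖x‖ else 4 * ‖δ‖
  have hB : ∀ i j, |B i j| ≤ b i := by
    intro i j
    by_cases hi : i = 0
    · simp only [B, b, if_pos hi]; exact hent x 0 j
    · simp only [B, b, if_neg hi]
      have h1 := hent δ i j
      have h2 := hent δ 0 j
      have h3 : (θ ^ (i : ℕ))⁻¹ ≤ 1 := inv_le_one_of_one_le₀ (one_le_pow₀ hθ1)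
      have h4 : |(θ ^ (i : ℕ))⁻¹ * Mmat δ 0 j| ≤ 1 * (2 * ‖δ‖) := by
        rw [abs_mul, abs_of_pos (by positivity : 0 < (θ ^ (i : ℕ))⁻¹)]
        gcongr
      calc _ ≤ |Mmat δ i j| + |(θ ^ (i : ℕ))⁻¹ * Mmat δ 0 j| := abs_sub _ _
        _ ≤ 4 * ‖δ‖ := by linarith
  have hprod : ∏ i, b i = 2 * ‖x‖ * (4 * ‖δ‖) ^ (d - 1) := by
    rw [← Finset.mul_prod_erase Finset.univ b (Finset.mem_univ 0)]
    have h1 : b 0 = 2 * ‖x‖ := by simp [b]
    have h2 : ∏ i ∈ Finset.univ.erase (0 : Fin d), b i = ∏ i ∈ Finset.univ.erase (0 : Fin d), (4 * ‖δ‖) := by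
      apply Finset.prod_congr rfl
      intro i hi
      simp only [b, if_neg (Finset.ne_of_mem_erase hi)]
    rw [h1, h2, Finset.prod_const, Finset.card_erase_of_mem (Finset.mem_univ _), Finset.card_univ,
      Fintype.card_fin]
  rw [hdet, Matrix.det_apply]
  calc |∑ σ : Equiv.Perm (Fin d), Equiv.Perm.sign σ • ∏ i, B (σ i) i|
      ≤ ∑ σ : Equiv.Perm (Fin d), |Equiv.Perm.sign σ • ∏ i, B (σ i) i| :=
        Finset.abs_sum_le_sum_abs _ _
    _ ≤ ∑ σ : Equiv.Perm (Fin d), ∏ i, b i := by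
        apply Finset.sum_le_sum
        intro σ _
        have h1 : |Equiv.Perm.sign σ • ∏ i, B (σ i) i| = ∏ i, |B (σ i) i| := by
          rcases Int.units_eq_one_or (Equiv.Perm.sign σ) with h | h
          · rw [h]; simp [Finset.abs_prod]
          · rw [h]; simp [Finset.abs_prod]
        rw [h1, ← Equiv.prod_comp σ b]
        apply Finset.prod_le_prod
        · intro i _; exact abs_nonneg _
        · intro i _; exact hB _ _
    _ = _ := by
        rw [Finset.sum_const, Finset.card_univ, Fintype.card_perm, Fintype.card_fin, nsmul_eq_mul,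
          hprod, mul_pow]
        ring

end matrix

/-- Existence of a badly approximable direction (dimension `d ≥ 2`, exponent `1/(d-1)`). -/
theorem exists_direction (d : ℕ) (hd : 2 ≤ d) : ∃ w : Fin d → ℝ, ∃ c > (0:ℝ),
    (∀ m : Fin d → ℤ, m ≠ 0 → ∑ i, (m i : ℝ) * w i ≠ 0) ∧
    ∀ m : Fin d → ℤ, m ≠ 0 → ∀ t : ℝ,
      c * ‖(fun i => (m i : ℝ))‖ ^ (-(1 / ((d : ℝ) - 1))) ≤ ‖(fun i => (m i : ℝ)) - t • w‖ := by
  have : NeZero d := ⟨by omega⟩
  set θ : ℝ := (2 : ℝ) ^ (1 / (d : ℝ)) with hθdef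
  have hd0 : (0:ℝ) < d := by exact_mod_cast (by omega : 0 < d)
  have hθ : θ ^ d = 2 := by
    rw [hθdef, ← Real.rpow_natCast, ← Real.rpow_mul (by norm_num), one_div,
      inv_mul_cancel₀ hd0.ne', Real.rpow_one]
  have hθ1 : 1 ≤ θ := Real.one_le_rpow (by norm_num) (by positivity)
  have hθ0 : 0 < θ := by linarith
  set C : ℝ := d.factorial * 2 * 4 ^ (d - 1) with hC
  have hC0 : 0 < C := by positivity
  have hd1 : (0:ℝ) < (d:ℝ) - 1 := by
    have : (2:ℝ) ≤ d := by exact_mod_cast hd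
    linarith
  refine ⟨wdir d θ, C ^ (-(1 / ((d : ℝ) - 1))), by positivity, ?_, ?_⟩
  · intro m hm h
    have h1 := pow_indep (by omega) hθ (fun i => m (Fin.rev i)) (by
      intro h0
      apply hm
      ext i
      have := congrFun h0 (Fin.rev i)
      simpa using this)
    apply h1
    have h2 : ∑ j : Fin d, (m (Fin.rev j) : ℝ) * θ ^ (j : ℕ)
        = θ ^ (d - 1) * ∑ i, (m i : ℝ) * wdir d θ i := by
      rw [← Equiv.sum_comp Fin.revPerm, Finset.mul_sum]
      apply Finset.sum_congr rfl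
      intro i _
      simp only [Fin.revPerm_apply, Fin.rev_rev, wdir, Fin.val_rev]
      have hi := i.2
      have h3 : θ ^ (d - 1) = θ ^ (d - (i + 1)) * θ ^ (i : ℕ) := by
        rw [← pow_add]; congr 1; omega
      rw [h3]
      field_simp
    rw [h2, h, mul_zero]
  · intro m hm t
    set x : Fin d → ℝ := fun i => (m i : ℝ) with hx
    set δ := ‖x - t • wdir d θ‖ with hδ
    have h1 : (1:ℝ) ≤ |(Mmat x).det| := by
      have h2 : (Mmat x).det = ((Mmat m).det : ℤ) := by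
        have : Mmat x = (Mmat m).map (Int.castRingHom ℝ) := by
          ext i j
          simp [Mmat, x]
        rw [this]
        exact ((Int.castRingHom ℝ).map_det (Mmat m)).symm
      rw [h2]
      have h3 := Int.one_le_abs (det_ne_zero hθ m hm)
      exact_mod_cast h3
    have h2 := h1.trans (det_bound hθ1 hθ x t)
    rw [← hC, ← hδ] at h2
    have hx0 : 0 < ‖x‖ := by
      rw [norm_pos_iff]
      intro h0
      apply hm
      ext i
      have := congrFun h0 i
      simpa [x] using this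
    have hδ0 : 0 ≤ δ := norm_nonneg _
    have h3 : (C * ‖x‖)⁻¹ ≤ δ ^ (d - 1) := by
      rw [inv_le_iff_one_le_mul₀ (by positivity)]
      linarith [mul_assoc C ‖x‖ (δ ^ (d - 1))]
    have h4 : (C * ‖x‖) ^ (-(1 / ((d : ℝ) - 1))) ≤ δ := by
      have h5 : ((C * ‖x‖)⁻¹) ^ (1 / ((d : ℝ) - 1)) ≤ (δ ^ (d - 1)) ^ (1 / ((d : ℝ) - 1)) :=
        Real.rpow_le_rpow (by positivity) h3 (by positivity)
      have h6 : (δ ^ (d - 1)) ^ (1 / ((d : ℝ) - 1)) = δ := by
        rw [← Real.rpow_natCast, ← Real.rpow_mul hδ0]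
        have : ((d - 1 : ℕ) : ℝ) = (d : ℝ) - 1 := by
          rw [Nat.cast_sub (by omega)]; simp
        rw [this, mul_one_div, div_self hd1.ne', Real.rpow_one]
      rw [h6, Real.inv_rpow (by positivity), ← Real.rpow_neg (by positivity)] at h5
      exact h5
    rw [← Real.mul_rpow hC0.le hx0.le]
    exact h4

end EscapeTorus
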