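import Pool.Agent.EscapeTorus.TubeSum

/-! Disjointness of the lattice translates of the tube. -/

set_option linter.unusedSectionVars false

namespace EscapeTorus

open Filter Topology
open scoped ContDiff

lemma J_rpow_small {a : ℝ} (ha : a < 0) {C ε : ℝ} (hC : 0 ≤ C) (hε : 0 < ε) :
    ∀ᶠ L in atTop, ∀ s, C * J L s ^ a < ε := by
  have hlim : Tendsto (fun L : ℝ => C * L ^ a) atTop (𝓝 0) := by
    have := (tendsto_rpow_neg_atTop (show 0 < -a by linarith)).const_mul C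
    simpa using this
  filter_upwards [hlim.eventually (gt_mem_nhds hε), eventually_gt_atTop (0 : ℝ)] with L h1 h2 s
  refine lt_of_le_of_lt ?_ h1
  have := Real.rpow_le_rpow_of_nonpos h2 (le_J L s) ha.le
  gcongr

section

variable {F : Type} [NormedAddCommGroup F] [NormedSpace ℝ F]

lemma Bd.small {a : ℝ} {h : ℝ → ℝ → F} (hh : Bd a h) (ha : a < 0) {ε : ℝ} (hε : 0 < ε) :
    ∀ᶠ L in atTop, ∀ s, ‖h L s‖ < ε := by
  obtain ⟨C, hC⟩ := hh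
  filter_upwards [hC, J_rpow_small ha (abs_nonneg C) hε] with L h1 h2 s
  refine lt_of_le_of_lt ((h1 s).trans ?_) (h2 s)
  have : 0 ≤ J L s ^ a := Real.rpow_nonneg (J_nonneg _ _) _
  gcongr
  exact le_abs_self C

lemma Bd.nonneg {a : ℝ} {h : ℝ → ℝ → F} (hh : Bd a h) :
    ∃ C : ℝ, 0 ≤ C ∧ ∀ᶠ L in atTop, ∀ s, ‖h L s‖ ≤ C * J L s ^ a := by
  obtain ⟨C, hC⟩ := hh
  refine ⟨|C|, abs_nonneg C, ?_⟩
  filter_upwards [hC] with L h1 s
  refine (h1 s).trans ?_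
  have : 0 ≤ J L s ^ a := Real.rpow_nonneg (J_nonneg _ _) _
  gcongr
  exact le_abs_self C

end

variable {E : Type} [NormedAddCommGroup E] [NormedSpace ℝ E]
variable {ι : Type} [AddCommGroup ι]

/-- `ℓ ∘ fst` -/
noncomputable def lhat (ell : E →L[ℝ] ℝ) : E × ℝ →L[ℝ] ℝ := ell.comp (ContinuousLinearMap.fst ℝ E ℝ)

lemma lhat_norm {ell : E →L[ℝ] ℝ} (h : ‖ell‖ ≤ 1) : ‖lhat ell‖ ≤ 1 := by
  refine ContinuousLinearMap.opNorm_le_bound _ zero_le_one fun x => ?_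
  calc ‖lhat ell x‖ = ‖ell x.1‖ := rfl
    _ ≤ ‖ell‖ * ‖x.1‖ := ell.le_opNorm _
    _ ≤ 1 * ‖x‖ := by gcongr; exact norm_fst_le x

/-- the curve `s ↦ (s e + z(s) u + Ξ(s), T₀(s))` -/
noncomputable def Yc (α b : ℝ) (e u : E) (Ξ : ℝ → ℝ → E) (L s : ℝ) : E × ℝ :=
  (s • e + prim (-(1 + b)) L s • u + Ξ L s, prim (-α) L s)

/-- one-sided separation estimate -/
lemma sep_aux (τ : ι →+ E × ℝ) {α b ρ ν c : ℝ} (hb : 0 < b) (hbρ : b < ρ) (hρα : ρ ≤ 2 * α)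
    (hν : 0 ≤ ν) (hρ1 : ρ ≤ 1) (hνρ : ν * (1 + b - ρ) < ρ) (hc : 0 < c)
    {e u : E} {q : E →L[ℝ] ℝ} (hqe : q e = 0) (hqu : q u = 1)
    (hqint : ∀ M, ∃ z : ℤ, q (τ M).1 = z)
    (hdio : ∀ M, (τ M).1 ≠ 0 → q (τ M).1 = 0 → ∀ t : ℝ,
      c * ‖(τ M).1‖ ^ (-ν) ≤ ‖(τ M).1 - t • e‖)
    {Ξ : ℝ → ℝ → E} (hΞ : Bd (-(2 * α)) Ξ) (C1 : ℝ) (hC1 : 0 ≤ C1) :
    ∀ᶠ L in atTop, ∀ s s' M, J L s ≤ J L s' →
      ‖τ M - (Yc α b e u Ξ L s' - Yc α b e u Ξ L s)‖ ≤ C1 * J L s ^ (-ρ) → (τ M).1 = 0 := by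
  obtain ⟨CΞ, hCΞ0, hCΞ⟩ := hΞ.nonneg
  set C2 := C1 + 2 * CΞ with hC2
  have hC20 : 0 ≤ C2 := by positivity
  have hρ0 : 0 < ρ := by linarith
  set C3 := 2 ^ (1 + b) * (‖q‖ * C2) with hC3
  have hC30 : 0 ≤ C3 := by positivity
  set C4 := ‖q‖ * C2 * ‖u‖ + C2 with hC4
  have hC40 : 0 ≤ C4 := by positivity
  set C5 := C3 * ‖e‖ + C4 with hC5
  have hC50 : 0 ≤ C5 := by positivity
  have hzlim : Tendsto (fun L : ℝ => 2 * (2 ^ (1 + b) / b * L ^ (-b))) atTop (𝓝 0) := by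
    have := ((tendsto_rpow_neg_atTop hb).const_mul (2 ^ (1 + b) / b)).const_mul 2
    simpa using this
  filter_upwards [hCΞ, hzlim.eventually (gt_mem_nhds (show (0:ℝ) < 1 / 2 by norm_num)),
    J_rpow_small (show -ρ < 0 by linarith) (show 0 ≤ ‖q‖ * C2 by positivity)
      (show (0:ℝ) < 1 / 2 by norm_num),
    J_rpow_small (show b - ρ < 0 by linarith) hC30 (show (0:ℝ) < 1 by norm_num),
    J_rpow_small (show ν * (1 + b - ρ) - ρ < 0 by linarith)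
      (show 0 ≤ C4 * (C5 + 1) ^ ν by positivity) hc,
    eventually_ge_atTop (1 : ℝ)] with L h1 h2 h3 h4 h5 hL
  intro s s' M hJ hM
  by_contra hm
  have hL0 : 0 < L := by linarith
  have hJ1 : 1 ≤ J L s := one_le_J hL s
  have hJ0 : 0 < J L s := by linarith
  set m := (τ M).1 with hm_def
  set z := prim (-(1 + b)) L s with hz
  set z' := prim (-(1 + b)) L s' with hz'
  -- (1)
  have hr0 : 0 ≤ J L s ^ (-ρ) := by positivity
  have e1 : ‖m - (s' - s) • e - (z' - z) • u‖ ≤ C2 * J L s ^ (-ρ) := by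
    have a1 : ‖(τ M - (Yc α b e u Ξ L s' - Yc α b e u Ξ L s)).1‖ ≤ C1 * J L s ^ (-ρ) :=
      (norm_fst_le _).trans hM
    have a2 : (τ M - (Yc α b e u Ξ L s' - Yc α b e u Ξ L s)).1
        = (m - (s' - s) • e - (z' - z) • u) - (Ξ L s' - Ξ L s) := by
      simp only [Yc, Prod.fst_sub, ← hm_def, ← hz, ← hz', sub_smul]
      abel
    have a3 : ‖Ξ L s‖ ≤ CΞ * J L s ^ (-ρ) := by
      refine (h1 s).trans ?_
      gcongr
    have a4 : ‖Ξ L s'‖ ≤ CΞ * J L s ^ (-ρ) := by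
      refine (h1 s').trans ?_
      gcongr
      calc J L s' ^ (-(2 * α)) ≤ J L s ^ (-(2 * α)) :=
            Real.rpow_le_rpow_of_nonpos hJ0 hJ (by linarith)
        _ ≤ J L s ^ (-ρ) := Real.rpow_le_rpow_of_exponent_le hJ1 (by linarith)
    rw [a2] at a1
    calc ‖m - (s' - s) • e - (z' - z) • u‖
        = ‖((m - (s' - s) • e - (z' - z) • u) - (Ξ L s' - Ξ L s)) + (Ξ L s' - Ξ L s)‖ := by
          congr 1; abel
      _ ≤ ‖(m - (s' - s) • e - (z' - z) • u) - (Ξ L s' - Ξ L s)‖ + ‖Ξ L s' - Ξ L s‖ :=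
          norm_add_le _ _
      _ ≤ C1 * J L s ^ (-ρ) + (CΞ * J L s ^ (-ρ) + CΞ * J L s ^ (-ρ)) := by
          gcongr
          exact (norm_sub_le _ _).trans (add_le_add a4 a3)
      _ = C2 * J L s ^ (-ρ) := by rw [hC2]; ring
  -- (2)
  have e2 : |q m - (z' - z)| ≤ ‖q‖ * C2 * J L s ^ (-ρ) := by
    have a1 : q (m - (s' - s) • e - (z' - z) • u) = q m - (z' - z) := by
      simp [hqe, hqu]
    rw [← a1, ← Real.norm_eq_abs, mul_assoc]
    exact (q.le_opNorm _).trans (by gcongr)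
  have e3 : |z' - z| < 1 / 2 := by
    have a1 := prim_bounded hb hL0 s
    have a2 := prim_bounded hb hL0 s'
    calc |z' - z| ≤ |z'| + |z| := abs_sub _ _
      _ ≤ 2 * (2 ^ (1 + b) / b * L ^ (-b)) := by linarith
      _ < 1 / 2 := h2
  have e4 : q m = 0 := by
    obtain ⟨y, hy⟩ := hqint M
    rw [← hm_def] at hy
    have a1 : |q m| < 1 := by
      have a2 := h3 s
      calc |q m| = |(q m - (z' - z)) + (z' - z)| := by congr 1; ring
        _ ≤ |q m - (z' - z)| + |z' - z| := abs_add_le _ _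
        _ < 1 := by linarith
    rw [hy] at a1 ⊢
    have : |y| < 1 := by exact_mod_cast a1
    have : y = 0 := Int.abs_lt_one_iff.mp this
    simp [this]
  have e5 : |z' - z| ≤ ‖q‖ * C2 * J L s ^ (-ρ) := by
    rw [e4, zero_sub, abs_neg] at e2
    exact e2
  -- (3)
  have e6 : |s' - s| ≤ C3 * J L s ^ (1 + b - ρ) := by
    have a1 := prim_separates hb hL0 s s'
    rw [← hz, ← hz'] at a1
    have a2 : 2 ^ (-(1 + b)) * min |s' - s| (J L s) * J L s ^ (-(1 + b))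
        ≤ ‖q‖ * C2 * J L s ^ (-ρ) := a1.trans e5
    have a3 : min |s' - s| (J L s) ≤ C3 * J L s ^ (1 + b - ρ) := by
      have b1 : (2:ℝ) ^ (1 + b) * 2 ^ (-(1 + b)) = 1 := by
        rw [← Real.rpow_add (by norm_num)]; simp
      have b2 : J L s ^ (1 + b) * J L s ^ (-(1 + b)) = 1 := by
        rw [← Real.rpow_add hJ0]; simp
      have b3 : J L s ^ (1 + b) * J L s ^ (-ρ) = J L s ^ (1 + b - ρ) := by
        rw [← Real.rpow_add hJ0]; ring_nf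
      calc min |s' - s| (J L s) = ((2:ℝ) ^ (1 + b) * J L s ^ (1 + b)) *
            (2 ^ (-(1 + b)) * min |s' - s| (J L s) * J L s ^ (-(1 + b))) := by
            have : ((2:ℝ) ^ (1 + b) * J L s ^ (1 + b)) *
              (2 ^ (-(1 + b)) * min |s' - s| (J L s) * J L s ^ (-(1 + b)))
              = ((2:ℝ) ^ (1 + b) * 2 ^ (-(1 + b))) * (J L s ^ (1 + b) * J L s ^ (-(1 + b)))
                * min |s' - s| (J L s) := by ring
            rw [this, b1, b2]; ring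
        _ ≤ ((2:ℝ) ^ (1 + b) * J L s ^ (1 + b)) * (‖q‖ * C2 * J L s ^ (-ρ)) := by gcongr
        _ = C3 * J L s ^ (1 + b - ρ) := by rw [hC3, ← b3]; ring
    have a4 : C3 * J L s ^ (1 + b - ρ) < J L s := by
      have b1 := h4 s
      have b2 : J L s ^ (1 + b - ρ) = J L s ^ (b - ρ) * J L s := by
        rw [← Real.rpow_add_one hJ0.ne']; ring_nf
      rw [b2, ← mul_assoc]
      nlinarith
    rcases min_le_iff.mp a3 with h | h
    · exact h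
    · linarith
  -- Diophantine contradiction
  have e7 : ‖m - (s' - s) • e‖ ≤ C4 * J L s ^ (-ρ) := by
    calc ‖m - (s' - s) • e‖ = ‖(m - (s' - s) • e - (z' - z) • u) + (z' - z) • u‖ := by
          congr 1; abel
      _ ≤ ‖m - (s' - s) • e - (z' - z) • u‖ + ‖(z' - z) • u‖ := norm_add_le _ _
      _ ≤ C2 * J L s ^ (-ρ) + ‖q‖ * C2 * J L s ^ (-ρ) * ‖u‖ := by
          rw [norm_smul, Real.norm_eq_abs]; gcongr
      _ = C4 * J L s ^ (-ρ) := by rw [hC4]; ring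
  have hexp0 : 0 ≤ 1 + b - ρ := by linarith
  have e8 : ‖m‖ ≤ C5 * J L s ^ (1 + b - ρ) := by
    have a1 : J L s ^ (-ρ) ≤ J L s ^ (1 + b - ρ) :=
      Real.rpow_le_rpow_of_exponent_le hJ1 (by linarith)
    calc ‖m‖ = ‖(s' - s) • e + (m - (s' - s) • e)‖ := by congr 1; abel
      _ ≤ ‖(s' - s) • e‖ + ‖m - (s' - s) • e‖ := norm_add_le _ _
      _ ≤ C3 * J L s ^ (1 + b - ρ) * ‖e‖ + C4 * J L s ^ (-ρ) := by
          rw [norm_smul, Real.norm_eq_abs]; gcongr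
      _ ≤ C3 * J L s ^ (1 + b - ρ) * ‖e‖ + C4 * J L s ^ (1 + b - ρ) := by gcongr
      _ = C5 * J L s ^ (1 + b - ρ) := by rw [hC5]; ring
  have e9 := (hdio M hm e4 (s' - s)).trans e7
  have hm0 : 0 < ‖m‖ := norm_pos_iff.mpr hm
  have e10 : ((C5 + 1) * J L s ^ (1 + b - ρ)) ^ (-ν) ≤ ‖m‖ ^ (-ν) := by
    apply Real.rpow_le_rpow_of_nonpos hm0 _ (by linarith)
    refine e8.trans ?_
    gcongr
    linarith
  have e11 : ((C5 + 1) * J L s ^ (1 + b - ρ)) ^ (-ν)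
      = ((C5 + 1) ^ ν)⁻¹ * J L s ^ (-(ν * (1 + b - ρ))) := by
    rw [Real.mul_rpow (by positivity) (by positivity), Real.rpow_neg (by positivity),
      ← Real.rpow_mul hJ0.le]
    congr 2
    ring
  have e12 : c * (((C5 + 1) ^ ν)⁻¹ * J L s ^ (-(ν * (1 + b - ρ)))) ≤ C4 * J L s ^ (-ρ) := by
    rw [← e11]
    exact (mul_le_mul_of_nonneg_left e10 hc.le).trans e9
  have e13 : c ≤ C4 * (C5 + 1) ^ ν * J L s ^ (ν * (1 + b - ρ) - ρ) := by
    have b1 : 0 < (C5 + 1) ^ ν := by positivity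
    have b2 : J L s ^ (ν * (1 + b - ρ)) * J L s ^ (-(ν * (1 + b - ρ))) = 1 := by
      rw [← Real.rpow_add hJ0]; simp
    have b3 : J L s ^ (ν * (1 + b - ρ)) * J L s ^ (-ρ) = J L s ^ (ν * (1 + b - ρ) - ρ) := by
      rw [← Real.rpow_add hJ0]; ring_nf
    have b4 : 0 < J L s ^ (ν * (1 + b - ρ)) := by positivity
    calc c = ((C5 + 1) ^ ν * J L s ^ (ν * (1 + b - ρ))) *
          (c * (((C5 + 1) ^ ν)⁻¹ * J L s ^ (-(ν * (1 + b - ρ))))) := by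
          have : ((C5 + 1) ^ ν * J L s ^ (ν * (1 + b - ρ))) *
            (c * (((C5 + 1) ^ ν)⁻¹ * J L s ^ (-(ν * (1 + b - ρ)))))
            = ((C5 + 1) ^ ν * ((C5 + 1) ^ ν)⁻¹) *
              (J L s ^ (ν * (1 + b - ρ)) * J L s ^ (-(ν * (1 + b - ρ)))) * c := by ring
          rw [this, b2, mul_inv_cancel₀ b1.ne']; ring
      _ ≤ ((C5 + 1) ^ ν * J L s ^ (ν * (1 + b - ρ))) * (C4 * J L s ^ (-ρ)) := by gcongr
      _ = C4 * (C5 + 1) ^ ν * J L s ^ (ν * (1 + b - ρ) - ρ) := by rw [← b3]; ring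
  linarith [h5 s]

/-- Disjointness of the translated tubes. -/
theorem tubes_disjoint (τ : ι →+ E × ℝ) {α b ρ ν c : ℝ} (hb : 0 < b) (hbρ : b < ρ)
    (hρα : ρ ≤ 2 * α)
    (hν : 0 ≤ ν) (hρ1 : ρ ≤ 1) (hνρ : ν * (1 + b - ρ) < ρ) (hc : 0 < c)
    {e u : E} {q : E →L[ℝ] ℝ} (hqe : q e = 0) (hqu : q u = 1)
    (hqint : ∀ M, ∃ z : ℤ, q (τ M).1 = z)
    (hdio : ∀ M, (τ M).1 ≠ 0 → q (τ M).1 = 0 → ∀ t : ℝ,
      c * ‖(τ M).1‖ ^ (-ν) ≤ ‖(τ M).1 - t • e‖)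
    (htime : ∀ M, (τ M).1 = 0 → M ≠ 0 → 1 ≤ |(τ M).2|)
    {Ξ : ℝ → ℝ → E} (hΞ : Bd (-(2 * α)) Ξ) {ell : E →L[ℝ] ℝ} {Φ : ℝ → ℝ → ℝ} {CΦ : ℝ}
    (hΦ : ∀ᶠ L in atTop, ∀ s, |Φ L s - s| ≤ CΦ) {Γ : ℝ → ℝ → E × ℝ}
    (hΓ : ∀ L s, Γ L s = Yc α b e u Ξ L (Φ L s)) :
    ∀ᶠ L in atTop, ∀ p M, ‖Psi ρ (lhat ell) Γ L p‖ ≤ 1 →
      ‖Psi ρ (lhat ell) Γ L (p + τ M)‖ ≤ 1 → M = 0 := by
  have hρ0 : 0 < ρ := by linarith
  have hC1 : (0:ℝ) ≤ 2 * 2 ^ ρ := by positivity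
  filter_upwards [sep_aux τ hb hbρ hρα hν hρ1 hνρ hc hqe hqu hqint hdio hΞ (2 * 2 ^ ρ) hC1,
    J_comp_bound hΦ, eventually_ge_atTop (1 : ℝ),
    J_rpow_small (show -ρ < 0 by linarith) hC1 (show (0:ℝ) < 1 by norm_num)] with L h1 h2 hL h3
  -- distance bound from Psi
  have key : ∀ p, ‖Psi ρ (lhat ell) Γ L p‖ ≤ 1 →
      ‖p - Yc α b e u Ξ L (Φ L (lhat ell p))‖ ≤ 2 ^ ρ * J L (Φ L (lhat ell p)) ^ (-ρ) := by
    intro p hp
    set σ := lhat ell p with hσ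
    have hJ0 : 0 < J L σ := J_pos (by linarith) σ
    have hJ1 : 0 < J L (Φ L σ) := J_pos (by linarith) _
    unfold Psi at hp
    rw [← hσ, hΓ, norm_smul, Real.norm_of_nonneg (by positivity)] at hp
    have h4 : J L σ ^ (-ρ) ≤ 2 ^ ρ * J L (Φ L σ) ^ (-ρ) := by
      have := rpow_comp_bound (a := -ρ) hJ0 hJ1 (h2 σ).2 (h2 σ).1
      rwa [abs_neg, abs_of_pos hρ0] at this
    refine le_trans ?_ h4
    have h5 : J L σ ^ (-ρ) * J L σ ^ ρ = 1 := by rw [← Real.rpow_add hJ0]; simp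
    calc ‖p - Yc α b e u Ξ L (Φ L σ)‖ = J L σ ^ (-ρ) * (J L σ ^ ρ *
          ‖p - Yc α b e u Ξ L (Φ L σ)‖) := by rw [← mul_assoc, h5, one_mul]
      _ ≤ J L σ ^ (-ρ) * 1 := by gcongr
      _ = J L σ ^ (-ρ) := mul_one _
  -- one sided version
  have key2 : ∀ p M, ‖Psi ρ (lhat ell) Γ L p‖ ≤ 1 → ‖Psi ρ (lhat ell) Γ L (p + τ M)‖ ≤ 1 →
      J L (Φ L (lhat ell p)) ≤ J L (Φ L (lhat ell (p + τ M))) → M = 0 := by
    intro p M hp hpM hJ
    set s := Φ L (lhat ell p) with hs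
    set s' := Φ L (lhat ell (p + τ M)) with hs'
    have hJ0 : 0 < J L s := J_pos (by linarith) s
    have h4 := key p hp
    have h5 := key (p + τ M) hpM
    rw [← hs] at h4
    rw [← hs'] at h5
    have h6 : J L s' ^ (-ρ) ≤ J L s ^ (-ρ) := Real.rpow_le_rpow_of_nonpos hJ0 hJ (by linarith)
    have h7 : ‖τ M - (Yc α b e u Ξ L s' - Yc α b e u Ξ L s)‖ ≤ 2 * 2 ^ ρ * J L s ^ (-ρ) := by
      calc ‖τ M - (Yc α b e u Ξ L s' - Yc α b e u Ξ L s)‖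
          = ‖(p + τ M - Yc α b e u Ξ L s') - (p - Yc α b e u Ξ L s)‖ := by congr 1; abel
        _ ≤ ‖p + τ M - Yc α b e u Ξ L s'‖ + ‖p - Yc α b e u Ξ L s‖ := norm_sub_le _ _
        _ ≤ 2 ^ ρ * J L s' ^ (-ρ) + 2 ^ ρ * J L s ^ (-ρ) := add_le_add h5 h4
        _ ≤ 2 ^ ρ * J L s ^ (-ρ) + 2 ^ ρ * J L s ^ (-ρ) := by gcongr
        _ = 2 * 2 ^ ρ * J L s ^ (-ρ) := by ring
    have h8 := h1 s s' M hJ h7
    by_contra hM
    have h9 := htime M h8 hM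
    have h10 : s' = s := by
      have : lhat ell (p + τ M) = lhat ell p := by
        rw [map_add]
        have : lhat ell (τ M) = 0 := by
          change ell (τ M).1 = 0
          rw [h8, map_zero]
        rw [this, add_zero]
      rw [hs', hs, this]
    rw [h10, sub_self, sub_zero] at h7
    have h11 := (norm_snd_le (τ M)).trans h7
    rw [Real.norm_eq_abs] at h11
    linarith [h3 s]
  intro p M hp hpM
  rcases le_total (J L (Φ L (lhat ell p))) (J L (Φ L (lhat ell (p + τ M)))) with h | h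
  · exact key2 p M hp hpM h
  · have h4 : p + τ M + τ (-M) = p := by rw [map_neg]; abel
    have h5 := key2 (p + τ M) (-M) hpM (by rw [h4]; exact hp) (by rw [h4]; exact h)
    exact neg_eq_zero.mp h5

end EscapeTorus
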