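import Pool.Agent.EscapeTorus.Tube

/-! Periodisation of a sum of tube potentials whose translates are disjoint. -/

set_option linter.unusedSectionVars false

namespace EscapeTorus

open Filter Topology
open scoped ContDiff

section glue

variable {P : Type} [NormedAddCommGroup P] [NormedSpace ℝ P] [ProperSpace P]
variable {ι : Type} [AddCommGroup ι]

open Classical in
/-- the lattice vector bringing `p` into `K` (or `0`). -/
noncomputable def idx (τ : ι →+ P) (K : Set P) (p : P) : ι :=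
  if h : ∃ M, p + τ M ∈ K then h.choose else 0

lemma idx_unique {τ : ι →+ P} {K : Set P}
    (hdisj : ∀ p M, p ∈ K → p + τ M ∈ K → M = 0) {p : P} {M : ι} (hM : p + τ M ∈ K) :
    idx τ K p = M := by
  classical
  have h : ∃ M, p + τ M ∈ K := ⟨M, hM⟩
  unfold idx
  rw [dif_pos h]
  have h1 : p + τ h.choose ∈ K := h.choose_spec
  have h2 := hdisj (p + τ M) (h.choose - M) hM (by rw [map_sub]; convert h1 using 1; abel)
  exact sub_eq_zero.mp h2

lemma not_mem_of_idx {τ : ι →+ P} {K : Set P} {p : P} (hM : ∀ M, p + τ M ∉ K) :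
    idx τ K p = 0 := by
  classical
  unfold idx
  rw [dif_neg (by push Not; exact hM)]

lemma idx_add {τ : ι →+ P} {K : Set P}
    (hdisj : ∀ p M, p ∈ K → p + τ M ∈ K → M = 0) (p : P) (M : ι) {G : P → ℝ}
    (hG : ∀ p, p ∉ K → G p = 0) :
    G (p + τ M + τ (idx τ K (p + τ M))) = G (p + τ (idx τ K p)) := by
  by_cases h : ∃ M', p + τ M' ∈ K
  · obtain ⟨M', hM'⟩ := h
    have h1 : idx τ K p = M' := idx_unique hdisj hM'
    have h2 : idx τ K (p + τ M) = M' - M :=
      idx_unique hdisj (by rw [map_sub]; convert hM' using 1; abel)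
    rw [h1, h2, map_sub]
    congr 1
    abel
  · push Not at h
    rw [hG _ (h _), hG]
    rw [add_assoc, ← map_add]
    exact h _

/-- Local structure of the periodised function. -/
lemma near (τ : ι →+ P) (hfin : ∀ R : ℝ, {M : ι | ‖τ M‖ ≤ R}.Finite) {K : Set P}
    (hK : IsClosed K) (hdisj : ∀ p M, p ∈ K → p + τ M ∈ K → M = 0) {G : P → ℝ} {B : ℝ}
    (hG : ∀ p, p ∉ K → G p = 0) (hB : ∀ p, B < ‖p‖ → G p = 0) (p : P) :
    ∃ M, ∀ᶠ y in 𝓝 p, G (y + τ (idx τ K y)) = G (y + τ M) := by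
  classical
  let S : ι → Set P := fun M => {y | y + τ M ∈ K ∩ Metric.closedBall 0 B}
  have hSc : ∀ M, IsClosed (S M) := fun M =>
    (hK.inter Metric.isClosed_closedBall).preimage (continuous_id.add continuous_const)
  have hlf : LocallyFinite S := by
    intro x
    refine ⟨Metric.ball x 1, Metric.ball_mem_nhds x one_pos, ?_⟩
    refine (hfin (B + ‖x‖ + 1)).subset ?_
    rintro M ⟨y, hy1, hy2⟩
    have h1 : ‖y + τ M‖ ≤ B := by simpa using hy1.2
    have h2 : ‖y‖ ≤ ‖x‖ + 1 := by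
      have : ‖y - x‖ < 1 := by simpa [dist_eq_norm] using hy2
      calc ‖y‖ = ‖x + (y - x)‖ := by congr 1; abel
        _ ≤ ‖x‖ + ‖y - x‖ := norm_add_le _ _
        _ ≤ ‖x‖ + 1 := by linarith
    change ‖τ M‖ ≤ B + ‖x‖ + 1
    calc ‖τ M‖ = ‖(y + τ M) - y‖ := by congr 1; abel
      _ ≤ ‖y + τ M‖ + ‖y‖ := norm_sub_le _ _
      _ ≤ B + ‖x‖ + 1 := by linarith
  have hdS : ∀ M M' y, y ∈ S M → y ∈ S M' → M = M' := by
    intro M M' y h1 h2
    have h3 := idx_unique hdisj h1.1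
    have h4 := idx_unique hdisj h2.1
    rw [← h3, ← h4]
  obtain ⟨M0, hM0⟩ : ∃ M0, ∀ M, M ≠ M0 → p ∉ S M := by
    by_cases h : ∃ M, p ∈ S M
    · obtain ⟨M0, h0⟩ := h
      exact ⟨M0, fun M hM hp => hM (hdS _ _ _ hp h0)⟩
    · push Not at h
      exact ⟨0, fun M _ => h M⟩
  refine ⟨M0, ?_⟩
  have hU : IsClosed (⋃ M : {M // M ≠ M0}, S M) := by
    apply LocallyFinite.isClosed_iUnion
    · exact hlf.comp_injective Subtype.val_injective
    · exact fun M => hSc M
  have hp : p ∈ (⋃ M : {M // M ≠ M0}, S M)ᶜ := by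
    simp only [Set.mem_compl_iff, Set.mem_iUnion, not_exists]
    rintro ⟨M, hM⟩
    exact hM0 M hM
  filter_upwards [hU.isOpen_compl.mem_nhds hp] with y hy
  have hy' : ∀ M, M ≠ M0 → y ∉ S M := by
    intro M hM hyM
    apply hy
    exact Set.mem_iUnion.mpr ⟨⟨M, hM⟩, hyM⟩
  by_cases h : y + τ M0 ∈ K
  · rw [idx_unique hdisj h]
  · rw [hG _ h]
    by_cases h2 : idx τ K y = M0
    · rw [h2, hG _ h]
    · have h3 := hy' _ h2
      have h4 : ¬ (y + τ (idx τ K y) ∈ K ∩ Metric.closedBall 0 B) := h3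
      rw [Set.mem_inter_iff, not_and_or] at h4
      rcases h4 with h4 | h4
      · exact hG _ h4
      · apply hB
        simpa using h4

/-- Glueing theorem. -/
theorem glue (τ : ι →+ P) (hfin : ∀ R : ℝ, {M : ι | ‖τ M‖ ≤ R}.Finite) {K : Set P}
    (hK : IsClosed K) (hdisj : ∀ p M, p ∈ K → p + τ M ∈ K → M = 0) (k : ℕ) (G : ℕ → P → ℝ)
    (B v : ℕ → ℝ) (hcont : ∀ i, ContDiff ℝ k (G i))
    (hG : ∀ i p, p ∉ K → G i p = 0) (hB : ∀ i p, B i < ‖p‖ → G i p = 0)
    (hv : ∀ i p, ∀ n ≤ k, ‖iteratedFDeriv ℝ n (G i) p‖ ≤ v i) (hs : Summable v) :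
    ∃ g : P → ℝ, ContDiff ℝ k g ∧ (∀ p M, g (p + τ M) = g p) ∧
      (∀ n ≤ k, ∀ p, ‖iteratedFDeriv ℝ n g p‖ ≤ ∑' i, v i) ∧
      (∀ p ∈ interior K, ∀ᶠ y in 𝓝 p, g y = ∑' i, G i y) := by
  let F : ℕ → P → ℝ := fun i p => G i (p + τ (idx τ K p))
  have hnear : ∀ i p, ∃ M, ∀ᶠ y in 𝓝 p, F i y = G i (y + τ M) := fun i p =>
    near τ hfin hK hdisj (hG i) (hB i) p
  have hFc : ∀ i, ContDiff ℝ k (F i) := by
    intro i
    rw [contDiff_iff_contDiffAt]
    intro p
    obtain ⟨M, hM⟩ := hnear i p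
    have h1 : ContDiff ℝ k (fun y => G i (y + τ M)) :=
      (hcont i).comp (contDiff_id.add contDiff_const)
    exact h1.contDiffAt.congr_of_eventuallyEq hM
  have hFb : ∀ (n : ℕ) (i : ℕ) (p : P), n ≤ k → ‖iteratedFDeriv ℝ n (F i) p‖ ≤ v i := by
    intro n i p hn
    obtain ⟨M, hM⟩ := hnear i p
    have h1 : iteratedFDeriv ℝ n (F i) p = iteratedFDeriv ℝ n (fun y => G i (y + τ M)) p :=
      (EventuallyEq.iteratedFDeriv ℝ (show F i =ᶠ[𝓝 p] fun y => G i (y + τ M) from hM) n).eq_of_nhds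
    rw [h1, iteratedFDeriv_comp_add_right]
    exact hv i _ n hn
  have hs' : ∀ n : ℕ, (n : ℕ∞) ≤ (k : ℕ∞) → Summable (fun i => v i) := fun _ _ => hs
  have hFb' : ∀ (n : ℕ) (i : ℕ) (p : P), (n : ℕ∞) ≤ (k : ℕ∞) →
      ‖iteratedFDeriv ℝ n (F i) p‖ ≤ (fun (_ : ℕ) i => v i) n i := fun n i p hn =>
    hFb n i p (by exact_mod_cast hn)
  have hFc' : ∀ i, ContDiff ℝ ((k : ℕ∞) : WithTop ℕ∞) (F i) := fun i => by
    have := hFc i
    exact_mod_cast this
  refine ⟨fun p => ∑' i, F i p, ?_, ?_, ?_, ?_⟩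
  · have := contDiff_tsum (𝕜 := ℝ) (f := F) (N := (k : ℕ∞)) hFc' hs' hFb'
    exact_mod_cast this
  · intro p M
    apply tsum_congr
    intro i
    exact idx_add hdisj p M (hG i)
  · intro n hn p
    rw [iteratedFDeriv_tsum_apply (𝕜 := ℝ) (f := F) (N := (k : ℕ∞)) hFc' hs' hFb'
      (by exact_mod_cast hn)]
    exact tsum_of_norm_bounded hs.hasSum (fun i => hFb n i p hn)
  · intro p hp
    filter_upwards [isOpen_interior.mem_nhds hp] with y hy
    have hyK : y + τ 0 ∈ K := by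
      rw [map_zero, add_zero]; exact interior_subset hy
    have : idx τ K y = 0 := idx_unique hdisj hyK
    apply tsum_congr
    intro i
    simp only [F, this, map_zero, add_zero]

end glue

section theta

/-- longitudinal cut-off -/
noncomputable def eta (y : ℝ) : ℝ := Real.smoothTransition (4 - y ^ 2)

lemma eta_one {y : ℝ} (hy : |y| ≤ 1) : eta y = 1 := by
  unfold eta
  apply Real.smoothTransition.one_of_one_le
  have : y ^ 2 ≤ 1 := by rw [← sq_abs]; nlinarith [abs_nonneg y]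
  linarith

lemma eta_zero {y : ℝ} (hy : 2 ≤ |y|) : eta y = 0 := by
  unfold eta
  apply Real.smoothTransition.zero_of_nonpos
  have : 4 ≤ y ^ 2 := by rw [← sq_abs]; nlinarith [abs_nonneg y]
  linarith

lemma eta_bdd : Bdd eta := by
  apply bdd_of_compact
  · exact Real.smoothTransition.contDiff.comp (contDiff_const.sub (contDiff_id.pow 2))
  · refine HasCompactSupport.intro (isCompact_closedBall (0 : ℝ) 2) ?_
    intro x hx
    apply eta_zero
    simp only [Metric.mem_closedBall, dist_zero_right, Real.norm_eq_abs, not_le] at hx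
    exact hx.le

/-- dyadic partition of unity -/
noncomputable def theta : ℕ → ℝ → ℝ
  | 0, y => eta y
  | i + 1, y => eta ((1 / 2) ^ (i + 1) * y) - eta ((1 / 2) ^ i * y)

lemma theta_sum (n : ℕ) (y : ℝ) :
    ∑ i ∈ Finset.range (n + 1), theta i y = eta ((1 / 2) ^ n * y) := by
  induction n with
  | zero => simp [theta]
  | succ n ih => rw [Finset.sum_range_succ, ih]; simp [theta]

lemma theta_small {i : ℕ} {y : ℝ} (hy : |y| < 2 ^ i) : theta (i + 1) y = 0 := by
  have h1 : |(1 / 2) ^ i * y| ≤ 1 := by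
    rw [abs_mul, abs_of_pos (by positivity : (0:ℝ) < (1 / 2) ^ i), one_div, inv_pow,
      inv_mul_le_iff₀ (by positivity)]
    linarith
  have h2 : |(1 / 2) ^ (i + 1) * y| ≤ 1 := by
    refine le_trans ?_ h1
    rw [abs_mul, abs_mul]
    gcongr ?_ * _
    rw [abs_of_pos (by positivity), abs_of_pos (by positivity)]
    exact pow_le_pow_of_le_one (by norm_num) (by norm_num) (Nat.le_succ i)
  simp only [theta, eta_one h1, eta_one h2, sub_self]

lemma theta_large {i : ℕ} {y : ℝ} (hy : 2 ^ (i + 1) ≤ |y|) : theta i y = 0 := by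
  cases i with
  | zero => simp only [theta]; exact eta_zero (by simpa using hy)
  | succ i =>
    have h1 : 2 ≤ |(1 / 2) ^ (i + 1) * y| := by
      rw [abs_mul, abs_of_pos (by positivity : (0:ℝ) < (1 / 2) ^ (i + 1)), one_div, inv_pow,
        ← div_eq_inv_mul, le_div_iff₀ (by positivity)]
      calc (2:ℝ) * 2 ^ (i + 1) = 2 ^ (i + 1 + 1) := by ring
        _ ≤ |y| := hy
    have h2 : 2 ≤ |(1 / 2) ^ i * y| := by
      refine le_trans h1 ?_
      rw [abs_mul, abs_mul]
      gcongr ?_ * _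
      rw [abs_of_pos (by positivity), abs_of_pos (by positivity)]
      exact pow_le_pow_of_le_one (by norm_num) (by norm_num) (Nat.le_succ i)
    simp only [theta, eta_zero h1, eta_zero h2, sub_self]

lemma theta_tsum (y : ℝ) (c : ℝ) : ∑' i, theta i y * c = c := by
  obtain ⟨n, hn⟩ : ∃ n : ℕ, |y| < 2 ^ n := pow_unbounded_of_one_lt _ (by norm_num)
  have h0 : ∀ i ∉ Finset.range (n + 1), theta i y * c = 0 := by
    intro i hi
    simp only [Finset.mem_range, not_lt] at hi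
    obtain ⟨j, rfl⟩ : ∃ j, i = j + 1 := ⟨i - 1, by omega⟩
    rw [theta_small (lt_of_lt_of_le hn (pow_le_pow_right₀ (by norm_num) (by omega))), zero_mul]
  rw [tsum_eq_sum h0, ← Finset.sum_mul, theta_sum, eta_one, one_mul]
  rw [abs_mul, abs_of_pos (by positivity : (0:ℝ) < (1 / 2) ^ n), one_div, inv_pow,
    inv_mul_le_iff₀ (by positivity)]
  linarith

lemma theta_contDiff (N : ℕ) (i : ℕ) : ContDiff ℝ N (theta i) := by
  have h0 : ∀ c : ℝ, ContDiff ℝ N (fun y => eta (c * y)) := fun c =>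
    (eta_bdd.1.of_le (by exact_mod_cast le_top)).comp (contDiff_const.mul contDiff_id)
  cases i with
  | zero => exact eta_bdd.1.of_le (by exact_mod_cast le_top)
  | succ i => exact (h0 _).sub (h0 _)

lemma theta_bound (N : ℕ) : ∃ C : ℝ, ∀ i, ∀ n ≤ N, ∀ y, ‖iteratedFDeriv ℝ n (theta i) y‖ ≤ C := by
  choose c hc using eta_bdd.2
  have hc' : ∀ n ≤ N, ∀ y, ‖iteratedFDeriv ℝ n eta y‖ ≤ ∑ j ∈ Finset.range (N + 1), |c j| := by
    intro n hn y
    refine (hc n y).trans ((le_abs_self _).trans ?_)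
    exact Finset.single_le_sum (f := fun i => |c i|) (fun _ _ => abs_nonneg _)
      (Finset.mem_range.mpr (by omega))
  set C := ∑ j ∈ Finset.range (N + 1), |c j| with hC
  have hC0 : 0 ≤ C := by positivity
  have key : ∀ a : ℝ, |a| ≤ 1 → ∀ n ≤ N, ∀ y,
      ‖iteratedFDeriv ℝ n (fun y => eta (a * y)) y‖ ≤ C := by
    intro a ha n hn y
    have hT : ‖(ContinuousLinearMap.mul ℝ ℝ a)‖ ≤ 1 :=
      (ContinuousLinearMap.opNorm_mul_apply_le ℝ ℝ a).trans ha
    have h1 := iter_comp_clm (ContinuousLinearMap.mul ℝ ℝ a) hT (N := N) (i := n)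
      (h := eta) (eta_bdd.1.of_le (by exact_mod_cast le_top)) hn y
    exact h1.trans (hc' n hn _)
  refine ⟨C + C, ?_⟩
  intro i n hn y
  cases i with
  | zero =>
    have : theta 0 = eta := rfl
    rw [this]
    linarith [hc' n hn y]
  | succ i =>
    have h0 : ∀ c : ℝ, ContDiff ℝ n (fun y => eta (c * y)) := fun c =>
      (eta_bdd.1.of_le (by exact_mod_cast le_top)).comp (contDiff_const.mul contDiff_id)
    have h1 : iteratedFDeriv ℝ n (theta (i + 1)) y
        = iteratedFDeriv ℝ n (fun y => eta ((1 / 2) ^ (i + 1) * y)) y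
          - iteratedFDeriv ℝ n (fun y => eta ((1 / 2) ^ i * y)) y :=
      iteratedFDeriv_sub_apply (h0 _).contDiffAt (h0 _).contDiffAt
    rw [h1]
    have hp : ∀ j : ℕ, |((1:ℝ) / 2) ^ j| ≤ 1 := fun j => by
      rw [abs_of_pos (by positivity)]
      exact pow_le_one₀ (by norm_num) (by norm_num)
    exact (norm_sub_le _ _).trans (add_le_add (key _ (hp _) n hn y) (key _ (hp _) n hn y))

end theta

end EscapeTorus
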