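import Pool.Agent.EscapeTorus.TrigAvg
import Pool.Agent.EscapeTorus.Dioph

/-! Assembly on flat tori. -/

set_option linter.unusedSectionVars false

namespace EscapeTorus

open Filter Topology
open scoped ContDiff

/-- abbreviation for `ℝⁿ` -/
abbrev EE (n : ℕ) : Type := EuclideanSpace ℝ (Fin n)

/-- The geometric direction data on the torus of dimension `d + 1`. -/
theorem direction_data (d : ℕ) (hd : 2 ≤ d) (S : Finset ((Fin (d + 1) → ℤ) × ℤ)) :
    ∃ (e u : EE (d + 1)) (q : EE (d + 1) →L[ℝ] ℝ) (c : ℝ), 0 < c ∧ ‖e‖ = 1 ∧ q e = 0 ∧ q u = 1 ∧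
      (∀ M, ∃ z : ℤ, q (tau (d + 1) M).1 = z) ∧
      (∀ M, (tau (d + 1) M).1 ≠ 0 → q (tau (d + 1) M).1 = 0 → ∀ t : ℝ,
        c * ‖(tau (d + 1) M).1‖ ^ (-(1 / ((d : ℝ) - 1))) ≤ ‖(tau (d + 1) M).1 - t • e‖) ∧
      (∀ M ∈ S, M.1 ≠ 0 → ∑ i, (M.1 i : ℝ) * e i ≠ 0) := by
  have : NeZero d := ⟨by omega⟩
  obtain ⟨w, c, hc, hw1, hw2⟩ := exists_direction d hd
  have hd1 : (0:ℝ) < (d:ℝ) - 1 := by
    have : (2:ℝ) ≤ d := by exact_mod_cast hd
    linarith
  -- the integer Q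
  obtain ⟨Q, hQ⟩ : ∃ Q : ℕ, ∀ M ∈ S, |M.1 0| < (Q : ℤ) := by
    refine ⟨(∑ M ∈ S, (M.1 0).natAbs) + 1, fun M hM => ?_⟩
    have h1 : (M.1 0).natAbs ≤ ∑ M ∈ S, (M.1 0).natAbs :=
      Finset.single_le_sum (f := fun M : (Fin (d + 1) → ℤ) × ℤ => (M.1 0).natAbs)
        (fun _ _ => Nat.zero_le _) hM
    rw [Int.abs_eq_natAbs]
    exact_mod_cast Nat.lt_succ_of_le h1
  -- unnormalised direction
  let e0 : EE (d + 1) := WithLp.toLp 2 (Fin.snoc (α := fun _ => ℝ) w (-(Q : ℝ) * w 0))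
  have he0c : ∀ i : Fin d, e0 i.castSucc = w i := fun i => by
    simp [e0]
  have he0l : e0 (Fin.last d) = -(Q : ℝ) * w 0 := by simp [e0]
  have hzero : (0 : Fin (d + 1)) = (0 : Fin d).castSucc := by simp
  have he0ne : e0 ≠ 0 := by
    intro h
    have h1 := hw1 (Pi.single 0 1) (by
      intro h2
      have := congrFun h2 0
      simp at this)
    apply h1
    have h2 : w 0 = 0 := by rw [← he0c, h]; simp
    rw [Finset.sum_eq_single 0]
    · simp [h2]
    · intro i _ hi; simp [Pi.single_eq_of_ne hi]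
    · simp
  have hn0 : 0 < ‖e0‖ := norm_pos_iff.mpr he0ne
  let q : EE (d + 1) →L[ℝ] ℝ := (Q : ℝ) • (EuclideanSpace.proj (0 : Fin (d + 1)))
    + EuclideanSpace.proj (Fin.last d)
  have hq : ∀ x : EE (d + 1), q x = Q * x 0 + x (Fin.last d) := fun x => by simp [q]
  refine ⟨‖e0‖⁻¹ • e0, EuclideanSpace.single (Fin.last d) 1, q, c, hc, ?_, ?_, ?_, ?_, ?_, ?_⟩
  · rw [norm_smul, norm_inv, norm_norm, inv_mul_cancel₀ hn0.ne']
  · rw [map_smul, hq, hzero, he0c, he0l]
    simp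
  · rw [hq]
    have : (0 : Fin (d + 1)) ≠ Fin.last d := by
      rw [hzero]; exact Fin.castSucc_ne_last 0
    simp [this]
  · intro M
    refine ⟨Q * M.1 0 + M.1 (Fin.last d), ?_⟩
    rw [hq, tau_fst, tau_fst]
    push_cast
    ring
  · intro M hM hqM t
    set m' : Fin d → ℤ := fun i => M.1 i.castSucc with hm'
    have hm'0 : m' ≠ 0 := by
      intro h
      apply hM
      have h0 : ∀ i : Fin d, M.1 i.castSucc = 0 := fun i => congrFun h i
      have hl : (M.1 (Fin.last d) : ℝ) = 0 := by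
        rw [hq, tau_fst, tau_fst, hzero, h0 0] at hqM
        simpa using hqM
      ext i
      rw [tau_fst]
      refine Fin.lastCases ?_ (fun i => ?_) i
      · simp only [hl]; rfl
      · rw [h0 i]; simp
    have h1 := hw2 m' hm'0 (t * ‖e0‖⁻¹)
    have h2 : ‖(fun i => (m' i : ℝ)) - (t * ‖e0‖⁻¹) • w‖ ≤
        ‖(tau (d + 1) M).1 - t • (‖e0‖⁻¹ • e0)‖ := by
      rw [pi_norm_le_iff_of_nonneg (norm_nonneg _)]
      intro i
      have h3 := PiLp.norm_apply_le ((tau (d + 1) M).1 - t • (‖e0‖⁻¹ • e0)) i.castSucc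
      refine le_trans (le_of_eq ?_) h3
      congr 1
      simp only [Pi.sub_apply, Pi.smul_apply, smul_eq_mul, PiLp.sub_apply, PiLp.smul_apply,
        he0c, tau_fst, hm']
      ring
    have h4 : ‖(fun i => (m' i : ℝ))‖ ≤ ‖(tau (d + 1) M).1‖ := by
      rw [pi_norm_le_iff_of_nonneg (norm_nonneg _)]
      intro i
      have h3 := PiLp.norm_apply_le ((tau (d + 1) M).1) i.castSucc
      rw [tau_fst] at h3
      exact h3
    have h5 : 0 < ‖(fun i => (m' i : ℝ))‖ := by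
      rw [norm_pos_iff]
      intro h
      apply hm'0
      ext i
      have := congrFun h i
      simpa using this
    have h6 : ‖(tau (d + 1) M).1‖ ^ (-(1 / ((d : ℝ) - 1)))
        ≤ ‖(fun i => (m' i : ℝ))‖ ^ (-(1 / ((d : ℝ) - 1))) :=
      Real.rpow_le_rpow_of_nonpos h5 h4 (by
        have : 0 < 1 / ((d:ℝ) - 1) := by positivity
        linarith)
    calc c * ‖(tau (d + 1) M).1‖ ^ (-(1 / ((d : ℝ) - 1)))
        ≤ c * ‖(fun i => (m' i : ℝ))‖ ^ (-(1 / ((d : ℝ) - 1))) := by gcongr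
      _ ≤ _ := h1.trans h2
  · intro M hM hM0 h
    have h1 : ∑ i, (M.1 i : ℝ) * e0 i = 0 := by
      have h2 : ∑ i, (M.1 i : ℝ) * (‖e0‖⁻¹ • e0) i = ‖e0‖⁻¹ * ∑ i, (M.1 i : ℝ) * e0 i := by
        rw [Finset.mul_sum]
        apply Finset.sum_congr rfl
        intro i _
        simp only [PiLp.smul_apply, smul_eq_mul]
        ring
      rw [h2] at h
      rcases mul_eq_zero.mp h with h3 | h3
      · exact absurd h3 (inv_ne_zero hn0.ne')
      · exact h3
    rw [Fin.sum_univ_castSucc] at h1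
    simp only [he0c, he0l] at h1
    set m'' : Fin d → ℤ := fun i => M.1 i.castSucc - (if i = 0 then Q * M.1 (Fin.last d) else 0)
      with hm''
    have h2 : ∑ i, (m'' i : ℝ) * w i = 0 := by
      rw [← h1]
      simp only [hm'']
      push_cast
      simp_rw [sub_mul]
      rw [Finset.sum_sub_distrib, sub_eq_add_neg]
      congr 1
      rw [Finset.sum_eq_single 0]
      · simp; ring
      · intro i _ hi; simp [hi]
      · simp
    have h3 : m'' = 0 := by
      by_contra h4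
      exact hw1 m'' h4 h2
    have h4 : ∀ i : Fin d, i ≠ 0 → M.1 i.castSucc = 0 := by
      intro i hi
      have := congrFun h3 i
      simpa [hm'', hi] using this
    have h5 : M.1 0 = Q * M.1 (Fin.last d) := by
      have := congrFun h3 0
      simp only [hm'', if_true, Pi.zero_apply] at this
      rw [hzero]
      linarith
    have h6 : M.1 (Fin.last d) = 0 := by
      by_contra h7
      have h8 := hQ M hM
      rw [h5, abs_mul, Nat.abs_cast] at h8
      have h9 : 1 ≤ |M.1 (Fin.last d)| := Int.one_le_abs h7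
      have h10 : (0:ℤ) ≤ Q := by positivity
      nlinarith
    apply hM0
    ext i
    refine Fin.lastCases ?_ (fun i => ?_) i
    · exact h6
    · by_cases hi : i = 0
      · subst hi
        rw [← hzero, h5, h6]; simp
      · exact h4 i hi

/-- a positive definite form is an isomorphism onto the dual -/
theorem form_equiv {n : ℕ} (B : EE n →L[ℝ] EE n →L[ℝ] ℝ) (hpos : ∀ v, v ≠ 0 → 0 < B v v) :
    ∃ Mop : EE n ≃L[ℝ] (EE n →L[ℝ] ℝ), ∀ v, Mop v = B v := by
  have hinj : Function.Injective (B : EE n →ₗ[ℝ] (EE n →L[ℝ] ℝ)) := by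
    rw [← LinearMap.ker_eq_bot, LinearMap.ker_eq_bot']
    intro v hv
    by_contra h
    have h1 := hpos v h
    have h2 : B v = 0 := hv
    rw [h2] at h1
    simp at h1
  have hfr : Module.finrank ℝ (EE n) = Module.finrank ℝ (EE n →L[ℝ] ℝ) := by
    have h1 : Module.finrank ℝ (Module.Dual ℝ (EE n)) = Module.finrank ℝ (EE n) :=
      Subspace.dual_finrank_eq
    rw [← h1]
    exact (LinearMap.toContinuousLinearMap (𝕜 := ℝ) (E := EE n) (F' := ℝ)).finrank_eq
  let T : EE n ≃ₗ[ℝ] (EE n →L[ℝ] ℝ) := LinearEquiv.ofInjectiveOfFinrankEq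
    (B : EE n →ₗ[ℝ] (EE n →L[ℝ] ℝ)) hinj hfr
  exact ⟨T.toContinuousLinearEquiv, fun v => rfl⟩

/-- Main theorem, in raw form. -/
theorem main_raw {n k : ℕ} (hk : 2 ≤ k) (hn : 4 * k ≤ n + 2) (B : EE n →L[ℝ] EE n →L[ℝ] ℝ)
    (hpos : ∀ v, v ≠ 0 → 0 < B v v) {f : PP n → ℝ} (hf : ContDiff ℝ k f)
    (hper : ∀ p M, f (p + tau n M) = f p) {ε : ℝ} (hε : 0 < ε) :
    ∃ g : PP n → ℝ, ContDiff ℝ k g ∧ (∀ p M, g (p + tau n M) = g p) ∧
      (∀ j ≤ k, ∀ p, ‖iteratedFDeriv ℝ j g p‖ ≤ ε) ∧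
      ∃ x x' x'' : ℝ → EE n, (∀ t, HasDerivAt x (x' t) t) ∧ (∀ t, HasDerivAt x' (x'' t) t) ∧
        (∀ t, B (x'' t) = Dx (fun p => f p + g p) (x t, t)) ∧
        Tendsto (fun t => ‖x' t‖) atTop atTop ∧ Tendsto (fun t => ‖x' t‖) atBot atTop := by
  obtain ⟨d, rfl⟩ : ∃ d, n = d + 1 := ⟨n - 1, by omega⟩
  have hd : 2 ≤ d := by omega
  obtain ⟨S, c, hS⟩ := trig_dense_Ck hf hper (show 0 < ε / 2 by linarith)
  set f1 : PP (d + 1) → ℝ := fun p => ∑ M ∈ S, tt (c M) (Om (d + 1) M) p with hf1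
  obtain ⟨e, u, q, c', hc', hen, hqe, hqu, hqint, hdio, hres⟩ := direction_data d hd S
  obtain ⟨Mop, hMop⟩ := form_equiv B hpos
  have havg := trig_hasAvg S c e hres
  obtain ⟨hg, ⟨D⟩⟩ := havg
  -- exponents
  set N1 : ℝ := (d : ℝ) with hN1
  have hkR : (2:ℝ) ≤ k := by exact_mod_cast hk
  have hN : 4 * (k:ℝ) ≤ N1 + 3 := by
    have : (4 * k : ℝ) ≤ ((d + 1 : ℕ) : ℝ) + 2 := by exact_mod_cast hn
    rw [hN1]; push_cast at this; linarith
  set ρ : ℝ := 1 / (N1 - 1 / 2) with hρ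
  have hN5 : (5:ℝ) ≤ N1 := by linarith
  have hρ0 : 0 < ρ := by apply div_pos one_pos; linarith
  have hρN : ρ * N1 = 1 + ρ / 2 := by
    have h0 : N1 - 1 / 2 ≠ 0 := by linarith
    have h1 : ρ * (N1 - 1 / 2) = 1 := by rw [hρ]; exact one_div_mul_cancel h0
    linarith
  have hρ2 : ρ ≤ 2 / 9 := by
    rw [hρ, div_le_div_iff₀ (by linarith) (by norm_num)]; linarith
  have hρk : ((k:ℝ) - 1) * ρ < 1 / 4 := by
    rw [hρ, mul_one_div, div_lt_div_iff₀ (by linarith) (by norm_num)]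
    linarith
  set b : ℝ := ρ / 4 with hb
  have hb0 : 0 < b := by positivity
  obtain ⟨PD⟩ := pathData_of_avg (α := 1 / 4) (b := b) (by norm_num) (by norm_num) hb0.le e u Mop
    hg D
  have he0 : e ≠ 0 := by
    intro h; rw [h, norm_zero] at hen; norm_num at hen
  have hell : ‖innerSL ℝ e‖ ≤ 1 := by rw [innerSL_apply_norm, hen]
  have helle : innerSL ℝ e e = 1 := by
    rw [innerSL_apply_apply, real_inner_self_eq_norm_sq, hen]; norm_num
  have hd1 : 0 < (d:ℝ) - 1 := by rw [← hN1]; linarith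
  have htime : ∀ M, (tau (d + 1) M).1 = 0 → M ≠ 0 → 1 ≤ |(tau (d + 1) M).2| := by
    intro M h1 h2
    have h3 : M.1 = 0 := by
      ext i
      have h' : (M.1 i : ℝ) = 0 := by rw [← tau_fst, h1]; rfl
      exact Int.cast_eq_zero.mp h'
    have h4 : M.2 ≠ 0 := by
      intro h; exact h2 (Prod.ext h3 h)
    rw [tau_snd]
    exact_mod_cast Int.one_le_abs h4
  obtain ⟨G, hG1, hG2, hG3, x, x', x'', hx1, hx2, hx3, hx4, hx5⟩ :=
    dyn (tau (d + 1)) (tau_finite (d + 1)) k hfun_bdd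
      (fun ψ hψ => hfun_eq_zero (by
        by_contra h
        push Not at h
        exact absurd (norm_le_of_qf_le h.le) (not_le.mpr hψ))) hfun_zero hfun_hasFDerivAt_zero
      (α := 1 / 4) (β := 2 * (1 / 4)) (ρ := ρ) (ν := 1 / ((d:ℝ) - 1)) (c := c') (b := b)
      (by norm_num) (by norm_num) (by norm_num) hb0 (by rw [hb]; linarith)
      (by linarith) (by positivity) (by linarith)
      (by
        rw [div_mul_eq_mul_div, one_mul, div_lt_iff₀ hd1, ← hN1]
        rw [hb]; linarith)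
      hc' (by linarith) he0 hell helle hqe hqu hqint hdio htime PD (show 0 < ε / 2 by linarith)
  have hf1c : ContDiff ℝ k f1 := by
    apply ContDiff.sum
    intro M _
    exact (tt_contDiff _ _).of_le (by exact_mod_cast le_top)
  have hf1per : ∀ p M, f1 (p + tau (d + 1) M) = f1 p := by
    intro p M
    rw [hf1]
    apply Finset.sum_congr rfl
    intro M' _
    simp only [tt]
    have h1 : Om (d + 1) M' (tau (d + 1) M) =
        2 * Real.pi * ((∑ i, M'.1 i * M.1 i + M'.2 * M.2 : ℤ) : ℝ) := by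
      rw [Om_apply]
      simp only [tau_fst, tau_snd]
      push_cast
      ring
    rw [map_add, h1]
    congr 1
    congr 1
    push_cast
    rw [mul_add, Complex.exp_add]
    have h2 : Complex.exp (Complex.I * (2 * Real.pi *
        (∑ i, (M'.1 i : ℂ) * (M.1 i : ℂ) + (M'.2 : ℂ) * (M.2 : ℂ)))) = 1 := by
      rw [Complex.exp_eq_one_iff]
      refine ⟨∑ i, M'.1 i * M.1 i + M'.2 * M.2, ?_⟩
      push_cast
      ring
    rw [h2, mul_one]
  refine ⟨fun p => (f1 p - f p) + G p, (hf1c.sub hf).add hG1, ?_, ?_, x, x', x'', hx1, hx2, ?_,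
    hx4, hx5⟩
  · intro p M
    beta_reduce
    rw [hf1per, hper, hG2]
  · intro j hj p
    have hjk : (j : WithTop ℕ∞) ≤ (k : WithTop ℕ∞) := by exact_mod_cast hj
    have h1 : iteratedFDeriv ℝ j (fun p => (f1 p - f p) + G p) p
        = iteratedFDeriv ℝ j (fun p => f1 p - f p) p + iteratedFDeriv ℝ j G p :=
      iteratedFDeriv_add_apply (𝕜 := ℝ) (i := j) (x := p) (f := fun p => f1 p - f p) (g := G)
        ((hf1c.sub hf).of_le hjk).contDiffAt (hG1.of_le hjk).contDiffAt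
    rw [h1]
    calc _ ≤ ‖iteratedFDeriv ℝ j (fun p => f1 p - f p) p‖ + ‖iteratedFDeriv ℝ j G p‖ :=
          norm_add_le _ _
      _ ≤ ε / 2 + ε / 2 := add_le_add (hS j hj p) (hG3 j hj p)
      _ = ε := by ring
  · intro t
    rw [← hMop, hx3 t]
    have h1 : (fun p => f p + ((f1 p - f p) + G p)) = fun p => f1 p + G p := by
      ext1 p; ring
    rw [h1]
    have hk1 : (k : WithTop ℕ∞) ≠ 0 := by
      exact_mod_cast (by omega : k ≠ 0)
    have h2 : fderiv ℝ (fun p => f1 p + G p) (x t, t)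
        = fderiv ℝ f1 (x t, t) + fderiv ℝ G (x t, t) :=
      fderiv_fun_add (hf1c.differentiable hk1 _) (hG1.differentiable hk1 _)
    unfold Dx
    rw [h2]
    ext v
    rfl

end EscapeTorus
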