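import Pool.Agent.EscapeTorus.Trig

/-! Mollification and its effect on iterated derivatives. -/

set_option linter.unusedSectionVars false

namespace EscapeTorus

open Filter Topology MeasureTheory
open scoped ContDiff Convolution

variable {P : Type} [NormedAddCommGroup P] [NormedSpace ℝ P] [FiniteDimensional ℝ P]
  [MeasurableSpace P] [BorelSpace P] (μ : Measure P) [μ.IsAddHaarMeasure]

section bound

/-- The `j`-th derivative of `h ⋆ ρ` is controlled by `sup |h|`. -/
lemma conv_deriv_bound (j : ℕ) : ∀ {G H : Type} [NormedAddCommGroup G] [NormedSpace ℝ G]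
    [NormedAddCommGroup H] [NormedSpace ℝ H] (L : ℝ →L[ℝ] G →L[ℝ] H) (ρ : P → G)
    (_ : HasCompactSupport ρ) (_ : ContDiff ℝ ∞ ρ),
    ∃ C : ℝ, 0 ≤ C ∧ ∀ h : P → ℝ, Continuous h → ∀ B, (∀ x, |h x| ≤ B) → ∀ x,
      ‖iteratedFDeriv ℝ j (h ⋆[L, μ] ρ) x‖ ≤ C * B := by
  induction j with
  | zero =>
    intro G H _ _ _ _ L ρ hρc hρ
    refine ⟨‖L‖ * ∫ x, ‖ρ x‖ ∂μ, by positivity, fun h hh B hB x => ?_⟩
    have hB0 : 0 ≤ B := (abs_nonneg _).trans (hB 0)
    rw [norm_iteratedFDeriv_zero, convolution_def]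
    have hint : Integrable (fun t => ‖ρ (x - t)‖) μ := by
      have h1 : Integrable (fun t => ‖ρ t‖) μ :=
        (hρ.continuous.norm).integrable_of_hasCompactSupport hρc.norm
      exact h1.comp_sub_left x
    calc ‖∫ t, L (h t) (ρ (x - t)) ∂μ‖ ≤ ∫ t, ‖L‖ * B * ‖ρ (x - t)‖ ∂μ := by
          apply norm_integral_le_of_norm_le (hint.const_mul _)
          filter_upwards with t
          calc ‖L (h t) (ρ (x - t))‖ ≤ ‖L‖ * ‖h t‖ * ‖ρ (x - t)‖ := L.le_opNorm₂ _ _
            _ ≤ ‖L‖ * B * ‖ρ (x - t)‖ := by gcongr; exact hB t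
      _ = ‖L‖ * (∫ x, ‖ρ x‖ ∂μ) * B := by
          rw [integral_const_mul, integral_sub_left_eq_self (fun t => ‖ρ t‖) μ x]; ring
  | succ j ih =>
    intro G H _ _ _ _ L ρ hρc hρ
    obtain ⟨C, hC0, hC⟩ := ih (L.precompR P) (fderiv ℝ ρ) (hρc.fderiv ℝ) (hρ.fderiv_right (by simp))
    refine ⟨C, hC0, fun h hh B hB x => ?_⟩
    have h1 : fderiv ℝ (h ⋆[L, μ] ρ) = h ⋆[L.precompR P, μ] fderiv ℝ ρ := by
      ext1 y
      exact (hρc.hasFDerivAt_convolution_right L (hh.locallyIntegrable)
        (hρ.of_le (by simp)) y).fderiv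
    rw [← norm_iteratedFDeriv_fderiv, h1]
    exact hC h hh B hB x

end bound

section smoothing

variable (φ : ContDiffBump (0 : P))

/-- mollification -/
noncomputable def Sm {Y : Type} [NormedAddCommGroup Y] [NormedSpace ℝ Y] (f : P → Y) (x : P) : Y :=
  ∫ y, φ.normed μ y • f (x - y) ∂μ

variable {Y : Type} [NormedAddCommGroup Y] [NormedSpace ℝ Y]

lemma Sm_eq_conv (f : P → Y) : Sm μ φ f = (φ.normed μ ⋆[ContinuousLinearMap.lsmul ℝ ℝ, μ] f) := rfl

lemma Sm_integrable {f : P → Y} (hf : Continuous f) (x : P) :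
    Integrable (fun y => φ.normed μ y • f (x - y)) μ := by
  apply Continuous.integrable_of_hasCompactSupport
  · exact (φ.contDiff_normed (n := 0)).continuous.smul (hf.comp (continuous_const.sub continuous_id))
  · exact φ.hasCompactSupport_normed.smul_right

lemma Sm_hasFDerivAt {f : P → Y} {f' : P → P →L[ℝ] Y} (hf : ∀ x, HasFDerivAt f (f' x) x)
    (hf' : Continuous f') {B : ℝ} (hB : ∀ x, ‖f' x‖ ≤ B) (x : P) :
    HasFDerivAt (Sm μ φ f) (Sm μ φ f' x) x := by
  have hfc : Continuous f := continuous_iff_continuousAt.mpr fun x => (hf x).continuousAt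
  have hρc : Continuous (φ.normed μ) := (φ.contDiff_normed (n := 0)).continuous
  change HasFDerivAt (fun x => ∫ y, φ.normed μ y • f (x - y) ∂μ)
    (∫ y, φ.normed μ y • f' (x - y) ∂μ) x
  refine hasFDerivAt_integral_of_dominated_of_fderiv_le (s := Set.univ)
    (F := fun x y => φ.normed μ y • f (x - y)) (F' := fun x y => φ.normed μ y • f' (x - y))
    (bound := fun y => ‖φ.normed μ y‖ * B) ?_ ?_ ?_ ?_ ?_ ?_ ?_
  · exact Filter.univ_mem
  · exact Eventually.of_forall fun z => (Sm_integrable μ φ hfc z).aestronglyMeasurable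
  · exact Sm_integrable μ φ hfc x
  · exact (Sm_integrable μ φ hf' x).aestronglyMeasurable
  · filter_upwards with y z _
    rw [norm_smul]
    gcongr
    exact hB _
  · exact (hρc.integrable_of_hasCompactSupport φ.hasCompactSupport_normed).norm.mul_const B
  · filter_upwards with y z _
    have h1 : HasFDerivAt (fun z => f (z - y)) (f' (z - y)) z := by
      have := (hf (z - y)).comp z ((hasFDerivAt_id (𝕜 := ℝ) z).sub_const y)
      exact this
    exact h1.const_smul _

lemma Sm_continuous {f : P → Y} (hf : Continuous f) : Continuous (Sm μ φ f) := by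
  rw [Sm_eq_conv]
  exact φ.hasCompactSupport_normed.continuous_convolution_left _
    (φ.contDiff_normed (n := 0)).continuous hf.locallyIntegrable

lemma Sm_clm {Z : Type} [NormedAddCommGroup Z] [NormedSpace ℝ Z] (T : Y ≃L[ℝ] Z)
    (f : P → Y) (x : P) : Sm μ φ (fun x => T (f x)) x = T (Sm μ φ f x) := by
  unfold Sm
  simp only [← map_smul]
  exact T.integral_comp_comm (fun y => φ.normed μ y • f (x - y))

/-- mollification commutes with iterated derivatives -/
lemma iter_Sm {k : ℕ} {f : P → Y} (hf : ContDiff ℝ k f)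
    (hb : ∀ j ≤ k, ∃ B : ℝ, ∀ x, ‖iteratedFDeriv ℝ j f x‖ ≤ B) :
    ContDiff ℝ k (Sm μ φ f) ∧
      ∀ j ≤ k, iteratedFDeriv ℝ j (Sm μ φ f) = Sm μ φ (iteratedFDeriv ℝ j f) := by
  have key : ∀ j ≤ k, iteratedFDeriv ℝ j (Sm μ φ f) = Sm μ φ (iteratedFDeriv ℝ j f) ∧
      (j < k → ∀ x, HasFDerivAt (Sm μ φ (iteratedFDeriv ℝ j f))
        (Sm μ φ (fderiv ℝ (iteratedFDeriv ℝ j f)) x) x) := by
    intro j
    induction j with
    | zero =>
      intro _
      constructor
      · ext1 x
        rw [iteratedFDeriv_zero_eq_comp]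
        have h1 : (iteratedFDeriv ℝ 0 f) = fun x =>
          (continuousMultilinearCurryFin0 ℝ P Y).symm.toContinuousLinearEquiv (f x) := by
          rw [iteratedFDeriv_zero_eq_comp]; rfl
        rw [h1, Sm_clm]
        rfl
      · intro h0 x
        obtain ⟨B, hB⟩ := hb 1 (by omega)
        refine Sm_hasFDerivAt μ φ (f' := fderiv ℝ (iteratedFDeriv ℝ 0 f)) (B := B) ?_ ?_ ?_ x
        · intro y
          exact ((hf.differentiable_iteratedFDeriv (by exact_mod_cast h0)) y).hasFDerivAt
        · have h1 : ContDiff ℝ 1 (iteratedFDeriv ℝ 0 f) :=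
            hf.iteratedFDeriv_right (by exact_mod_cast (show 1 + 0 ≤ k by omega))
          exact h1.continuous_fderiv (by simp)
        · intro y
          rw [norm_fderiv_iteratedFDeriv]
          exact hB y
    | succ j ih =>
      intro hj
      obtain ⟨ih1, ih2⟩ := ih (by omega)
      have ih3 := ih2 (by omega)
      constructor
      · rw [iteratedFDeriv_succ_eq_comp_left, ih1]
        have h2 : fderiv ℝ (Sm μ φ (iteratedFDeriv ℝ j f))
            = Sm μ φ (fderiv ℝ (iteratedFDeriv ℝ j f)) := funext fun x => (ih3 x).fderiv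
        rw [h2]
        ext1 x
        have h3 : (iteratedFDeriv ℝ (j + 1) f) = fun x =>
          (continuousMultilinearCurryLeftEquiv ℝ (fun _ : Fin (j + 1) => P) Y).symm.toContinuousLinearEquiv
            (fderiv ℝ (iteratedFDeriv ℝ j f) x) := by
          rw [iteratedFDeriv_succ_eq_comp_left]; rfl
        rw [h3]
        exact (Sm_clm μ φ ((continuousMultilinearCurryLeftEquiv ℝ
          (fun _ : Fin (j + 1) => P) Y).symm.toContinuousLinearEquiv)
          (fderiv ℝ (iteratedFDeriv ℝ j f)) x).symm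
      · intro h0 x
        obtain ⟨B, hB⟩ := hb (j + 2) (by omega)
        refine Sm_hasFDerivAt μ φ (f' := fderiv ℝ (iteratedFDeriv ℝ (j + 1) f)) (B := B) ?_ ?_ ?_ x
        · intro y
          exact ((hf.differentiable_iteratedFDeriv (by exact_mod_cast h0)) y).hasFDerivAt
        · have h1 : ContDiff ℝ 1 (iteratedFDeriv ℝ (j + 1) f) :=
            hf.iteratedFDeriv_right (by exact_mod_cast (show 1 + (j + 1) ≤ k by omega))
          exact h1.continuous_fderiv (by simp)
        · intro y
          rw [norm_fderiv_iteratedFDeriv]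
          exact hB y
  refine ⟨?_, fun j hj => (key j hj).1⟩
  have h1 : ∀ j ≤ k, Continuous (iteratedFDeriv ℝ j (Sm μ φ f)) := by
    intro j hj
    rw [(key j hj).1]
    exact Sm_continuous μ φ (hf.continuous_iteratedFDeriv (by exact_mod_cast hj))
  have h2 : ContDiff ℝ ((k : ℕ∞) : WithTop ℕ∞) (Sm μ φ f) := by
    rw [contDiff_iff_continuous_differentiable]
    constructor
    · intro m hm
      exact h1 m (by exact_mod_cast hm)
    · intro m hm x
      have hm' : m < k := by exact_mod_cast hm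
      rw [(key m hm'.le).1]
      exact ((key m hm'.le).2 hm' x).differentiableAt
  exact_mod_cast h2

/-- approximation property -/
lemma Sm_close {f : P → Y} (hf : Continuous f) {x : P} {ε : ℝ}
    (h : ∀ y, ‖y‖ ≤ φ.rOut → ‖f (x - y) - f x‖ ≤ ε) [CompleteSpace Y] :
    ‖Sm μ φ f x - f x‖ ≤ ε := by
  rw [Sm_eq_conv, ← dist_eq_norm]
  apply φ.dist_normed_convolution_le
  · exact hf.aestronglyMeasurable
  · intro z hz
    rw [dist_eq_norm]
    have := h (x - z) (by
      rw [Metric.mem_ball, dist_eq_norm] at hz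
      rw [norm_sub_rev]; exact hz.le)
    simpa using this

end smoothing

end EscapeTorus
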