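import Mathlib

/-! Symbol classes: families `h L s` (large parameter `L`, variable `s`) all of whose
`s`-derivatives up to order `N` are bounded by `C * J L s ^ a`, where `J L s = √(L² + s²)`,
uniformly for all large `L`. -/

set_option linter.unusedSectionVars false

namespace EscapeTorus

open Filter Topology

/-- The bracket `√(L² + s²)`. -/
noncomputable def J (L s : ℝ) : ℝ := Real.sqrt (L ^ 2 + s ^ 2)

lemma J_sq (L s : ℝ) : J L s ^ 2 = L ^ 2 + s ^ 2 := by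
  unfold J; exact Real.sq_sqrt (by positivity)

lemma J_nonneg (L s : ℝ) : 0 ≤ J L s := Real.sqrt_nonneg _

lemma le_J (L s : ℝ) : L ≤ J L s := by
  unfold J; apply Real.le_sqrt_of_sq_le; nlinarith [sq_nonneg s]

lemma abs_le_J (L s : ℝ) : |s| ≤ J L s := by
  unfold J; apply Real.le_sqrt_of_sq_le; rw [sq_abs]; nlinarith [sq_nonneg L]

lemma J_pos {L : ℝ} (hL : 0 < L) (s : ℝ) : 0 < J L s := lt_of_lt_of_le hL (le_J L s)

lemma one_le_J {L : ℝ} (hL : 1 ≤ L) (s : ℝ) : 1 ≤ J L s := le_trans hL (le_J L s)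

lemma J_le_add (L s s' : ℝ) : J L s' ≤ J L s + |s' - s| := by
  have h0 := J_nonneg L s
  have h1 : 0 ≤ J L s + |s' - s| := by positivity
  have h2 : J L s' ^ 2 ≤ (J L s + |s' - s|) ^ 2 := by
    rw [J_sq]
    have h3 := J_sq L s
    have h4 : |s| ≤ J L s := abs_le_J L s
    have h5 : s' ^ 2 = s ^ 2 + 2 * (s * (s' - s)) + (s' - s) ^ 2 := by ring
    have h6 : s * (s' - s) ≤ |s| * |s' - s| := by
      rw [← abs_mul]; exact le_abs_self _
    have h7 : |s| * |s' - s| ≤ J L s * |s' - s| := by gcongr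
    have h8 : |s' - s| ^ 2 = (s' - s) ^ 2 := sq_abs _
    nlinarith
  exact (abs_le_of_sq_le_sq' h2 h1).2

lemma hasDerivAt_J {L : ℝ} (hL : 0 < L) (s : ℝ) : HasDerivAt (J L) (s / J L s) s := by
  have h1 : HasDerivAt (fun s : ℝ => L ^ 2 + s ^ 2) (2 * s) s := by
    have := (hasDerivAt_pow 2 s).const_add (L ^ 2)
    simpa using this
  have h2 : L ^ 2 + s ^ 2 ≠ 0 := by positivity
  have h3 := h1.sqrt h2
  have h4 : 2 * s / (2 * Real.sqrt (L ^ 2 + s ^ 2)) = s / J L s := by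
    unfold J; rw [mul_div_mul_left _ _ (by norm_num)]
  rw [h4] at h3
  exact h3

lemma hasDerivAt_J_rpow {L : ℝ} (hL : 0 < L) (a s : ℝ) :
    HasDerivAt (fun s => J L s ^ a) (a * (s / J L s) * J L s ^ (a - 1)) s := by
  have h := (hasDerivAt_J hL s).rpow_const (p := a) (Or.inl (J_pos hL s).ne')
  convert h using 1
  ring

section classes

variable {F G H : Type} [NormedAddCommGroup F] [NormedSpace ℝ F]
  [NormedAddCommGroup G] [NormedSpace ℝ G] [NormedAddCommGroup H] [NormedSpace ℝ H]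

/-- pointwise bound of order `a`. -/
def Bd (a : ℝ) (h : ℝ → ℝ → F) : Prop :=
  ∃ C : ℝ, ∀ᶠ L in atTop, ∀ s, ‖h L s‖ ≤ C * J L s ^ a

/-- Symbols of order `a` with `N` controlled derivatives. -/
def Sym : ℕ → ℝ → (ℝ → ℝ → F) → Prop
  | 0, a, h => Bd a h
  | N + 1, a, h => Bd a h ∧ ∃ h' : ℝ → ℝ → F,
      (∀ᶠ L in atTop, ∀ s, HasDerivAt (h L) (h' L s) s) ∧ Sym N a h'

lemma Sym.bd {N : ℕ} {a : ℝ} {h : ℝ → ℝ → F} (hh : Sym N a h) : Bd a h := by
  cases N with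
  | zero => exact hh
  | succ N => exact hh.1

lemma Bd.congr {a : ℝ} {h k : ℝ → ℝ → F} (hh : Bd a h)
    (hk : ∀ᶠ L in atTop, ∀ s, h L s = k L s) : Bd a k := by
  obtain ⟨C, hC⟩ := hh
  refine ⟨C, ?_⟩
  filter_upwards [hC, hk] with L h1 h2 s
  rw [← h2 s]; exact h1 s

lemma Sym.congr {N : ℕ} {a : ℝ} {h k : ℝ → ℝ → F} (hh : Sym N a h)
    (hk : ∀ᶠ L in atTop, ∀ s, h L s = k L s) : Sym N a k := by
  cases N with
  | zero => exact Bd.congr hh hk
  | succ N =>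
    obtain ⟨h1, h', h2, h3⟩ := hh
    refine ⟨h1.congr hk, h', ?_, h3⟩
    filter_upwards [h2, hk] with L h4 h5 s
    have h6 : h L = k L := funext h5
    rw [← h6]; exact h4 s

lemma Bd.mono {a b : ℝ} (hab : a ≤ b) {h : ℝ → ℝ → F} (hh : Bd a h) : Bd b h := by
  obtain ⟨C, hC⟩ := hh
  refine ⟨|C|, ?_⟩
  filter_upwards [hC, eventually_ge_atTop (1 : ℝ)] with L h1 hL s
  have hJ := one_le_J hL s
  calc ‖h L s‖ ≤ C * J L s ^ a := h1 s
    _ ≤ |C| * J L s ^ a := by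
        have : 0 ≤ J L s ^ a := Real.rpow_nonneg (J_nonneg _ _) _
        gcongr; exact le_abs_self C
    _ ≤ |C| * J L s ^ b := by
        gcongr

lemma Sym.mono {N : ℕ} {a b : ℝ} (hab : a ≤ b) {h : ℝ → ℝ → F} (hh : Sym N a h) :
    Sym N b h := by
  induction N generalizing h with
  | zero => exact Bd.mono hab hh
  | succ N ih =>
    obtain ⟨h1, h', h2, h3⟩ := hh
    exact ⟨h1.mono hab, h', h2, ih h3⟩

lemma Sym.of_succ {N : ℕ} {a : ℝ} {h : ℝ → ℝ → F} (hh : Sym (N + 1) a h) : Sym N a h := by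
  induction N generalizing h with
  | zero => exact hh.1
  | succ N ih =>
    obtain ⟨h1, h', h2, h3⟩ := hh
    exact ⟨h1, h', h2, ih h3⟩

/-- given derivative may be used. -/
lemma Sym.deriv {N : ℕ} {a : ℝ} {h h' : ℝ → ℝ → F} (hh : Sym (N + 1) a h)
    (hd : ∀ᶠ L in atTop, ∀ s, HasDerivAt (h L) (h' L s) s) : Sym N a h' := by
  obtain ⟨_, k, h2, h3⟩ := hh
  refine h3.congr ?_
  filter_upwards [h2, hd] with L h4 h5 s
  exact (h4 s).unique (h5 s)

lemma Bd.add {a : ℝ} {h k : ℝ → ℝ → F} (hh : Bd a h) (hk : Bd a k) :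
    Bd a (fun L s => h L s + k L s) := by
  obtain ⟨C, hC⟩ := hh
  obtain ⟨D, hD⟩ := hk
  refine ⟨C + D, ?_⟩
  filter_upwards [hC, hD] with L h1 h2 s
  calc ‖h L s + k L s‖ ≤ ‖h L s‖ + ‖k L s‖ := norm_add_le _ _
    _ ≤ C * J L s ^ a + D * J L s ^ a := add_le_add (h1 s) (h2 s)
    _ = (C + D) * J L s ^ a := by ring

lemma Sym.add {N : ℕ} {a : ℝ} {h k : ℝ → ℝ → F} (hh : Sym N a h) (hk : Sym N a k) :
    Sym N a (fun L s => h L s + k L s) := by
  induction N generalizing h k with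
  | zero => exact Bd.add hh hk
  | succ N ih =>
    obtain ⟨h1, h', h2, h3⟩ := hh
    obtain ⟨k1, k', k2, k3⟩ := hk
    refine ⟨h1.add k1, fun L s => h' L s + k' L s, ?_, ih h3 k3⟩
    filter_upwards [h2, k2] with L h4 k4 s
    exact (h4 s).add (k4 s)

lemma Bd.bilin (B : F →L[ℝ] G →L[ℝ] H) {a b : ℝ} {h : ℝ → ℝ → F} {k : ℝ → ℝ → G}
    (hh : Bd a h) (hk : Bd b k) : Bd (a + b) (fun L s => B (h L s) (k L s)) := by
  obtain ⟨C, hC⟩ := hh
  obtain ⟨D, hD⟩ := hk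
  refine ⟨‖B‖ * |C| * |D|, ?_⟩
  filter_upwards [hC, hD, eventually_ge_atTop (1 : ℝ)] with L h1 h2 hL s
  have hJ : 0 < J L s := J_pos (by linarith) s
  have hJa : 0 ≤ J L s ^ a := Real.rpow_nonneg hJ.le _
  have hJb : 0 ≤ J L s ^ b := Real.rpow_nonneg hJ.le _
  have h3 : ‖h L s‖ ≤ |C| * J L s ^ a := (h1 s).trans (by gcongr; exact le_abs_self C)
  have h4 : ‖k L s‖ ≤ |D| * J L s ^ b := (h2 s).trans (by gcongr; exact le_abs_self D)
  calc ‖B (h L s) (k L s)‖ ≤ ‖B‖ * ‖h L s‖ * ‖k L s‖ := B.le_opNorm₂ _ _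
    _ ≤ ‖B‖ * (|C| * J L s ^ a) * (|D| * J L s ^ b) := by gcongr
    _ = ‖B‖ * |C| * |D| * J L s ^ (a + b) := by rw [Real.rpow_add hJ]; ring

lemma Sym.bilin (B : F →L[ℝ] G →L[ℝ] H) {N : ℕ} {a b : ℝ} {h : ℝ → ℝ → F} {k : ℝ → ℝ → G}
    (hh : Sym N a h) (hk : Sym N b k) : Sym N (a + b) (fun L s => B (h L s) (k L s)) := by
  induction N generalizing h k with
  | zero => exact Bd.bilin B hh hk
  | succ N ih =>
    have hh0 := hh
    have hk0 := hk
    obtain ⟨h1, h', h2, h3⟩ := hh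
    obtain ⟨k1, k', k2, k3⟩ := hk
    refine ⟨h1.bilin B k1, fun L s => B (h L s) (k' L s) + B (h' L s) (k L s), ?_,
      (ih hh0.of_succ k3).add (ih h3 hk0.of_succ)⟩
    filter_upwards [h2, k2] with L h4 k4 s
    exact B.hasDerivAt_of_bilinear (fun _ => h4 s) (fun _ => k4 s)

lemma Bd.clm (T : F →L[ℝ] G) {a : ℝ} {h : ℝ → ℝ → F} (hh : Bd a h) :
    Bd a (fun L s => T (h L s)) := by
  obtain ⟨C, hC⟩ := hh
  refine ⟨‖T‖ * C, ?_⟩
  filter_upwards [hC] with L h1 s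
  calc ‖T (h L s)‖ ≤ ‖T‖ * ‖h L s‖ := T.le_opNorm _
    _ ≤ ‖T‖ * (C * J L s ^ a) := by gcongr; exact h1 s
    _ = ‖T‖ * C * J L s ^ a := by ring

lemma Sym.clm (T : F →L[ℝ] G) {N : ℕ} {a : ℝ} {h : ℝ → ℝ → F} (hh : Sym N a h) :
    Sym N a (fun L s => T (h L s)) := by
  induction N generalizing h with
  | zero => exact Bd.clm T hh
  | succ N ih =>
    obtain ⟨h1, h', h2, h3⟩ := hh
    refine ⟨h1.clm T, fun L s => T (h' L s), ?_, ih h3⟩
    filter_upwards [h2] with L h4 s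
    exact T.hasFDerivAt.comp_hasDerivAt s (h4 s)

lemma Sym.mul {N : ℕ} {a b : ℝ} {h k : ℝ → ℝ → ℝ} (hh : Sym N a h) (hk : Sym N b k) :
    Sym N (a + b) (fun L s => h L s * k L s) :=
  Sym.bilin (ContinuousLinearMap.mul ℝ ℝ) hh hk

lemma Sym.smul {N : ℕ} {a b : ℝ} {h : ℝ → ℝ → ℝ} {k : ℝ → ℝ → F} (hh : Sym N a h)
    (hk : Sym N b k) : Sym N (a + b) (fun L s => h L s • k L s) :=
  Sym.bilin (ContinuousLinearMap.lsmul ℝ ℝ) hh hk

lemma Sym.apply {N : ℕ} {a b : ℝ} {h : ℝ → ℝ → F →L[ℝ] G} {k : ℝ → ℝ → F} (hh : Sym N a h)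
    (hk : Sym N b k) : Sym N (a + b) (fun L s => h L s (k L s)) :=
  Sym.bilin (ContinuousLinearMap.id ℝ (F →L[ℝ] G)) hh hk

lemma Sym.prodMk {N : ℕ} {a : ℝ} {h : ℝ → ℝ → F} {k : ℝ → ℝ → G} (hh : Sym N a h)
    (hk : Sym N a k) : Sym N a (fun L s => (h L s, k L s)) := by
  have h1 := hh.clm (ContinuousLinearMap.inl ℝ F G)
  have h2 := hk.clm (ContinuousLinearMap.inr ℝ F G)
  refine (h1.add h2).congr (Eventually.of_forall fun L s => ?_)
  simp

lemma Sym.neg {N : ℕ} {a : ℝ} {h : ℝ → ℝ → F} (hh : Sym N a h) :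
    Sym N a (fun L s => - h L s) :=
  (hh.clm (-ContinuousLinearMap.id ℝ F)).congr (Eventually.of_forall fun L s => by simp)

lemma Sym.sub {N : ℕ} {a : ℝ} {h k : ℝ → ℝ → F} (hh : Sym N a h) (hk : Sym N a k) :
    Sym N a (fun L s => h L s - k L s) :=
  (hh.add hk.neg).congr (Eventually.of_forall fun L s => by simp [sub_eq_add_neg])

lemma Sym.const_smul {N : ℕ} {a : ℝ} (c : ℝ) {h : ℝ → ℝ → F} (hh : Sym N a h) :
    Sym N a (fun L s => c • h L s) :=
  (hh.clm (c • ContinuousLinearMap.id ℝ F)).congr (Eventually.of_forall fun L s => by simp)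

lemma Sym.const_mul {N : ℕ} {a : ℝ} (c : ℝ) {h : ℝ → ℝ → ℝ} (hh : Sym N a h) :
    Sym N a (fun L s => c * h L s) := hh.const_smul c

lemma Sym.zero (N : ℕ) (a : ℝ) : Sym N a (fun (_ : ℝ) (_ : ℝ) => (0 : F)) := by
  induction N with
  | zero => exact ⟨0, Eventually.of_forall fun L s => by simp⟩
  | succ N ih =>
    exact ⟨⟨0, Eventually.of_forall fun L s => by simp⟩, fun _ _ => 0,
      Eventually.of_forall fun L s => hasDerivAt_const _ _, ih⟩

lemma Sym.const (N : ℕ) (c : F) : Sym N 0 (fun (_ : ℝ) (_ : ℝ) => c) := by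
  have hb : Bd 0 (fun (_ : ℝ) (_ : ℝ) => c) := ⟨‖c‖, Eventually.of_forall fun L s => by simp⟩
  cases N with
  | zero => exact hb
  | succ N => exact ⟨hb, fun _ _ => 0, Eventually.of_forall fun L s => hasDerivAt_const _ _,
      Sym.zero N 0⟩

/-- `s/J` and `J^a` are symbols. -/
lemma Sym.rpow_aux (N : ℕ) : (∀ a : ℝ, Sym N a (fun L s => J L s ^ a)) ∧
    Sym N 0 (fun L s => s / J L s) := by
  induction N with
  | zero =>
    constructor
    · intro a
      refine ⟨1, ?_⟩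
      filter_upwards [eventually_ge_atTop (1 : ℝ)] with L hL s
      rw [Real.norm_of_nonneg (Real.rpow_nonneg (J_nonneg _ _) _), one_mul]
    · refine ⟨1, ?_⟩
      filter_upwards [eventually_ge_atTop (1 : ℝ)] with L hL s
      rw [Real.rpow_zero, Real.norm_eq_abs, abs_div, abs_of_nonneg (J_nonneg L s), mul_one]
      exact div_le_one_of_le₀ (abs_le_J L s) (J_nonneg L s)
  | succ N ih =>
    obtain ⟨ih1, ih2⟩ := ih
    have hb : ∀ a : ℝ, Bd a (fun L s => J L s ^ a) := fun a => (ih1 a).bd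
    refine ⟨fun a => ⟨hb a, fun L s => a * (s / J L s) * J L s ^ (a - 1), ?_, ?_⟩,
      ⟨ih2.bd, fun L s => J L s ^ (-1 : ℝ) - (s / J L s) * (s / J L s) * J L s ^ (-1 : ℝ), ?_, ?_⟩⟩
    · filter_upwards [eventually_gt_atTop (0 : ℝ)] with L hL s
      exact hasDerivAt_J_rpow hL a s
    · have h1 := (ih2.const_mul a).mul (ih1 (a - 1))
      exact h1.mono (by linarith)
    · filter_upwards [eventually_gt_atTop (0 : ℝ)] with L hL s
      have hJ := J_pos hL s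
      have h1 : HasDerivAt (fun s => s / J L s)
          ((1 * J L s - s * (s / J L s)) / J L s ^ 2) s :=
        (hasDerivAt_id s).div (hasDerivAt_J hL s) hJ.ne'
      have h2 : (1 * J L s - s * (s / J L s)) / J L s ^ 2
          = J L s ^ (-1 : ℝ) - (s / J L s) * (s / J L s) * J L s ^ (-1 : ℝ) := by
        rw [Real.rpow_neg_one]
        field_simp
      rw [h2] at h1
      exact h1
    · have h1 := ih1 (-1)
      have h2 := (ih2.mul ih2).mul (ih1 (-1))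
      have h3 : Sym N 0 (fun L s => J L s ^ (-1 : ℝ)) := h1.mono (by norm_num)
      have h4 : Sym N 0 (fun L s => (s / J L s) * (s / J L s) * J L s ^ (-1 : ℝ)) :=
        h2.mono (by norm_num)
      exact h3.sub h4

lemma Sym.rpow (N : ℕ) (a : ℝ) : Sym N a (fun L s => J L s ^ a) := (Sym.rpow_aux N).1 a

lemma Sym.sdiv (N : ℕ) : Sym N 0 (fun L s => s / J L s) := (Sym.rpow_aux N).2

/-- reciprocal of a symbol bounded below. -/
lemma Sym.inv {N : ℕ} {h : ℝ → ℝ → ℝ} (hh : Sym N 0 h) {c : ℝ} (hc : 0 < c)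
    (hl : ∀ᶠ L in atTop, ∀ s, c ≤ h L s) : Sym N 0 (fun L s => (h L s)⁻¹) := by
  have hb : Bd 0 (fun L s => (h L s)⁻¹) := by
    refine ⟨c⁻¹, ?_⟩
    filter_upwards [hl] with L h1 s
    have h2 : 0 < h L s := lt_of_lt_of_le hc (h1 s)
    rw [Real.rpow_zero, mul_one, Real.norm_eq_abs, abs_of_pos (inv_pos.mpr h2)]
    exact inv_anti₀ hc (h1 s)
  induction N with
  | zero => exact hb
  | succ N ih =>
    have h0 := hh
    obtain ⟨h1, h', h2, h3⟩ := hh
    have h4 := ih h0.of_succ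
    refine ⟨hb, fun L s => - h' L s / (h L s) ^ 2, ?_, ?_⟩
    · filter_upwards [h2, hl] with L h5 h6 s
      exact (h5 s).inv (lt_of_lt_of_le hc (h6 s)).ne'
    · have h5 := ((h3.neg).mul (h4.mul h4)).mono (b := 0) (by norm_num)
      refine h5.congr (Eventually.of_forall fun L s => ?_)
      rw [div_eq_mul_inv, sq, mul_inv]

end classes

end EscapeTorus
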