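import Pool.Agent.EscapeTorus.Sym

/-! Symbols of all orders, compositions with bounded smooth functions and with inverse functions. -/

set_option linter.unusedSectionVars false

namespace EscapeTorus

open Filter Topology
open scoped ContDiff

section

variable {F G H P : Type} [NormedAddCommGroup F] [NormedSpace ℝ F]
  [NormedAddCommGroup G] [NormedSpace ℝ G] [NormedAddCommGroup H] [NormedSpace ℝ H]
  [NormedAddCommGroup P] [NormedSpace ℝ P]

/-- symbols of order `a`, all derivatives. -/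
def Sy (a : ℝ) (h : ℝ → ℝ → F) : Prop := ∀ N, Sym N a h

lemma Sy.bd {a : ℝ} {h : ℝ → ℝ → F} (hh : Sy a h) : Bd a h := (hh 0).bd

lemma Sy.congr {a : ℝ} {h k : ℝ → ℝ → F} (hh : Sy a h)
    (hk : ∀ᶠ L in atTop, ∀ s, h L s = k L s) : Sy a k := fun N => (hh N).congr hk

lemma Sy.congr' {a : ℝ} {h k : ℝ → ℝ → F} (hh : Sy a h)
    (hk : ∀ L s, h L s = k L s) : Sy a k := fun N => (hh N).congr (Eventually.of_forall hk)

lemma Sy.mono {a b : ℝ} {h : ℝ → ℝ → F} (hh : Sy a h) (hab : a ≤ b) : Sy b h :=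
  fun N => (hh N).mono hab

lemma Sy.deriv {a : ℝ} {h h' : ℝ → ℝ → F} (hh : Sy a h)
    (hd : ∀ᶠ L in atTop, ∀ s, HasDerivAt (h L) (h' L s) s) : Sy a h' :=
  fun N => (hh (N + 1)).deriv hd

lemma Sy.of_deriv {a : ℝ} {h h' : ℝ → ℝ → F} (hb : Bd a h)
    (hd : ∀ᶠ L in atTop, ∀ s, HasDerivAt (h L) (h' L s) s) (hh : Sy a h') : Sy a h := by
  intro N
  cases N with
  | zero => exact hb
  | succ N => exact ⟨hb, h', hd, hh N⟩

/-- a symbol has a derivative which is a symbol. -/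
lemma Sy.exists_deriv {a : ℝ} {h : ℝ → ℝ → F} (hh : Sy a h) :
    ∃ h' : ℝ → ℝ → F, (∀ᶠ L in atTop, ∀ s, HasDerivAt (h L) (h' L s) s) ∧ Sy a h' := by
  obtain ⟨_, h', hd, _⟩ := hh 1
  exact ⟨h', hd, hh.deriv hd⟩

lemma Sy.add {a : ℝ} {h k : ℝ → ℝ → F} (hh : Sy a h) (hk : Sy a k) :
    Sy a (fun L s => h L s + k L s) := fun N => (hh N).add (hk N)

lemma Sy.sub {a : ℝ} {h k : ℝ → ℝ → F} (hh : Sy a h) (hk : Sy a k) :
    Sy a (fun L s => h L s - k L s) := fun N => (hh N).sub (hk N)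

lemma Sy.neg {a : ℝ} {h : ℝ → ℝ → F} (hh : Sy a h) :
    Sy a (fun L s => - h L s) := fun N => (hh N).neg

lemma Sy.bilin (B : F →L[ℝ] G →L[ℝ] H) {a b : ℝ} {h : ℝ → ℝ → F} {k : ℝ → ℝ → G}
    (hh : Sy a h) (hk : Sy b k) : Sy (a + b) (fun L s => B (h L s) (k L s)) :=
  fun N => (hh N).bilin B (hk N)

lemma Sy.clm (T : F →L[ℝ] G) {a : ℝ} {h : ℝ → ℝ → F} (hh : Sy a h) :
    Sy a (fun L s => T (h L s)) := fun N => (hh N).clm T

lemma Sy.mul {a b : ℝ} {h k : ℝ → ℝ → ℝ} (hh : Sy a h) (hk : Sy b k) :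
    Sy (a + b) (fun L s => h L s * k L s) := fun N => (hh N).mul (hk N)

lemma Sy.smul {a b : ℝ} {h : ℝ → ℝ → ℝ} {k : ℝ → ℝ → F} (hh : Sy a h)
    (hk : Sy b k) : Sy (a + b) (fun L s => h L s • k L s) := fun N => (hh N).smul (hk N)

lemma Sy.apply {a b : ℝ} {h : ℝ → ℝ → F →L[ℝ] G} {k : ℝ → ℝ → F} (hh : Sy a h)
    (hk : Sy b k) : Sy (a + b) (fun L s => h L s (k L s)) := fun N => (hh N).apply (hk N)

lemma Sy.prodMk {a : ℝ} {h : ℝ → ℝ → F} {k : ℝ → ℝ → G} (hh : Sy a h)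
    (hk : Sy a k) : Sy a (fun L s => (h L s, k L s)) := fun N => (hh N).prodMk (hk N)

lemma Sy.const_smul {a : ℝ} (c : ℝ) {h : ℝ → ℝ → F} (hh : Sy a h) :
    Sy a (fun L s => c • h L s) := fun N => (hh N).const_smul c

lemma Sy.const_mul {a : ℝ} (c : ℝ) {h : ℝ → ℝ → ℝ} (hh : Sy a h) :
    Sy a (fun L s => c * h L s) := fun N => (hh N).const_mul c

lemma Sy.zero (a : ℝ) : Sy a (fun (_ : ℝ) (_ : ℝ) => (0 : F)) := fun N => Sym.zero N a

lemma Sy.const (c : F) : Sy 0 (fun (_ : ℝ) (_ : ℝ) => c) := fun N => Sym.const N c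

lemma Sy.rpow (a : ℝ) : Sy a (fun L s => J L s ^ a) := fun N => Sym.rpow N a

lemma Sy.sdiv : Sy 0 (fun L s => s / J L s) := fun N => Sym.sdiv N

lemma Sy.inv {h : ℝ → ℝ → ℝ} (hh : Sy 0 h) {c : ℝ} (hc : 0 < c)
    (hl : ∀ᶠ L in atTop, ∀ s, c ≤ h L s) : Sy 0 (fun L s => (h L s)⁻¹) :=
  fun N => (hh N).inv hc hl

/-- Smooth functions with all derivatives bounded. -/
def Bdd (K : P → G) : Prop :=
  ContDiff ℝ ∞ K ∧ ∀ n : ℕ, ∃ C : ℝ, ∀ p, ‖iteratedFDeriv ℝ n K p‖ ≤ C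

lemma Bdd.fderiv {K : P → G} (hK : Bdd K) : Bdd (fderiv ℝ K) := by
  refine ⟨hK.1.fderiv_right (by simp), fun n => ?_⟩
  obtain ⟨C, hC⟩ := hK.2 (n + 1)
  exact ⟨C, fun p => by rw [norm_iteratedFDeriv_fderiv]; exact hC p⟩

lemma Bdd.bound {K : P → G} (hK : Bdd K) : ∃ C : ℝ, ∀ p, ‖K p‖ ≤ C := by
  obtain ⟨C, hC⟩ := hK.2 0
  exact ⟨C, fun p => by simpa using hC p⟩

lemma Bdd.differentiable {K : P → G} (hK : Bdd K) : Differentiable ℝ K :=
  hK.1.differentiable (by simp)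

lemma Bdd.hasFDerivAt {K : P → G} (hK : Bdd K) (p : P) : HasFDerivAt K (_root_.fderiv ℝ K p) p :=
  (hK.differentiable p).hasFDerivAt

lemma Bdd.add {K M : P → G} (hK : Bdd K) (hM : Bdd M) : Bdd (fun p => K p + M p) := by
  refine ⟨hK.1.add hM.1, fun n => ?_⟩
  obtain ⟨C, hC⟩ := hK.2 n
  obtain ⟨D, hD⟩ := hM.2 n
  refine ⟨C + D, fun p => ?_⟩
  have h1 : iteratedFDeriv ℝ n (fun p => K p + M p) p
      = iteratedFDeriv ℝ n K p + iteratedFDeriv ℝ n M p := by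
    have := iteratedFDeriv_add_apply (x := p) (i := n)
      ((hK.1.of_le (by exact_mod_cast le_top)).contDiffAt)
      ((hM.1.of_le (by exact_mod_cast le_top)).contDiffAt)
    exact this
  rw [h1]
  exact (norm_add_le _ _).trans (add_le_add (hC p) (hD p))

lemma Bdd.clm (T : F →L[ℝ] G) {K : P → F} (hK : Bdd K) : Bdd (fun p => T (K p)) := by
  refine ⟨T.contDiff.comp hK.1, fun n => ?_⟩
  obtain ⟨C, hC⟩ := hK.2 n
  refine ⟨‖T‖ * C, fun p => ?_⟩
  have h1 : iteratedFDeriv ℝ n (T ∘ K) p = T.compContinuousMultilinearMap (iteratedFDeriv ℝ n K p) :=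
    T.iteratedFDeriv_comp_left (hK.1.contDiffAt) (by exact_mod_cast le_top)
  change ‖iteratedFDeriv ℝ n (T ∘ K) p‖ ≤ _
  rw [h1]
  calc _ ≤ ‖T‖ * ‖iteratedFDeriv ℝ n K p‖ :=
        T.norm_compContinuousMultilinearMap_le _
    _ ≤ _ := by gcongr; exact hC p

lemma Bdd.fderiv_apply {K : P → G} (hK : Bdd K) (v : P) :
    Bdd (fun p => _root_.fderiv ℝ K p v) :=
  hK.fderiv.clm (ContinuousLinearMap.apply ℝ G v)

lemma Sym.comp_bdd {N : ℕ} {c c' : ℝ → ℝ → P}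
    (hc : ∀ᶠ L in atTop, ∀ s, HasDerivAt (c L) (c' L s) s) (hc' : Sy 0 c') :
    ∀ {G : Type} [NormedAddCommGroup G] [NormedSpace ℝ G] {K : P → G}, Bdd K →
      Sym N 0 (fun L s => K (c L s)) := by
  induction N with
  | zero =>
    intro G _ _ K hK
    obtain ⟨C, hC⟩ := hK.bound
    exact ⟨C, Eventually.of_forall fun L s => by simpa using hC (c L s)⟩
  | succ N ih =>
    intro G _ _ K hK
    refine ⟨(ih hK).bd, fun L s => fderiv ℝ K (c L s) (c' L s), ?_, ?_⟩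
    · filter_upwards [hc] with L h1 s
      exact (hK.hasFDerivAt (c L s)).comp_hasDerivAt s (h1 s)
    · have h1 := (ih hK.fderiv).apply (hc' N)
      exact h1.mono (by norm_num)

lemma Sy.comp_bdd {c c' : ℝ → ℝ → P}
    (hc : ∀ᶠ L in atTop, ∀ s, HasDerivAt (c L) (c' L s) s) (hc' : Sy 0 c')
    {K : P → G} (hK : Bdd K) : Sy 0 (fun L s => K (c L s)) :=
  fun _ => Sym.comp_bdd hc hc' hK

lemma Sym.comp_sub {N : ℕ} {a : ℝ} (ha : a ≤ 0) {c c' d : ℝ → ℝ → P}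
    (hc : ∀ᶠ L in atTop, ∀ s, HasDerivAt (c L) (c' L s) s) (hc' : Sy 0 c')
    (hd : Sy a d) :
    ∀ {G : Type} [NormedAddCommGroup G] [NormedSpace ℝ G] {K : P → G}, Bdd K →
      Sym N a (fun L s => K (c L s + d L s) - K (c L s)) := by
  obtain ⟨d', hd1, hd2⟩ := hd.exists_deriv
  have hcd : ∀ᶠ L in atTop, ∀ s, HasDerivAt (fun s => c L s + d L s) (c' L s + d' L s) s := by
    filter_upwards [hc, hd1] with L h1 h2 s
    exact (h1 s).add (h2 s)
  have hcd' : Sy 0 (fun L s => c' L s + d' L s) := hc'.add (hd2.mono ha)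
  have hb : ∀ {G : Type} [NormedAddCommGroup G] [NormedSpace ℝ G] {K : P → G}, Bdd K →
      Bd a (fun L s => K (c L s + d L s) - K (c L s)) := by
    intro G _ _ K hK
    obtain ⟨C, hC⟩ := hK.fderiv.bound
    obtain ⟨D, hD⟩ := hd.bd
    refine ⟨|C| * D, ?_⟩
    filter_upwards [hD] with L h1 s
    have h2 : ‖K (c L s + d L s) - K (c L s)‖ ≤ |C| * ‖(c L s + d L s) - c L s‖ :=
      Convex.norm_image_sub_le_of_norm_fderiv_le (𝕜 := ℝ) (s := Set.univ)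
        (fun x _ => hK.differentiable x) (fun x _ => (hC x).trans (le_abs_self C))
        convex_univ (Set.mem_univ _) (Set.mem_univ _)
    rw [add_sub_cancel_left] at h2
    calc _ ≤ |C| * ‖d L s‖ := h2
      _ ≤ |C| * (D * J L s ^ a) := by gcongr; exact h1 s
      _ = _ := by ring
  induction N with
  | zero =>
    intro G _ _ K hK
    exact hb hK
  | succ N ih =>
    intro G _ _ K hK
    refine ⟨hb hK, fun L s => (fderiv ℝ K (c L s + d L s) - fderiv ℝ K (c L s)) (c' L s)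
      + fderiv ℝ K (c L s + d L s) (d' L s), ?_, ?_⟩
    · filter_upwards [hc, hcd] with L h1 h2 s
      have h3 := ((hK.hasFDerivAt (c L s + d L s)).comp_hasDerivAt s (h2 s)).sub
        ((hK.hasFDerivAt (c L s)).comp_hasDerivAt s (h1 s))
      have h4 : (fderiv ℝ K (c L s + d L s) - fderiv ℝ K (c L s)) (c' L s)
          + fderiv ℝ K (c L s + d L s) (d' L s)
          = fderiv ℝ K (c L s + d L s) (c' L s + d' L s) - fderiv ℝ K (c L s) (c' L s) := by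
        rw [map_add]
        change fderiv ℝ K (c L s + d L s) (c' L s) - fderiv ℝ K (c L s) (c' L s) + _ = _
        abel
      rw [h4]
      exact h3
    · have h1 := ((ih hK.fderiv).apply (hc' N)).mono (b := a) (by simp)
      have h2 := ((Sym.comp_bdd (N := N) hcd hcd' hK.fderiv).apply (hd2 N)).mono (b := a) (by simp)
      exact h1.add h2

lemma Sy.comp_sub {a : ℝ} (ha : a ≤ 0) {c c' d : ℝ → ℝ → P}
    (hc : ∀ᶠ L in atTop, ∀ s, HasDerivAt (c L) (c' L s) s) (hc' : Sy 0 c')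
    (hd : Sy a d) {K : P → G} (hK : Bdd K) :
    Sy a (fun L s => K (c L s + d L s) - K (c L s)) :=
  fun _ => Sym.comp_sub ha hc hc' hd hK

/-- composition with an inverse function close to the identity. -/
lemma J_comp_bound {Φ : ℝ → ℝ → ℝ} {C : ℝ} (hΦ : ∀ᶠ L in atTop, ∀ s, |Φ L s - s| ≤ C) :
    ∀ᶠ L in atTop, ∀ s, J L (Φ L s) ≤ 2 * J L s ∧ J L s ≤ 2 * J L (Φ L s) := by
  filter_upwards [hΦ, eventually_ge_atTop C, eventually_ge_atTop (1 : ℝ)] with L h1 h2 h3 s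
  have h4 := J_le_add L s (Φ L s)
  have h5 := J_le_add L (Φ L s) s
  rw [abs_sub_comm] at h5
  have h6 := h1 s
  have h7 := le_J L s
  have h8 := le_J L (Φ L s)
  constructor <;> linarith

lemma rpow_comp_bound {x y a : ℝ} (hx : 0 < x) (hy : 0 < y) (h1 : x ≤ 2 * y) (h2 : y ≤ 2 * x) :
    x ^ a ≤ 2 ^ |a| * y ^ a := by
  rcases le_total 0 a with ha | ha
  · rw [abs_of_nonneg ha, ← Real.mul_rpow (by norm_num) hy.le]
    exact Real.rpow_le_rpow hx.le h1 ha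
  · rw [abs_of_nonpos ha]
    have h3 : x ^ a ≤ (y / 2) ^ a :=
      Real.rpow_le_rpow_of_nonpos (by positivity) (by linarith) ha
    calc x ^ a ≤ (y / 2) ^ a := h3
      _ = y ^ a * (2 : ℝ)⁻¹ ^ a := by rw [div_eq_mul_inv, Real.mul_rpow hy.le (by norm_num)]
      _ = 2 ^ (-a) * y ^ a := by rw [Real.inv_rpow (by norm_num), Real.rpow_neg (by norm_num)]; ring

lemma Bd.comp_inv {a : ℝ} {h : ℝ → ℝ → F} (hh : Bd a h) {Φ : ℝ → ℝ → ℝ} {C : ℝ}
    (hΦ : ∀ᶠ L in atTop, ∀ s, |Φ L s - s| ≤ C) : Bd a (fun L s => h L (Φ L s)) := by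
  obtain ⟨D, hD⟩ := hh
  refine ⟨|D| * 2 ^ |a|, ?_⟩
  filter_upwards [hD, J_comp_bound hΦ, eventually_gt_atTop (0 : ℝ)] with L h1 h2 h3 s
  have h4 := J_pos h3 s
  have h5 := J_pos h3 (Φ L s)
  calc ‖h L (Φ L s)‖ ≤ D * J L (Φ L s) ^ a := h1 _
    _ ≤ |D| * J L (Φ L s) ^ a := by gcongr; exact le_abs_self D
    _ ≤ |D| * (2 ^ |a| * J L s ^ a) := by
        gcongr
        exact rpow_comp_bound h5 h4 (h2 s).1 (h2 s).2
    _ = _ := by ring

lemma Sym.comp_inv {N : ℕ} {a : ℝ} {Φ w : ℝ → ℝ → ℝ} {C : ℝ}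
    (hΦ : ∀ᶠ L in atTop, ∀ s, |Φ L s - s| ≤ C) (hw : Sy 0 w)
    (hΦ' : ∀ᶠ L in atTop, ∀ s, HasDerivAt (Φ L) (w L (Φ L s)) s) :
    ∀ {h : ℝ → ℝ → F}, Sy a h → Sym N a (fun L s => h L (Φ L s)) := by
  induction N with
  | zero => intro h hh; exact hh.bd.comp_inv hΦ
  | succ N ih =>
    intro h hh
    obtain ⟨h', hd, hh'⟩ := hh.exists_deriv
    refine ⟨hh.bd.comp_inv hΦ, fun L s => w L (Φ L s) • h' L (Φ L s), ?_, ?_⟩
    · filter_upwards [hd, hΦ'] with L h1 h2 s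
      exact (h1 (Φ L s)).scomp s (h2 s)
    · exact ih ((hw.smul hh').mono (by simp))

lemma Sy.comp_inv {a : ℝ} {Φ w : ℝ → ℝ → ℝ} {C : ℝ}
    (hΦ : ∀ᶠ L in atTop, ∀ s, |Φ L s - s| ≤ C) (hw : Sy 0 w)
    (hΦ' : ∀ᶠ L in atTop, ∀ s, HasDerivAt (Φ L) (w L (Φ L s)) s)
    {h : ℝ → ℝ → F} (hh : Sy a h) : Sy a (fun L s => h L (Φ L s)) :=
  fun _ => Sym.comp_inv hΦ hw hΦ' hh

lemma Sym.contDiff {N : ℕ} {a : ℝ} {h : ℝ → ℝ → F} (hh : Sym (N + 1) a h) :
    ∀ᶠ L in atTop, ContDiff ℝ N (h L) := by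
  induction N generalizing h with
  | zero =>
    obtain ⟨_, h', h2, _⟩ := hh
    filter_upwards [h2] with L h3
    have h4 : Continuous (h L) := continuous_iff_continuousAt.mpr fun s => (h3 s).continuousAt
    simpa using h4
  | succ N ih =>
    obtain ⟨_, h', h2, h3⟩ := hh
    filter_upwards [h2, ih h3] with L h4 h5
    have h6 : _root_.deriv (h L) = h' L := funext fun s => (h4 s).deriv
    have h7 : Differentiable ℝ (h L) := fun s => (h4 s).differentiableAt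
    rw [Nat.cast_add, Nat.cast_one]
    refine contDiff_succ_iff_deriv.mpr ⟨h7, ?_, ?_⟩
    · intro h8
      exact absurd h8 (by simp)
    · rw [h6]; exact h5

/-- Conversion to iterated Fréchet derivatives. -/
lemma Sym.iterated {N : ℕ} {a : ℝ} {h : ℝ → ℝ → F} (hh : Sym N a h) :
    ∃ C : ℝ, ∀ᶠ L in atTop, 
      ∀ i ≤ N, ∀ s, ‖iteratedFDeriv ℝ i (h L) s‖ ≤ C * J L s ^ a := by
  induction N generalizing h with
  | zero =>
    obtain ⟨C, hC⟩ := hh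
    refine ⟨C, ?_⟩
    filter_upwards [hC] with L h1
    intro i hi s
    obtain rfl : i = 0 := by omega
    simpa using h1 s
  | succ N ih =>
    obtain ⟨⟨C, hC⟩, h', h2, h3⟩ := hh
    obtain ⟨D, hD⟩ := ih h3
    refine ⟨max C D, ?_⟩
    filter_upwards [hC, h2, hD, eventually_gt_atTop (0 : ℝ)] with L h4 h5 h6 hL
    have hderiv : _root_.deriv (h L) = h' L := funext fun s => (h5 s).deriv
    intro i hi s
    have hJ : 0 ≤ J L s ^ a := Real.rpow_nonneg (J_nonneg _ _) _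
    cases i with
    | zero =>
      simp only [norm_iteratedFDeriv_zero]
      exact (h4 s).trans (by gcongr; exact le_max_left _ _)
    | succ i =>
      rw [norm_iteratedFDeriv_eq_norm_iteratedDeriv, iteratedDeriv_succ', hderiv,
        ← norm_iteratedFDeriv_eq_norm_iteratedDeriv]
      exact (h6 i (by omega) s).trans (by gcongr; exact le_max_right _ _)

lemma Sy.iterated {a : ℝ} {h : ℝ → ℝ → F} (hh : Sy a h) (N : ℕ) :
    ∃ C : ℝ, 0 ≤ C ∧ ∀ᶠ L in atTop, ContDiff ℝ N (h L) ∧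
      ∀ i ≤ N, ∀ s, ‖iteratedFDeriv ℝ i (h L) s‖ ≤ C * J L s ^ a := by
  obtain ⟨C, hC⟩ := (hh N).iterated
  refine ⟨|C|, abs_nonneg C, ?_⟩
  filter_upwards [hC, (hh (N + 1)).contDiff] with L h1 h2
  refine ⟨h2, fun i hi s => (h1 i hi s).trans ?_⟩
  have hJ : 0 ≤ J L s ^ a := Real.rpow_nonneg (J_nonneg _ _) _
  gcongr
  exact le_abs_self C

end

end EscapeTorus
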