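import Mathlib

/-! Uniform density of trigonometric polynomials among periodic continuous functions. -/

set_option linter.unusedSectionVars false

namespace EscapeTorus

open Filter Topology

lemma trig_dense_pi {d : Type} [Fintype d] (f : (d → ℝ) → ℝ) (hf : Continuous f)
    (hper : ∀ (y : d → ℝ) (m : d → ℤ), f (y + fun i => (m i : ℝ)) = f y) {ε : ℝ} (hε : 0 < ε) :
    ∃ (S : Finset (d → ℤ)) (c : (d → ℤ) → ℂ), ∀ y,
      ‖(f y : ℂ) - ∑ m ∈ S, c m * Complex.exp (Complex.I * ((2 * Real.pi * ∑ i, m i * y i : ℝ)))‖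
        ≤ ε := by
  let pm : (d → ℝ) → UnitAddTorus d := Pi.map (fun _ => (QuotientAddGroup.mk : ℝ → UnitAddCircle))
  have hpm : IsOpenQuotientMap pm := IsOpenQuotientMap.piMap fun _ =>
    QuotientAddGroup.isOpenQuotientMap_mk
  have hfac : ∀ y y', pm y = pm y' → f y = f y' := by
    intro y y' h
    have h1 : ∀ i, ∃ z : ℤ, (z : ℝ) = y' i - y i := by
      intro i
      have h2 : (QuotientAddGroup.mk (y i) : UnitAddCircle) = QuotientAddGroup.mk (y' i) :=
        congrFun h i
      rw [QuotientAddGroup.eq] at h2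
      obtain ⟨z, hz⟩ := AddSubgroup.mem_zmultiples_iff.mp h2
      exact ⟨z, by simpa [sub_eq_neg_add] using hz⟩
    choose m hm using h1
    have h3 : y' = y + fun i => (m i : ℝ) := by
      ext i; simp [hm i]
    rw [h3, hper]
  let Fl : UnitAddTorus d → ℂ := fun x => (f (Function.surjInv hpm.surjective x) : ℂ)
  have hFl : ∀ y, Fl (pm y) = f y := by
    intro y
    simp only [Fl]
    congr 1
    exact hfac _ _ (Function.surjInv_eq hpm.surjective _)
  have hFc : Continuous Fl := by
    rw [hpm.isQuotientMap.continuous_iff]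
    have : Fl ∘ pm = fun y => (f y : ℂ) := funext hFl
    rw [this]
    exact Complex.continuous_ofReal.comp hf
  let F : C(UnitAddTorus d, ℂ) := ⟨Fl, hFc⟩
  have hF : F ∈ (Submodule.span ℂ (Set.range <| UnitAddTorus.mFourier (d := d))).topologicalClosure := by
    rw [UnitAddTorus.span_mFourier_closure_eq_top]; trivial
  have hF2 : F ∈ closure ((Submodule.span ℂ (Set.range <| UnitAddTorus.mFourier (d := d)) :
      Submodule ℂ C(UnitAddTorus d, ℂ)) : Set C(UnitAddTorus d, ℂ)) := by
    rwa [← Submodule.topologicalClosure_coe]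
  obtain ⟨g, hg, hdist⟩ := Metric.mem_closure_iff.mp hF2 ε hε
  obtain ⟨c, hc⟩ := (Finsupp.mem_span_range_iff_exists_finsupp).mp hg
  refine ⟨c.support, c, fun y => ?_⟩
  have h1 : g (pm y) = ∑ m ∈ c.support,
      c m * Complex.exp (Complex.I * ((2 * Real.pi * ∑ i, m i * y i : ℝ))) := by
    rw [← hc, Finsupp.sum, ContinuousMap.sum_apply]
    apply Finset.sum_congr rfl
    intro m _
    rw [ContinuousMap.smul_apply, smul_eq_mul]
    congr 1
    have h2 : UnitAddTorus.mFourier m (pm y) = ∏ i, fourier (m i) ((y i : ℝ) : UnitAddCircle) := rfl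
    rw [h2]
    simp_rw [fourier_coe_apply]
    rw [← Complex.exp_sum]
    congr 1
    push_cast
    rw [Finset.mul_sum, Finset.mul_sum]
    apply Finset.sum_congr rfl
    intro i _
    ring
  rw [← h1, ← hFl y]
  have h3 := (ContinuousMap.dist_apply_le_dist (f := F) (g := g) (pm y)).trans hdist.le
  rwa [dist_eq_norm] at h3

/-- the real trigonometric monomial `Re (c e^{iΩ(p)})` -/
noncomputable def tt {P : Type} [NormedAddCommGroup P] [NormedSpace ℝ P] (c : ℂ) (Ω : P →L[ℝ] ℝ)
    (p : P) : ℝ := (c * Complex.exp (Complex.I * (Ω p : ℝ))).re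

end EscapeTorus
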