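import Pool.Agent.EscapeTorus.Density
import Pool.Agent.EscapeTorus.AvgPath

/-! Averaging data for trigonometric polynomials. -/

set_option linter.unusedSectionVars false

namespace EscapeTorus

open Filter Topology
open scoped ContDiff

section ttP

variable {P : Type} [NormedAddCommGroup P] [NormedSpace ℝ P]

lemma tt_contDiff (c : ℂ) (Ω : P →L[ℝ] ℝ) : ContDiff ℝ ∞ (tt c Ω) :=
  Complex.reCLM.contDiff.comp (contDiff_const.mul
    ((contDiff_const.mul (Complex.ofRealCLM.contDiff.comp Ω.contDiff)).cexp))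

lemma norm_iter_clm {F G : Type} [NormedAddCommGroup F] [NormedSpace ℝ F] [NormedAddCommGroup G]
    [NormedSpace ℝ G] (T : F →L[ℝ] G) {K : P → F} (hK : ContDiff ℝ ∞ K) (n : ℕ) (p : P) :
    ‖iteratedFDeriv ℝ n (fun p => T (K p)) p‖ ≤ ‖T‖ * ‖iteratedFDeriv ℝ n K p‖ := by
  have h1 : iteratedFDeriv ℝ n (T ∘ K) p = T.compContinuousMultilinearMap (iteratedFDeriv ℝ n K p) :=
    T.iteratedFDeriv_comp_left (hK.contDiffAt) (by exact_mod_cast le_top)
  change ‖iteratedFDeriv ℝ n (T ∘ K) p‖ ≤ _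
  rw [h1]
  exact T.norm_compContinuousMultilinearMap_le _

lemma tt_bdd (c : ℂ) (Ω : P →L[ℝ] ℝ) : Bdd (tt c Ω) := by
  refine ⟨tt_contDiff c Ω, fun n => ?_⟩
  induction n generalizing c with
  | zero => exact ⟨‖c‖, fun p => by simpa using tt_bound c Ω p⟩
  | succ n ih =>
    obtain ⟨C, hC⟩ := ih (Complex.I * c)
    refine ⟨‖(ContinuousLinearMap.id ℝ ℝ).smulRight Ω‖ * C, fun p => ?_⟩
    rw [← norm_iteratedFDeriv_fderiv]
    have h1 : fderiv ℝ (tt c Ω) = fun p => (ContinuousLinearMap.id ℝ ℝ).smulRight Ω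
        (tt (Complex.I * c) Ω p) := by
      ext1 p
      rw [(tt_hasFDerivAt c Ω p).fderiv]
      rfl
    rw [h1]
    refine (norm_iter_clm _ (tt_contDiff _ _) n p).trans ?_
    gcongr
    exact hC p

end ttP

section avg

variable {E G : Type} [NormedAddCommGroup E] [NormedSpace ℝ E]
  [NormedAddCommGroup G] [NormedSpace ℝ G]

lemma De_add (e : E) {K K' : E × ℝ → G} (hK : Bdd K) (hK' : Bdd K') :
    De e (fun p => K p + K' p) = fun p => De e K p + De e K' p := by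
  ext1 p
  simp only [De]
  have := ((hK.hasFDerivAt p).add (hK'.hasFDerivAt p)).fderiv
  have h2 : fderiv ℝ (fun p => K p + K' p) p = fderiv ℝ K p + fderiv ℝ K' p := this
  rw [h2]; rfl

lemma Dt_add {K K' : E × ℝ → G} (hK : Bdd K) (hK' : Bdd K') :
    Dt (fun p => K p + K' p) = fun p => Dt K p + Dt K' p := by
  ext1 p
  simp only [Dt]
  have := ((hK.hasFDerivAt p).add (hK'.hasFDerivAt p)).fderiv
  have h2 : fderiv ℝ (fun p => K p + K' p) p = fderiv ℝ K p + fderiv ℝ K' p := this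
  rw [h2]; rfl

/-- averaging data exist -/
def HasAvg (e : E) (g : E × ℝ → G) : Prop := Bdd g ∧ Nonempty (AvgData e g)

lemma HasAvg.add {e : E} {g g' : E × ℝ → G} (h : HasAvg e g) (h' : HasAvg e g') :
    HasAvg e (fun p => g p + g' p) := by
  obtain ⟨b, ⟨D⟩⟩ := h
  obtain ⟨b', ⟨D'⟩⟩ := h'
  refine ⟨b.add b', ⟨⟨fun p => D.H1 p + D'.H1 p, fun p => D.K p + D'.K p, D.bH1.add D'.bH1,
    D.bK.add D'.bK, ?_, ?_⟩⟩⟩
  · intro p
    rw [De_add e D.bH1 D'.bH1, De_add e (D.bH1.De e) (D'.bH1.De e)]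
    simp only [D.h2, D'.h2]
  · intro p
    rw [De_add e D.bH1 D'.bH1, Dt_add (D.bH1.De e) (D'.bH1.De e), Dt_add D.bH1 D'.bH1,
      De_add e D.bH1.Dt D'.bH1.Dt, De_add e D.bK D'.bK, De_add e (D.bK.De e) (D'.bK.De e)]
    simp only
    rw [smul_add, ← D.hcross, ← D'.hcross]
    abel

lemma bdd_const_zero : Bdd (fun _ : E × ℝ => (0 : G)) := by
  refine ⟨contDiff_const, fun n => ⟨0, fun p => ?_⟩⟩
  simp

lemma De_zero (e : E) : De e (fun _ : E × ℝ => (0 : G)) = fun _ => 0 := by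
  ext1 p; simp [De]

lemma Dt_zero : Dt (fun _ : E × ℝ => (0 : G)) = fun _ => 0 := by
  ext1 p; simp [Dt]

lemma HasAvg.zero (e : E) : HasAvg e (fun _ : E × ℝ => (0 : G)) := by
  refine ⟨bdd_const_zero, ⟨⟨fun _ => 0, fun _ => 0, bdd_const_zero, bdd_const_zero, ?_, ?_⟩⟩⟩
  · intro p; simp only [De_zero]
  · intro p; simp only [De_zero, Dt_zero, smul_zero, add_zero]

lemma HasAvg.sum {ι : Type} (e : E) (S : Finset ι) (g : ι → E × ℝ → G)
    (h : ∀ i ∈ S, HasAvg e (g i)) : HasAvg e (fun p => ∑ i ∈ S, g i p) := by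
  classical
  induction S using Finset.induction_on with
  | empty => simpa using HasAvg.zero e
  | insert a s ha ih =>
    have h1 := (h a (Finset.mem_insert_self _ _)).add
      (ih fun i hi => h i (Finset.mem_insert_of_mem hi))
    refine cast ?_ h1
    congr 1
    ext1 p
    rw [Finset.sum_insert ha]

/-- a single wave -/
noncomputable def wave (c : ℂ) (Ω : E × ℝ →L[ℝ] ℝ) (v : G) (p : E × ℝ) : G := tt c Ω p • v

lemma wave_bdd (c : ℂ) (Ω : E × ℝ →L[ℝ] ℝ) (v : G) : Bdd (wave c Ω v) :=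
  (tt_bdd c Ω).clm ((ContinuousLinearMap.id ℝ ℝ).smulRight v)

lemma wave_fderiv (c : ℂ) (Ω : E × ℝ →L[ℝ] ℝ) (v : G) (p w : E × ℝ) :
    fderiv ℝ (wave c Ω v) p w = wave (Complex.I * c) Ω (Ω w • v) p := by
  have h1 := ((tt_hasFDerivAt c Ω p).smul_const v).fderiv
  have h2 : fderiv ℝ (wave c Ω v) p = (tt (Complex.I * c) Ω p • Ω).smulRight v := h1
  rw [h2]
  simp only [wave, ContinuousLinearMap.smulRight_apply, smul_apply, smul_eq_mul,
    smul_smul]

lemma wave_De (e : E) (c : ℂ) (Ω : E × ℝ →L[ℝ] ℝ) (v : G) :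
    De e (wave c Ω v) = wave (Complex.I * c) Ω (Ω (e, 0) • v) := by
  ext1 p; exact wave_fderiv c Ω v p _

lemma wave_Dt (c : ℂ) (Ω : E × ℝ →L[ℝ] ℝ) (v : G) :
    Dt (wave c Ω v) = wave (Complex.I * c) Ω (Ω (0, 1) • v) := by
  ext1 p; exact wave_fderiv c Ω v p _

lemma wave_II (c : ℂ) (Ω : E × ℝ →L[ℝ] ℝ) (v : G) (p : E × ℝ) :
    wave (Complex.I * (Complex.I * c)) Ω v p = - wave c Ω v p := by
  have : Complex.I * (Complex.I * c) = -c := by
    rw [← mul_assoc, Complex.I_mul_I]; ring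
  rw [this]
  simp only [wave, tt, neg_mul, Complex.neg_re, neg_smul]

lemma wave_smul (c : ℂ) (Ω : E × ℝ →L[ℝ] ℝ) (r : ℝ) (v : G) (p : E × ℝ) :
    wave c Ω (r • v) p = r • wave c Ω v p := by
  simp only [wave]; rw [smul_comm]

lemma wave_hasAvg (e : E) (c : ℂ) (Ω : E × ℝ →L[ℝ] ℝ) (v : G) (h : Ω (e, 0) ≠ 0) :
    HasAvg e (wave c Ω v) := by
  set a := Ω (e, 0) with ha
  set bt := Ω (0, 1) with hbt
  refine ⟨wave_bdd _ _ _, ⟨⟨wave c Ω ((-(1 / a ^ 2)) • v), wave c Ω ((-(bt / a ^ 3)) • v),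
    wave_bdd _ _ _, wave_bdd _ _ _, ?_, ?_⟩⟩⟩
  · intro p
    rw [wave_De, wave_De, wave_II, ← ha]
    simp only [smul_smul]
    rw [wave_smul, ← neg_smul]
    have : -(a * (a * -(1 / a ^ 2))) = 1 := by field_simp
    rw [this, one_smul]
  · intro p
    rw [wave_De, wave_Dt, wave_Dt, wave_De, wave_De, wave_De, wave_II, wave_II, wave_II, ← ha, ← hbt]
    simp only [smul_smul]
    rw [wave_smul, wave_smul, wave_smul, ← neg_smul, ← neg_smul, ← neg_smul, ← add_smul, smul_smul]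
    congr 1
    field_simp
    ring

end avg

/-- spatial differential of a trigonometric polynomial -/
lemma Dx_trig {n : ℕ} (S : Finset ((Fin n → ℤ) × ℤ)) (c : ((Fin n → ℤ) × ℤ) → ℂ) (p : PP n) :
    Dx (fun p => ∑ M ∈ S, tt (c M) (Om n M) p) p =
      ∑ M ∈ S, wave (Complex.I * c M) (Om n M)
        ((Om n M).comp (ContinuousLinearMap.inl ℝ (EuclideanSpace ℝ (Fin n)) ℝ)) p := by
  have h1 : HasFDerivAt (fun p => ∑ M ∈ S, tt (c M) (Om n M) p)
      (∑ M ∈ S, tt (Complex.I * c M) (Om n M) p • Om n M) p := by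
    apply HasFDerivAt.fun_sum
    intro M _
    exact tt_hasFDerivAt _ _ _
  unfold Dx
  rw [h1.fderiv]
  ext v
  simp [wave]

theorem trig_hasAvg {n : ℕ} (S : Finset ((Fin n → ℤ) × ℤ)) (c : ((Fin n → ℤ) × ℤ) → ℂ)
    (e : EuclideanSpace ℝ (Fin n)) (he : ∀ M ∈ S, M.1 ≠ 0 → ∑ i, (M.1 i : ℝ) * e i ≠ 0) :
    HasAvg e (Dx (fun p => ∑ M ∈ S, tt (c M) (Om n M) p)) := by
  have h0 : Dx (fun p => ∑ M ∈ S, tt (c M) (Om n M) p) = fun p =>
      ∑ M ∈ S, wave (Complex.I * c M) (Om n M)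
        ((Om n M).comp (ContinuousLinearMap.inl ℝ (EuclideanSpace ℝ (Fin n)) ℝ)) p :=
    funext fun p => Dx_trig S c p
  rw [h0]
  apply HasAvg.sum
  intro M hM
  by_cases h : M.1 = 0
  · have h1 : (Om n M).comp (ContinuousLinearMap.inl ℝ (EuclideanSpace ℝ (Fin n)) ℝ) = 0 := by
      ext v
      simp [Om_apply, h]
    rw [h1]
    have h2 : (wave (Complex.I * c M) (Om n M) (0 : EuclideanSpace ℝ (Fin n) →L[ℝ] ℝ))
        = fun _ => 0 := by ext1 p; simp [wave]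
    rw [h2]
    exact HasAvg.zero e
  · apply wave_hasAvg
    rw [Om_apply]
    have h1 := he M hM h
    simp only [mul_zero, add_zero]
    exact mul_ne_zero (by positivity) h1

end EscapeTorus
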