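import Pool.Agent.EscapeTorus.Base

/-! The tube potential and its derivative bounds. -/

set_option linter.unusedSectionVars false

namespace EscapeTorus

open Filter Topology
open scoped ContDiff

section weighted

variable {P F G H : Type} [NormedAddCommGroup P] [NormedSpace ℝ P]
  [NormedAddCommGroup F] [NormedSpace ℝ F]
  [NormedAddCommGroup G] [NormedSpace ℝ G] [NormedAddCommGroup H] [NormedSpace ℝ H]

/-- Weighted Leibniz bound. -/
lemma bilin_bound (B : F →L[ℝ] G →L[ℝ] H) (hB : ‖B‖ ≤ 1) {N : ℕ} {f : P → F} {g : P → G}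
    (hf : ContDiff ℝ N f) (hg : ContDiff ℝ N g) {p : P} {n : ℕ} (hn : n ≤ N) {a b D : ℝ}
    (hfa : ∀ i ≤ n, ‖iteratedFDeriv ℝ i f p‖ ≤ a * D ^ i)
    (hgb : ∀ i ≤ n, ‖iteratedFDeriv ℝ i g p‖ ≤ b * D ^ i) :
    ‖iteratedFDeriv ℝ n (fun y => B (f y) (g y)) p‖ ≤ 2 ^ n * (a * b) * D ^ n := by
  have h1 := B.norm_iteratedFDeriv_le_of_bilinear_of_le_one hf hg p (n := n)
    (by exact_mod_cast hn) hB
  refine h1.trans ?_
  have h2 : ∑ i ∈ Finset.range (n + 1), (n.choose i : ℝ) * ‖iteratedFDeriv ℝ i f p‖ *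
      ‖iteratedFDeriv ℝ (n - i) g p‖ ≤ ∑ i ∈ Finset.range (n + 1), (n.choose i : ℝ) *
        ((a * b) * D ^ n) := by
    apply Finset.sum_le_sum
    intro i hi
    have hi' : i ≤ n := by simpa [Nat.lt_succ_iff] using hi
    have h3 := hfa i hi'
    have h4 := hgb (n - i) (Nat.sub_le _ _)
    have h5 : ‖iteratedFDeriv ℝ i f p‖ * ‖iteratedFDeriv ℝ (n - i) g p‖
        ≤ (a * D ^ i) * (b * D ^ (n - i)) :=
      mul_le_mul h3 h4 (norm_nonneg _) ((norm_nonneg _).trans h3)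
    have h6 : (a * D ^ i) * (b * D ^ (n - i)) = (a * b) * D ^ n := by
      have : D ^ n = D ^ i * D ^ (n - i) := by rw [← pow_add]; congr 1; omega
      rw [this]; ring
    rw [h6] at h5
    rw [mul_assoc]
    gcongr
  refine h2.trans ?_
  rw [← Finset.sum_mul]
  have h7 : ∑ i ∈ Finset.range (n + 1), (n.choose i : ℝ) = 2 ^ n := by
    exact_mod_cast Nat.sum_range_choose n
  rw [h7]
  linarith

/-- Weighted Leibniz bound for scalar multiplication. -/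
lemma smul_bound {N : ℕ} {f : P → ℝ} {g : P → G}
    (hf : ContDiff ℝ N f) (hg : ContDiff ℝ N g) {p : P} {n : ℕ} (hn : n ≤ N) {a b D : ℝ}
    (hfa : ∀ i ≤ n, ‖iteratedFDeriv ℝ i f p‖ ≤ a * D ^ i)
    (hgb : ∀ i ≤ n, ‖iteratedFDeriv ℝ i g p‖ ≤ b * D ^ i) :
    ‖iteratedFDeriv ℝ n (fun y => f y • g y) p‖ ≤ 2 ^ n * (a * b) * D ^ n :=
  bilin_bound (ContinuousLinearMap.lsmul ℝ ℝ : ℝ →L[ℝ] G →L[ℝ] G)
    ContinuousLinearMap.opNorm_lsmul_le hf hg hn hfa hgb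

/-- composition with a linear functional of norm at most one -/
lemma iter_comp_clm (T : P →L[ℝ] ℝ) (hT : ‖T‖ ≤ 1) {N : ℕ} {h : ℝ → G} (hh : ContDiff ℝ N h)
    {i : ℕ} (hi : i ≤ N) (p : P) :
    ‖iteratedFDeriv ℝ i (fun p => h (T p)) p‖ ≤ ‖iteratedFDeriv ℝ i h (T p)‖ := by
  have h1 : iteratedFDeriv ℝ i (h ∘ T) p =
      (iteratedFDeriv ℝ i h (T p)).compContinuousLinearMap fun _ => T :=
    T.iteratedFDeriv_comp_right hh p (by exact_mod_cast hi)
  change ‖iteratedFDeriv ℝ i (h ∘ T) p‖ ≤ _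
  rw [h1]
  refine (ContinuousMultilinearMap.norm_compContinuousLinearMap_le _ _).trans ?_
  rw [Finset.prod_const, Finset.card_univ, Fintype.card_fin]
  exact mul_le_of_le_one_right (norm_nonneg _) (pow_le_one₀ (norm_nonneg _) hT)

end weighted

section cutoff

variable {E : Type} [NormedAddCommGroup E] [InnerProductSpace ℝ E] [FiniteDimensional ℝ E]

/-- squared euclidean norm on `E × ℝ` -/
noncomputable def qf (ψ : E × ℝ) : ℝ := ‖ψ.1‖ ^ 2 + ψ.2 ^ 2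

lemma qf_nonneg (ψ : E × ℝ) : 0 ≤ qf ψ := by unfold qf; positivity

lemma qf_zero : qf (0 : E × ℝ) = 0 := by simp [qf]

lemma contDiff_qf : ContDiff ℝ ∞ (qf : E × ℝ → ℝ) :=
  (contDiff_fst.norm_sq ℝ).add (contDiff_snd.pow 2)

lemma norm_le_of_qf_le {ψ : E × ℝ} (h : qf ψ ≤ 1) : ‖ψ‖ ≤ 1 := by
  unfold qf at h
  rw [Prod.norm_def]
  apply max_le
  · exact abs_le_one_iff_mul_self_le_one.mpr (by nlinarith [sq_nonneg ψ.2]) |>.trans' (le_abs_self _)
  · rw [Real.norm_eq_abs]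
    exact abs_le_one_iff_mul_self_le_one.mpr (by nlinarith [sq_nonneg ‖ψ.1‖])

/-- cut-off -/
noncomputable def hfun (ψ : E × ℝ) : E × ℝ := Real.smoothTransition (1 - qf ψ) • ψ

lemma hfun_contDiff : ContDiff ℝ ∞ (hfun : E × ℝ → E × ℝ) :=
  (Real.smoothTransition.contDiff.comp (contDiff_const.sub contDiff_qf)).smul contDiff_id

lemma hfun_zero : hfun (0 : E × ℝ) = 0 := by simp [hfun]

lemma hfun_eq_zero {ψ : E × ℝ} (h : 1 ≤ qf ψ) : hfun ψ = 0 := by
  unfold hfun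
  rw [Real.smoothTransition.zero_of_nonpos (by linarith), zero_smul]

lemma hfun_compact : HasCompactSupport (hfun : E × ℝ → E × ℝ) := by
  refine HasCompactSupport.intro (isCompact_closedBall (0 : E × ℝ) 1) ?_
  intro x hx
  apply hfun_eq_zero
  by_contra h
  push Not at h
  exact hx (by simpa using norm_le_of_qf_le h.le)

lemma bdd_of_compact {P G : Type} [NormedAddCommGroup P] [NormedSpace ℝ P]
    [NormedAddCommGroup G] [NormedSpace ℝ G] {f : P → G} (hf : ContDiff ℝ ∞ f)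
    (hc : HasCompactSupport f) : Bdd f := by
  refine ⟨hf, fun n => ?_⟩
  have h1 : HasCompactSupport (iteratedFDeriv ℝ n f) := hc.iteratedFDeriv n
  have h2 : Continuous (iteratedFDeriv ℝ n f) :=
    hf.continuous_iteratedFDeriv (by exact_mod_cast le_top)
  obtain ⟨C, hC⟩ := h2.bounded_above_of_compact_support h1
  exact ⟨C, hC⟩

lemma hfun_bdd : Bdd (hfun : E × ℝ → E × ℝ) := bdd_of_compact hfun_contDiff hfun_compact

lemma hfun_hasFDerivAt_zero : HasFDerivAt (hfun : E × ℝ → E × ℝ)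
    (ContinuousLinearMap.id ℝ (E × ℝ)) 0 := by
  have h1 : HasFDerivAt (fun ψ : E × ℝ => Real.smoothTransition (1 - qf ψ))
      (fderiv ℝ (fun ψ : E × ℝ => Real.smoothTransition (1 - qf ψ)) 0) 0 := by
    apply DifferentiableAt.hasFDerivAt
    have h0 : ContDiff ℝ ∞ (fun ψ : E × ℝ => Real.smoothTransition (1 - qf ψ)) :=
      Real.smoothTransition.contDiff.comp (contDiff_const.sub contDiff_qf)
    exact h0.differentiable (by simp) 0
  have h2 := h1.smul (hasFDerivAt_id (𝕜 := ℝ) (0 : E × ℝ))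
  refine HasFDerivAt.congr_fderiv (f := hfun) h2 ?_
  ext ψ <;> simp [qf_zero, Real.smoothTransition.one]

end cutoff

section tube

variable {P : Type} [NormedAddCommGroup P] [NormedSpace ℝ P]

/-- rescaled tube coordinate -/
noncomputable def Psi (ρ : ℝ) (ell : P →L[ℝ] ℝ) (Γ : ℝ → ℝ → P) (L : ℝ) (p : P) : P :=
  J L (ell p) ^ ρ • (p - Γ L (ell p))

/-- tube potential with longitudinal cut-off `θ` -/
noncomputable def Gtube (h : P → P) (ρ : ℝ) (ell : P →L[ℝ] ℝ) (Γ : ℝ → ℝ → P)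
    (A : ℝ → ℝ → (P →L[ℝ] ℝ)) (θ : ℝ → ℝ) (L : ℝ) (p : P) : ℝ :=
  (θ (ell p) • (J L (ell p) ^ (-ρ) • A L (ell p))) (h (Psi ρ ell Γ L p))

variable {h : P → P} {ρ α : ℝ} {ell : P →L[ℝ] ℝ} {Γ Γ' : ℝ → ℝ → P} {A : ℝ → ℝ → (P →L[ℝ] ℝ)}

lemma iteratedFDeriv_id_le {n : ℕ}
    (hn : 1 ≤ n) (p : P) : ‖iteratedFDeriv ℝ n (fun p : P => p) p‖ ≤ 1 := by
  obtain ⟨m, rfl⟩ : ∃ m, n = m + 1 := ⟨n - 1, by omega⟩
  rw [← norm_iteratedFDeriv_fderiv]
  have h1 : fderiv ℝ (fun p : P => p) = fun _ => ContinuousLinearMap.id ℝ P := by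
    ext1 x; exact fderiv_fun_id
  rw [h1]
  cases m with
  | zero => simpa using ContinuousLinearMap.norm_id_le
  | succ m => rw [iteratedFDeriv_const_of_ne (by omega)]; simp

/-- bounds for the rescaled coordinate in the tube -/
lemma Psi_bound (hρ : 0 ≤ ρ) (hell : ‖ell‖ ≤ 1)
    (hΓ : ∀ᶠ L in atTop, ∀ s, HasDerivAt (Γ L) (Γ' L s) s) (hΓ' : Sy 0 Γ') (N : ℕ) :
    ∃ C : ℝ, 1 ≤ C ∧ ∀ᶠ L in atTop, ContDiff ℝ N (Psi ρ ell Γ L) ∧
      ∀ p, ‖Psi ρ ell Γ L p‖ ≤ 1 → ∀ n, 1 ≤ n → n ≤ N →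
        ‖iteratedFDeriv ℝ n (Psi ρ ell Γ L) p‖ ≤ (C * J L (ell p) ^ ρ) ^ n := by
  obtain ⟨C1, hC1, h1⟩ := (Sy.rpow ρ).iterated N
  obtain ⟨C2, hC2, h2⟩ := hΓ'.iterated N
  refine ⟨2 * ((C1 + 1) * (C2 + 2)), by nlinarith, ?_⟩
  filter_upwards [h1, h2, hΓ, eventually_ge_atTop (1 : ℝ)] with L h3 h4 h5 hL
  have hderiv : deriv (Γ L) = Γ' L := funext fun s => (h5 s).deriv
  have hdiff : Differentiable ℝ (Γ L) := fun s => (h5 s).differentiableAt
  have hΓc : ContDiff ℝ N (Γ L) := by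
    have : ContDiff ℝ (N + 1) (Γ L) := by
      refine contDiff_succ_iff_deriv.mpr ⟨hdiff, fun h => absurd h (by simp), ?_⟩
      rw [hderiv]; exact h4.1
    exact this.of_le (by exact_mod_cast Nat.le_succ N)
  have hR : ContDiff ℝ N (fun p : P => J L (ell p) ^ ρ) :=
    h3.1.comp ell.contDiff
  have hS : ContDiff ℝ N (fun p : P => p - Γ L (ell p)) :=
    contDiff_id.sub (hΓc.comp ell.contDiff)
  refine ⟨hR.smul hS, ?_⟩
  intro p hp n hn1 hn
  set σ := ell p with hσ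
  have hJ1 : 1 ≤ J L σ := one_le_J hL σ
  have hJ0 : 0 < J L σ := by linarith
  set D := J L σ ^ ρ with hD
  have hD1 : 1 ≤ D := Real.one_le_rpow hJ1 hρ
  have hD0 : 0 < D := by linarith
  have hpp : ‖p - Γ L σ‖ ≤ D⁻¹ := by
    have h6 := hp
    unfold Psi at h6
    rw [norm_smul, Real.norm_of_nonneg hD0.le] at h6
    rw [← one_div, le_div_iff₀ hD0]
    linarith [mul_comm D ‖p - Γ L σ‖]
  have hb := smul_bound hR hS (p := p) hn (a := (C1 + 1) * D)
    (b := (C2 + 2) * D⁻¹) (D := D) ?_ ?_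
  · change ‖iteratedFDeriv ℝ n (fun y => J L (ell y) ^ ρ • (y - Γ L (ell y))) p‖ ≤ _
    refine hb.trans ?_
    have h7 : (C1 + 1) * D * ((C2 + 2) * D⁻¹) = (C1 + 1) * (C2 + 2) := by
      field_simp
    rw [h7, mul_pow, mul_pow]
    have h8 : 1 ≤ (C1 + 1) * (C2 + 2) := by nlinarith
    have h9 : (C1 + 1) * (C2 + 2) ≤ ((C1 + 1) * (C2 + 2)) ^ n :=
      le_self_pow₀ h8 (by omega)
    gcongr
  · intro i hi
    refine (iter_comp_clm ell hell h3.1 (hi.trans hn) p).trans ?_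
    refine (h3.2 i (hi.trans hn) _).trans ?_
    have h8 : 1 ≤ D ^ i := one_le_pow₀ hD1
    have h9 : 0 ≤ C1 * D := by positivity
    calc C1 * D ≤ (C1 + 1) * D := by nlinarith
      _ ≤ (C1 + 1) * D * D ^ i := le_mul_of_one_le_right (by positivity) h8
  · intro i hi
    rcases Nat.eq_zero_or_pos i with h0 | h0
    · subst h0
      simp only [norm_iteratedFDeriv_zero, pow_zero, mul_one]
      change ‖p - Γ L σ‖ ≤ _
      refine hpp.trans ?_
      exact le_mul_of_one_le_left (by positivity) (by linarith)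
    · have h10 : iteratedFDeriv ℝ i (fun p : P => p - Γ L (ell p)) p
          = iteratedFDeriv ℝ i (fun p : P => p) p
            - iteratedFDeriv ℝ i (fun p : P => Γ L (ell p)) p := by
        have hle : (i : WithTop ℕ∞) ≤ (N : WithTop ℕ∞) := by exact_mod_cast hi.trans hn
        have := iteratedFDeriv_sub_apply (𝕜 := ℝ) (i := i) (x := p) (f := fun p : P => p)
          (g := fun p : P => Γ L (ell p))
          (contDiff_id.contDiffAt) ((hΓc.comp ell.contDiff).of_le hle).contDiffAt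
        exact this
      rw [h10]
      have h11 : ‖iteratedFDeriv ℝ i (fun p : P => Γ L (ell p)) p‖ ≤ C2 := by
        refine (iter_comp_clm ell hell hΓc (hi.trans hn) p).trans ?_
        obtain ⟨j, rfl⟩ : ∃ j, i = j + 1 := ⟨i - 1, by omega⟩
        rw [norm_iteratedFDeriv_eq_norm_iteratedDeriv, iteratedDeriv_succ', hderiv,
          ← norm_iteratedFDeriv_eq_norm_iteratedDeriv]
        have := h4.2 j (by omega) (ell p)
        simpa using this
      have h12 := iteratedFDeriv_id_le h0 p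
      have h13 : D⁻¹ * D ^ i = D ^ (i - 1) := by
        obtain ⟨j, rfl⟩ : ∃ j, i = j + 1 := ⟨i - 1, by omega⟩
        rw [pow_succ]; field_simp; simp
      have h14 : 1 ≤ D ^ (i - 1) := one_le_pow₀ hD1
      calc _ ≤ ‖iteratedFDeriv ℝ i (fun p : P => p) p‖
            + ‖iteratedFDeriv ℝ i (fun p : P => Γ L (ell p)) p‖ := norm_sub_le _ _
        _ ≤ 1 + C2 := add_le_add h12 h11
        _ ≤ (C2 + 2) * 1 := by linarith
        _ ≤ (C2 + 2) * D ^ (i - 1) := by gcongr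
        _ = (C2 + 2) * D⁻¹ * D ^ i := by rw [mul_assoc, h13]

/-- outside of the tube the potential vanishes locally -/
lemma Gtube_eventually_zero (hh0 : ∀ ψ : P, 1 < ‖ψ‖ → h ψ = 0) {θ : ℝ → ℝ} {L : ℝ}
    (hc : Continuous (Psi ρ ell Γ L)) {p : P} (hp : 1 < ‖Psi ρ ell Γ L p‖) :
    Gtube h ρ ell Γ A θ L =ᶠ[𝓝 p] fun _ => 0 := by
  have hcont : ContinuousAt (fun p => ‖Psi ρ ell Γ L p‖) p := hc.norm.continuousAt
  filter_upwards [hcont.eventually (eventually_gt_nhds hp)] with y hy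
  unfold Gtube
  rw [hh0 _ hy, map_zero]

/-- bounds for the tube potential -/
theorem Gtube_bound (hh : Bdd h) (hh0 : ∀ ψ : P, 1 < ‖ψ‖ → h ψ = 0) (hρ : 0 ≤ ρ) (hell : ‖ell‖ ≤ 1)
    (hΓ : ∀ᶠ L in atTop, ∀ s, HasDerivAt (Γ L) (Γ' L s) s) (hΓ' : Sy 0 Γ')
    (hA : Sy (-α) A) (N : ℕ) :
    ∃ C : ℝ, 0 ≤ C ∧ ∀ᶠ L in atTop, ∀ (θ : ℝ → ℝ) (Cθ : ℝ), ContDiff ℝ N θ →
      (∀ i ≤ N, ∀ s, ‖iteratedFDeriv ℝ i θ s‖ ≤ Cθ) →
      ContDiff ℝ N (Gtube h ρ ell Γ A θ L) ∧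
      ∀ n ≤ N, ∀ p, ‖iteratedFDeriv ℝ n (Gtube h ρ ell Γ A θ L) p‖
        ≤ C * Cθ * J L (ell p) ^ (-ρ - α + n * ρ) := by
  obtain ⟨C1, hC1, h1⟩ := Psi_bound hρ hell hΓ hΓ' N
  obtain ⟨C2, hC2, h2⟩ := ((Sy.rpow (-ρ)).smul hA).iterated N
  have hh' : ∃ C3 : ℝ, 0 ≤ C3 ∧ ∀ i ≤ N, ∀ ψ : P, ‖iteratedFDeriv ℝ i h ψ‖ ≤ C3 := by
    choose c hc using hh.2
    refine ⟨∑ i ∈ Finset.range (N + 1), |c i|, by positivity, fun i hi ψ => ?_⟩
    refine (hc i ψ).trans ((le_abs_self _).trans ?_)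
    exact Finset.single_le_sum (f := fun i => |c i|) (fun _ _ => abs_nonneg _)
      (Finset.mem_range.mpr (by omega))
  obtain ⟨C3, hC3, h3⟩ := hh'
  refine ⟨2 ^ N * (2 ^ N * C2 * (N.factorial * C3 * C1 ^ N)), by positivity, ?_⟩
  filter_upwards [h1, h2, eventually_ge_atTop (1 : ℝ)] with L h4 h5 hL
  intro θ Cθ hθ hθb
  have hCθ : 0 ≤ Cθ := (norm_nonneg _).trans (hθb 0 (Nat.zero_le _) 0)
  have hθA : ContDiff ℝ N (fun s => θ s • (J L s ^ (-ρ) • A L s)) := hθ.smul h5.1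
  have hcoef : ContDiff ℝ N (fun p : P => θ (ell p) • (J L (ell p) ^ (-ρ) •
      A L (ell p))) := hθA.comp ell.contDiff
  have hcomp : ContDiff ℝ N (fun p : P => h (Psi ρ ell Γ L p)) :=
    (hh.1.of_le (by exact_mod_cast le_top)).comp h4.1
  have hG : ContDiff ℝ N (Gtube h ρ ell Γ A θ L) := hcoef.clm_apply hcomp
  refine ⟨hG, fun n hn p => ?_⟩
  set σ := ell p with hσ
  have hJ1 : 1 ≤ J L σ := one_le_J hL σ
  have hJ0 : 0 < J L σ := by linarith
  set D := J L σ ^ ρ with hD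
  have hD1 : 1 ≤ D := Real.one_le_rpow hJ1 hρ
  have hD0 : 0 < D := by linarith
  have hrhs : 0 ≤ 2 ^ N * (2 ^ N * C2 * (N.factorial * C3 * C1 ^ N)) * Cθ
      * J L σ ^ (-ρ - α + n * ρ) := by positivity
  by_cases hq : ‖Psi ρ ell Γ L p‖ ≤ 1
  · have hb := bilin_bound (ContinuousLinearMap.id ℝ (P →L[ℝ] ℝ))
      ContinuousLinearMap.norm_id_le hcoef hcomp (p := p) hn
      (a := 2 ^ N * C2 * Cθ * J L σ ^ (-ρ - α))
      (b := N.factorial * C3 * C1 ^ N) (D := D) ?_ ?_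
    · change ‖iteratedFDeriv ℝ n (fun y => (θ (ell y) • (J L (ell y) ^ (-ρ) •
        A L (ell y))) (h (Psi ρ ell Γ L y))) p‖ ≤ _
      refine hb.trans ?_
      have h6 : D ^ n = J L σ ^ (n * ρ) := by
        rw [hD, ← Real.rpow_natCast, ← Real.rpow_mul hJ0.le, mul_comm]
      have h7 : J L σ ^ (-ρ - α + n * ρ) = J L σ ^ (-ρ - α) * D ^ n := by
        rw [h6, ← Real.rpow_add hJ0]
      rw [h7]
      have h8 : (2:ℝ) ^ n ≤ 2 ^ N := pow_le_pow_right₀ (by norm_num) hn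
      calc 2 ^ n * (2 ^ N * C2 * Cθ * J L σ ^ (-ρ - α) * (N.factorial * C3 * C1 ^ N)) * D ^ n
          ≤ 2 ^ N * (2 ^ N * C2 * Cθ * J L σ ^ (-ρ - α) * (N.factorial * C3 * C1 ^ N)) * D ^ n := by
            gcongr
        _ = _ := by ring
    · intro i hi
      refine (iter_comp_clm ell hell hθA (hi.trans hn) p).trans ?_
      have hb2 := smul_bound hθ h5.1 (p := σ) (n := i) (hi.trans hn) (a := Cθ)
        (b := C2 * J L σ ^ (-ρ + -α)) (D := 1)
        (fun j hj => by rw [one_pow, mul_one]; exact hθb j (hj.trans (hi.trans hn)) σ)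
        (fun j hj => by rw [one_pow, mul_one]; exact h5.2 j (hj.trans (hi.trans hn)) σ)
      refine hb2.trans ?_
      have h8 : (2:ℝ) ^ i ≤ 2 ^ N := pow_le_pow_right₀ (by norm_num) (hi.trans hn)
      have h9 : 1 ≤ D ^ i := one_le_pow₀ hD1
      rw [one_pow, mul_one, ← sub_eq_add_neg]
      calc 2 ^ i * (Cθ * (C2 * J L σ ^ (-ρ - α))) ≤ 2 ^ N * (Cθ * (C2 * J L σ ^ (-ρ - α))) := by
            gcongr
        _ = 2 ^ N * C2 * Cθ * J L σ ^ (-ρ - α) := by ring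
        _ ≤ 2 ^ N * C2 * Cθ * J L σ ^ (-ρ - α) * D ^ i :=
            le_mul_of_one_le_right (by positivity) h9
    · intro i hi
      have h10 := norm_iteratedFDeriv_comp_le (𝕜 := ℝ) (n := i) (N := (N : WithTop ℕ∞))
        (hh.1.of_le (by exact_mod_cast le_top)) h4.1
        (by exact_mod_cast hi.trans hn) p (C := C3) (D := C1 * D)
        (fun j hj => h3 j (hj.trans (hi.trans hn)) _)
        (fun j hj1 hj => h4.2 p hq j hj1 (hj.trans (hi.trans hn)))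
      refine h10.trans ?_
      have h11 : (i.factorial : ℝ) ≤ N.factorial := by
        exact_mod_cast Nat.factorial_le (hi.trans hn)
      have h12 : C1 ^ i ≤ C1 ^ N := pow_le_pow_right₀ hC1 (hi.trans hn)
      rw [mul_pow]
      calc (i.factorial : ℝ) * C3 * (C1 ^ i * D ^ i) ≤ N.factorial * C3 * (C1 ^ N * D ^ i) := by
            gcongr
        _ = _ := by ring
  · push Not at hq
    have hz := Gtube_eventually_zero (A := A) (θ := θ) hh0 h4.1.continuous hq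
    rw [(hz.iteratedFDeriv ℝ n).eq_of_nhds]
    have : iteratedFDeriv ℝ n (fun _ : P => (0 : ℝ)) p = 0 := by
      simp
    rw [this, norm_zero]
    exact hrhs

end tube

end EscapeTorus
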