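import Pool.Agent.EscapeTorus.Glue

/-! A periodic `C^k`-small potential with prescribed differential along a curve. -/

set_option linter.unusedSectionVars false

namespace EscapeTorus

open Filter Topology
open scoped ContDiff

variable {P : Type} [NormedAddCommGroup P] [NormedSpace ℝ P] [ProperSpace P]
variable {ι : Type} [AddCommGroup ι]

/-- differential of the tube potential on the core curve -/
lemma core_hasFDerivAt {h : P → P} {ρ : ℝ} {ell : P →L[ℝ] ℝ} {Γ Γ' : ℝ → ℝ → P}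
    {A : ℝ → ℝ → (P →L[ℝ] ℝ)} (h0 : h 0 = 0) (hd : HasFDerivAt h (ContinuousLinearMap.id ℝ P) 0)
    {L : ℝ} (hL : 0 < L) (hΓ : ∀ s, HasDerivAt (Γ L) (Γ' L s) s)
    (hcurve : ∀ s, ell (Γ L s) = s) (horth : ∀ s, A L s (Γ' L s) = 0)
    (hAd : Differentiable ℝ (A L)) (s : ℝ) :
    HasFDerivAt (fun p => (J L (ell p) ^ (-ρ) • A L (ell p)) (h (Psi ρ ell Γ L p))) (A L s)
      (Γ L s) := by
  have hJ := J_pos hL s
  set p0 := Γ L s with hp0
  have hs : ell p0 = s := hcurve s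
  have hell : HasFDerivAt (fun p => ell p) ell p0 := ell.hasFDerivAt
  have hΓ1 : HasFDerivAt (fun p => Γ L (ell p)) (ell.smulRight (Γ' L s)) p0 := by
    have h1 : HasDerivAt (Γ L) (Γ' L s) (ell p0) := by rw [hs]; exact hΓ s
    have h2 := h1.hasFDerivAt.comp p0 hell
    refine HasFDerivAt.congr_fderiv (f := fun p => Γ L (ell p)) h2 ?_
    ext v
    simp
  have hJr : HasFDerivAt (fun p => J L (ell p) ^ ρ)
      ((ρ * (s / J L s) * J L s ^ (ρ - 1)) • ell) p0 := by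
    have h1 := hasDerivAt_J_rpow hL ρ (ell p0)
    have h2 := h1.comp_hasFDerivAt p0 hell
    rw [hs] at h2
    exact h2
  have hPsi : HasFDerivAt (Psi ρ ell Γ L)
      (J L s ^ ρ • (ContinuousLinearMap.id ℝ P - ell.smulRight (Γ' L s))) p0 := by
    have h1 := hJr.smul ((hasFDerivAt_id (𝕜 := ℝ) p0).sub hΓ1)
    refine HasFDerivAt.congr_fderiv (f := Psi ρ ell Γ L) h1 ?_
    ext v
    simp [hs, ← hp0]
  have hPsi0 : Psi ρ ell Γ L p0 = 0 := by
    unfold Psi; rw [hs, ← hp0, sub_self, smul_zero]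
  have hu : HasFDerivAt (fun p => h (Psi ρ ell Γ L p))
      ((ContinuousLinearMap.id ℝ P).comp
        (J L s ^ ρ • (ContinuousLinearMap.id ℝ P - ell.smulRight (Γ' L s)))) p0 := by
    rw [← hPsi0] at hd
    exact hd.comp p0 hPsi
  have hc : HasFDerivAt (fun p => J L (ell p) ^ (-ρ) • A L (ell p))
      (fderiv ℝ (fun p => J L (ell p) ^ (-ρ) • A L (ell p)) p0) p0 := by
    apply DifferentiableAt.hasFDerivAt
    have h1 : DifferentiableAt ℝ (fun p => J L (ell p) ^ (-ρ)) p0 :=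
      ((hasDerivAt_J_rpow hL (-ρ) (ell p0)).comp_hasFDerivAt p0 hell).differentiableAt
    exact h1.smul ((hAd (ell p0)).comp p0 ell.differentiableAt)
  have hfin := hc.clm_apply hu
  refine hfin.congr_fderiv ?_
  ext v
  have h1 : J L s ^ (-ρ) * J L s ^ ρ = 1 := by
    rw [← Real.rpow_add hJ]; simp
  have h2 : A L s (v - ell v • Γ' L s) = A L s v := by
    rw [map_sub, map_smul, horth s]; simp
  have h3 : (J L s ^ (-ρ) • A L s) (J L s ^ ρ • (v - ell v • Γ' L s)) = A L s v := by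
    rw [map_smul, smul_apply, h2, smul_eq_mul, smul_eq_mul, ← mul_assoc, mul_comm (J L s ^ ρ), h1,
      one_mul]
  rw [← h3]
  simp [hPsi0, h0, hs]
  left
  ring

/-- Main statement on tube sums. -/
theorem tube_sum (τ : ι →+ P) (hfin : ∀ R : ℝ, {M : ι | ‖τ M‖ ≤ R}.Finite) (k : ℕ)
    {h : P → P} (hh : Bdd h) (hh0 : ∀ ψ : P, 1 < ‖ψ‖ → h ψ = 0) (h0 : h 0 = 0)
    (hd : HasFDerivAt h (ContinuousLinearMap.id ℝ P) 0)
    {ρ α : ℝ} (hρ : 0 ≤ ρ) (hk : ((k : ℝ) - 1) * ρ < α)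
    {ell : P →L[ℝ] ℝ} (hell : ‖ell‖ ≤ 1) {Γ Γ' : ℝ → ℝ → P} {A : ℝ → ℝ → (P →L[ℝ] ℝ)}
    (hΓ : ∀ᶠ L in atTop, ∀ s, HasDerivAt (Γ L) (Γ' L s) s) (hΓ' : Sy 0 Γ')
    (hA : Sy (-α) A) (hcurve : ∀ᶠ L in atTop, ∀ s, ell (Γ L s) = s)
    (horth : ∀ᶠ L in atTop, ∀ s, A L s (Γ' L s) = 0)
    (hdisj : ∀ᶠ L in atTop, ∀ p M, ‖Psi ρ ell Γ L p‖ ≤ 1 → ‖Psi ρ ell Γ L (p + τ M)‖ ≤ 1 → M = 0)
    {ε : ℝ} (hε : 0 < ε) :
    ∀ᶠ L in atTop, ∃ g : P → ℝ, ContDiff ℝ k g ∧ (∀ p M, g (p + τ M) = g p) ∧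
      (∀ n ≤ k, ∀ p, ‖iteratedFDeriv ℝ n g p‖ ≤ ε) ∧
      ∀ s, HasFDerivAt g (A L s) (Γ L s) := by
  obtain ⟨C, hC0, hC⟩ := Gtube_bound hh hh0 hρ hell hΓ hΓ' hA k
  obtain ⟨Cθ, hCθ⟩ := theta_bound k
  set δ := α - ((k : ℝ) - 1) * ρ with hδ
  have hδ0 : 0 < δ := by linarith
  set w : ℝ := 2 ^ (-(δ / 2)) with hw
  have hw0 : 0 < w := Real.rpow_pos_of_pos (by norm_num) _
  have hw1 : w < 1 := Real.rpow_lt_one_of_one_lt_of_neg (by norm_num) (by linarith)
  have hCθ0 : 0 ≤ Cθ := (norm_nonneg _).trans (hCθ 0 0 (Nat.zero_le _) 0)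
  have hlim : Tendsto (fun L : ℝ => C * Cθ * w⁻¹ * (1 - w)⁻¹ * L ^ (-(δ / 2))) atTop (𝓝 0) := by
    have := (tendsto_rpow_neg_atTop (show 0 < δ / 2 by linarith)).const_mul
      (C * Cθ * w⁻¹ * (1 - w)⁻¹)
    simpa using this
  obtain ⟨_, h1c⟩ := Psi_bound hρ hell hΓ hΓ' 0
  filter_upwards [hC, hΓ, hcurve, horth, hdisj, hlim.eventually (gt_mem_nhds hε), h1c.2,
    eventually_ge_atTop (1 : ℝ), (hA.iterated 1).choose_spec.2] with L h1 h2 h3 h4 h5 h6 h7 hL h8
  have hL0 : 0 < L := by linarith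
  have hΨc : Continuous (Psi ρ ell Γ L) := h7.1.continuous
  let K : Set P := {p | ‖Psi ρ ell Γ L p‖ ≤ 1}
  have hK : IsClosed K := isClosed_le hΨc.norm continuous_const
  have hGi := fun i => h1 (theta i) Cθ (theta_contDiff k i) (hCθ i)
  have hG0 : ∀ i p, p ∉ K → Gtube h ρ ell Γ A (theta i) L p = 0 := by
    intro i p hp
    have hp' : 1 < ‖Psi ρ ell Γ L p‖ := by
      by_contra hc; exact hp (not_lt.mp hc)
    unfold Gtube
    rw [hh0 _ hp', map_zero]
  have hbd : ∀ i : ℕ, ∃ B : ℝ, ∀ p, B < ‖p‖ → Gtube h ρ ell Γ A (theta i) L p = 0 := by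
    intro i
    have hΓcont : Continuous (Γ L) := continuous_iff_continuousAt.mpr fun s => (h2 s).continuousAt
    obtain ⟨B, hB⟩ := (isCompact_Icc (a := -(2:ℝ) ^ (i + 1)) (b := 2 ^ (i + 1))).exists_bound_of_continuousOn
      hΓcont.continuousOn
    refine ⟨B + 1, fun p hp => ?_⟩
    by_cases hpK : p ∈ K
    · by_cases hσ : 2 ^ (i + 1) ≤ |ell p|
      · unfold Gtube
        rw [theta_large hσ, zero_smul, zero_apply]
      · exfalso
        push Not at hσ
        have h9 : ‖Γ L (ell p)‖ ≤ B := hB _ ⟨by linarith [neg_abs_le (ell p)], by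
          linarith [le_abs_self (ell p)]⟩
        have h10 : ‖p - Γ L (ell p)‖ ≤ 1 := by
          have h11 : ‖Psi ρ ell Γ L p‖ ≤ 1 := hpK
          unfold Psi at h11
          have hJ1 : 1 ≤ J L (ell p) ^ ρ := Real.one_le_rpow (one_le_J hL _) hρ
          rw [norm_smul, Real.norm_of_nonneg (by linarith)] at h11
          nlinarith [norm_nonneg (p - Γ L (ell p))]
        have h12 : ‖p‖ ≤ ‖p - Γ L (ell p)‖ + ‖Γ L (ell p)‖ := by
          calc ‖p‖ = ‖(p - Γ L (ell p)) + Γ L (ell p)‖ := by congr 1; abel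
            _ ≤ _ := norm_add_le _ _
        linarith
    · exact hG0 i p hpK
  choose B hB using hbd
  let v : ℕ → ℝ := fun i => C * Cθ * w⁻¹ * L ^ (-(δ / 2)) * w ^ i
  have hvs : Summable v := (summable_geometric_of_lt_one hw0.le hw1).mul_left _
  have hvsum : ∑' i, v i = C * Cθ * w⁻¹ * (1 - w)⁻¹ * L ^ (-(δ / 2)) := by
    rw [tsum_mul_left, tsum_geometric_of_lt_one hw0.le hw1]; ring
  have hLp : 0 ≤ L ^ (-(δ / 2)) := by positivity
  have hvb : ∀ i p, ∀ n ≤ k, ‖iteratedFDeriv ℝ n (Gtube h ρ ell Γ A (theta i) L) p‖ ≤ v i := by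
    intro i p n hn
    have hJ1 : 1 ≤ J L (ell p) := one_le_J hL _
    have hJ0 : 0 < J L (ell p) := by linarith
    have hexp : J L (ell p) ^ (-ρ - α + n * ρ) ≤ J L (ell p) ^ (-δ) := by
      apply Real.rpow_le_rpow_of_exponent_le hJ1
      have : (n : ℝ) ≤ k := by exact_mod_cast hn
      have : (n : ℝ) * ρ ≤ k * ρ := by gcongr
      rw [hδ]; linarith
    have hsplit : J L (ell p) ^ (-δ) = J L (ell p) ^ (-(δ / 2)) * J L (ell p) ^ (-(δ / 2)) := by
      rw [← Real.rpow_add hJ0]; ring_nf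
    have hJL : J L (ell p) ^ (-(δ / 2)) ≤ L ^ (-(δ / 2)) :=
      Real.rpow_le_rpow_of_nonpos hL0 (le_J L _) (by linarith)
    have hb := (hGi i).2 n hn p
    have hJp : 0 ≤ J L (ell p) ^ (-(δ / 2)) := by positivity
    have hmain : ∀ x : ℝ, J L (ell p) ^ (-(δ / 2)) ≤ x →
        ‖iteratedFDeriv ℝ n (Gtube h ρ ell Γ A (theta i) L) p‖ ≤ C * Cθ * (L ^ (-(δ / 2)) * x) := by
      intro x hx
      refine hb.trans ?_
      refine mul_le_mul_of_nonneg_left ?_ (by positivity)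
      refine hexp.trans ?_
      rw [hsplit]
      exact mul_le_mul hJL hx hJp hLp
    cases i with
    | zero =>
      have h9 := hmain 1 (Real.rpow_le_one_of_one_le_of_nonpos hJ1 (by linarith))
      refine h9.trans ?_
      change _ ≤ C * Cθ * w⁻¹ * L ^ (-(δ / 2)) * w ^ 0
      have h10 : 1 ≤ w⁻¹ := (one_le_inv₀ hw0).mpr hw1.le
      rw [pow_zero, mul_one, mul_one]
      calc C * Cθ * L ^ (-(δ / 2)) = C * Cθ * 1 * L ^ (-(δ / 2)) := by ring
        _ ≤ _ := by gcongr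
    | succ i =>
      by_cases hσ : |ell p| < 2 ^ i
      · have hz : Gtube h ρ ell Γ A (theta (i + 1)) L =ᶠ[𝓝 p] fun _ => 0 := by
          have hc : ContinuousAt (fun p => |ell p|) p := (ell.continuous.abs).continuousAt
          filter_upwards [hc.eventually (gt_mem_nhds hσ)] with y hy
          unfold Gtube
          rw [theta_small hy, zero_smul, zero_apply]
        rw [(hz.iteratedFDeriv ℝ n).eq_of_nhds]
        have : iteratedFDeriv ℝ n (fun _ : P => (0 : ℝ)) p = 0 := by simp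
        rw [this, norm_zero]
        positivity
      · push Not at hσ
        have hJ2 : (2:ℝ) ^ i ≤ J L (ell p) := hσ.trans (abs_le_J L _)
        have h9 : J L (ell p) ^ (-(δ / 2)) ≤ w ^ i := by
          calc J L (ell p) ^ (-(δ / 2)) ≤ ((2:ℝ) ^ i) ^ (-(δ / 2)) :=
                Real.rpow_le_rpow_of_nonpos (by positivity) hJ2 (by linarith)
            _ = w ^ i := by
                rw [hw, ← Real.rpow_natCast, ← Real.rpow_natCast, ← Real.rpow_mul (by norm_num),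
                  ← Real.rpow_mul (by norm_num), mul_comm]
        refine (hmain _ h9).trans ?_
        change _ ≤ C * Cθ * w⁻¹ * L ^ (-(δ / 2)) * w ^ (i + 1)
        apply le_of_eq
        rw [pow_succ]
        field_simp
  obtain ⟨g, hg1, hg2, hg3, hg4⟩ := glue τ hfin hK (fun p M hp hpM => h5 p M hp hpM) k
    (fun i => Gtube h ρ ell Γ A (theta i) L) B v (fun i => (hGi i).1) hG0 hB hvb hvs
  refine ⟨g, hg1, hg2, fun n hn p => (hg3 n hn p).trans (by rw [hvsum]; exact h6.le), ?_⟩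
  intro s
  have hAd : Differentiable ℝ (A L) := h8.1.differentiable (by simp)
  have hcore := core_hasFDerivAt (h := h) (ρ := ρ) h0 hd hL0 h2 h3 h4 hAd s
  have hmem : Γ L s ∈ interior K := by
    have hopen : IsOpen {p | ‖Psi ρ ell Γ L p‖ < 1} := isOpen_lt hΨc.norm continuous_const
    have hsub : {p | ‖Psi ρ ell Γ L p‖ < 1} ⊆ K := by
      intro p hp
      have hp' : ‖Psi ρ ell Γ L p‖ < 1 := hp
      exact hp'.le
    apply interior_maximal hsub hopen
    change ‖Psi ρ ell Γ L (Γ L s)‖ < 1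
    unfold Psi
    rw [h3 s, sub_self, smul_zero, norm_zero]
    exact one_pos
  refine hcore.congr_of_eventuallyEq ?_
  filter_upwards [hg4 _ hmem] with y hy
  rw [hy]
  have : ∀ i, Gtube h ρ ell Γ A (theta i) L y = theta i (ell y) *
      ((J L (ell y) ^ (-ρ) • A L (ell y)) (h (Psi ρ ell Γ L y))) := fun i => rfl
  simp_rw [this]
  exact theta_tsum _ _

end EscapeTorus
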